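import Pool.Agent.MP_47f5fb_nt.Ct.Spec

/-! Elementary closure facts for polynomial approximation on sectors. -/

set_option autoImplicit false

namespace Pool.Agent.MP_47f5fb_nt.Ct

open Polynomial Finset

namespace AP1x

theorem mono (N N' : ℕ) (M M' : ℝ) (K : ℕ) (g : Pt → Pt → ℝ) (hN : N ≤ N') (hM : M ≤ M')
    (h0 : 0 ≤ M) (h : AppN N M K g) : AppN N' M' K g := by
  intro δ b hb
  obtain ⟨c, h1, h2⟩ := h δ b hb
  refine ⟨fun μ => if μ ∈ range N ×ˢ range N then c μ else 0, fun μ => ?_, fun v hv => ?_⟩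
  · beta_reduce
    split_ifs
    · exact (h1 μ).trans hM
    · rw [abs_zero]
      exact h0.trans hM
  · beta_reduce
    rw [← sum_subset (product_subset_product (range_mono hN) (range_mono hN))
      fun μ _ k => by rw [if_neg k, zero_mul], sum_congr rfl fun μ k => by rw [if_pos k]]
    exact (h2 v hv).trans (mul_le_mul_of_nonneg_right hM (pow_pos hb.1 K).le)

theorem one (K : ℕ) (ν : ℕ × ℕ) (hν : ν ∈ range 2 ×ˢ range 2) :
    App K fun b v => (v.t - b.t) ^ ν.1 * (v.u - b.u) ^ ν.2 := by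
  refine ⟨2, 1, le_rfl, fun δ b hb => ⟨fun μ => if μ = ν then 1 else 0, fun μ => ?_,
    fun v _ => ?_⟩⟩
  · beta_reduce
    split_ifs <;> simp
  · simp only [ite_mul, one_mul, zero_mul, sum_ite_eq', if_pos hν, sub_self, abs_zero]
    exact (pow_pos hb.1 K).le

end AP1x

theorem ap1 : S_AP1 := by
  refine ⟨AP1x.mono, fun K h M hM => ?_, fun K => ?_, fun K => ?_, fun K g h hg hh => ?_,
    fun K g h e hg => ?_, fun g hg => ?_, fun K K' g hK hg => ?_⟩
  · refine ⟨1, max 1 M, le_max_left _ _, fun δ b hb => ⟨fun _ => h b, fun _ =>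
      (hM δ b hb).trans (le_max_right _ _), fun v _ => ?_⟩⟩
    have := hb.1
    simp only [range_one, singleton_product_singleton, sum_singleton, pow_zero, mul_one, sub_self,
      abs_zero]
    positivity
  · simpa using AP1x.one K (1, 0) (by simp)
  · simpa using AP1x.one K (0, 1) (by simp)
  · obtain ⟨N, M, m, a⟩ := hg
    obtain ⟨N', M', m', a'⟩ := hh
    refine ⟨max N N', M + M', by linarith, fun δ b hb => ?_⟩
    obtain ⟨c, h1, h2⟩ := AP1x.mono _ _ _ _ _ _ (le_max_left N N') le_rfl (by linarith) a δ b hb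
    obtain ⟨c', h3, h4⟩ := AP1x.mono _ _ _ _ _ _ (le_max_right N N') le_rfl (by linarith) a' δ b hb
    refine ⟨fun μ => c μ + c' μ, fun μ => (abs_add_le _ _).trans (add_le_add (h1 μ) (h3 μ)),
      fun v hv => ?_⟩
    simp only [add_mul, sum_add_distrib]
    rw [add_sub_add_comm]
    exact (abs_add_le _ _).trans (add_le_add (h2 v hv) (h4 v hv))
  · obtain ⟨N, M, m, a⟩ := hg
    refine ⟨N, M, m, fun δ b hb => ?_⟩
    obtain ⟨c, h1, h2⟩ := a δ b hb
    exact ⟨c, h1, fun v hv => e δ b v hb hv ▸ h2 v hv⟩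
  · obtain ⟨M, a⟩ := hg
    refine ⟨0, max 1 M, le_max_left _ _, fun δ b hb => ⟨fun _ => 0, fun _ => by
      rw [abs_zero]; positivity, fun v hv => ?_⟩⟩
    rw [range_zero, empty_product, sum_empty, sub_zero, pow_one]
    exact (a δ b v hb hv).trans (mul_le_mul_of_nonneg_right (le_max_right _ _) hb.1.le)
  · obtain ⟨N, M, m, a⟩ := hg
    refine ⟨N, M, m, fun δ b hb => ?_⟩
    obtain ⟨c, h1, h2⟩ := a δ b hb
    exact ⟨c, h1, fun v hv => (h2 v hv).trans (mul_le_mul_of_nonneg_left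
      (pow_le_pow_of_le_one hb.1.le (hb.2.1.trans (by norm_num)) hK) (by linarith))⟩

end Pool.Agent.MP_47f5fb_nt.Ct
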