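import Pool.Agent.MP_47f5fb_nt.Ct.Spec

/-! Row AP2: products of approximable functions. -/

set_option autoImplicit false

namespace Pool.Agent.MP_47f5fb_nt.Ct

open Polynomial Finset

namespace AP2x

noncomputable def pol (N : ℕ) (c : ℕ × ℕ → ℝ) (x y : ℝ) : ℝ :=
  ∑ μ ∈ range N ×ˢ range N, c μ * (x ^ μ.1 * y ^ μ.2)

theorem bd (N : ℕ) (c : ℕ × ℕ → ℝ) (M x y : ℝ) (hc : ∀ μ, |c μ| ≤ M) (hx : |x| ≤ 1)
    (hy : |y| ≤ 1) : |pol N c x y| ≤ (N : ℝ) ^ 2 * M := by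
  refine (abs_sum_le_sum_abs _ _).trans ((sum_le_card_nsmul _ _ M fun μ _ => ?_).trans ?_)
  · rw [abs_mul, abs_mul, abs_pow, abs_pow]
    exact (mul_le_of_le_one_right (abs_nonneg _) (mul_le_one₀ (pow_le_one₀ (abs_nonneg _) hx)
      (by positivity) (pow_le_one₀ (abs_nonneg _) hy))).trans (hc μ)
  · simp [sq]

theorem prod (N N' : ℕ) (c c' : ℕ × ℕ → ℝ) (M M' : ℝ) (hc : ∀ μ, |c μ| ≤ M)
    (hc' : ∀ μ, |c' μ| ≤ M') : ∃ d : ℕ × ℕ → ℝ, (∀ μ, |d μ| ≤ (N : ℝ) ^ 2 * N' ^ 2 * (M * M')) ∧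
      ∀ x y, pol N c x y * pol N' c' x y = pol (N + N') d x y := by
  have hM : 0 ≤ M := (abs_nonneg _).trans (hc 0)
  have hM' : 0 ≤ M' := (abs_nonneg _).trans (hc' 0)
  refine ⟨fun μ => ∑ p ∈ ((range N ×ˢ range N) ×ˢ (range N' ×ˢ range N')).filter
    (fun p => p.1 + p.2 = μ), c p.1 * c' p.2, fun μ => ?_, fun x y => ?_⟩
  · refine (abs_sum_le_sum_abs _ _).trans ((sum_le_sum_of_subset_of_nonneg (filter_subset _ _)
      fun _ _ _ => abs_nonneg _).trans ((sum_le_card_nsmul _ _ (M * M') fun p _ => ?_).trans ?_))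
    · rw [abs_mul]
      exact mul_le_mul (hc _) (hc' _) (abs_nonneg _) hM
    · simp [sq]
  · rw [pol, pol, pol, sum_mul_sum, ← sum_product',
      ← sum_fiberwise_of_maps_to (t := range (N + N') ×ˢ range (N + N'))
        (g := fun p : (ℕ × ℕ) × ℕ × ℕ => p.1 + p.2)]
    · refine sum_congr rfl fun μ _ => ?_
      rw [sum_mul]
      refine sum_congr rfl fun p hp => ?_
      rw [← (mem_filter.1 hp).2, Prod.fst_add, Prod.snd_add, pow_add, pow_add]
      ring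
    · intro p hp
      simp only [mem_product, mem_range, Prod.fst_add, Prod.snd_add] at hp ⊢
      omega

theorem core (K j : ℕ) (g h : Pt → Pt → ℝ) (L : ℝ) (hL : 0 ≤ L) (hj : j ≤ K) (hg : App K g)
    (hh : App K h)
    (hb : ∀ δ b v, Bs δ b → Nr δ b v → |g b v| ≤ L * δ ^ j ∧ |h b v| ≤ L * δ ^ j) :
    App (K + j) fun b v => g b v * h b v := by
  obtain ⟨N, M, hM, hg⟩ := hg
  obtain ⟨N', M', hM', hh⟩ := hh
  have a1 : 0 ≤ (N : ℝ) ^ 2 * N' ^ 2 * (M * M') := by positivity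
  have a2 : 0 ≤ M * L + (L + M) * M' := by positivity
  refine ⟨N + N', 1 + (N : ℝ) ^ 2 * N' ^ 2 * (M * M') + (M * L + (L + M) * M'), by linarith,
    fun δ b hs => ?_⟩
  obtain ⟨c, hc, h1⟩ := hg δ b hs
  obtain ⟨c', hc', h2⟩ := hh δ b hs
  obtain ⟨d, hd, h3⟩ := prod N N' c c' M M' hc hc'
  refine ⟨d, fun μ => (hd μ).trans (by linarith), fun v hv => ?_⟩
  have d0 := hs.1
  have d1 : δ ≤ 1 := hs.2.1.trans (by norm_num)
  have b1 : |g b v - pol N c (v.t - b.t) (v.u - b.u)| ≤ M * δ ^ K := h1 v hv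
  have b2 : |h b v - pol N' c' (v.t - b.t) (v.u - b.u)| ≤ M' * δ ^ K := h2 v hv
  obtain ⟨b3, b4⟩ := hb δ b v hs hv
  change |g b v * h b v - pol (N + N') d (v.t - b.t) (v.u - b.u)| ≤ _
  rw [← h3]
  generalize pol N c (v.t - b.t) (v.u - b.u) = p at *
  generalize pol N' c' (v.t - b.t) (v.u - b.u) = q at *
  have b5 : |p| ≤ (L + M) * δ ^ j := by
    have e1 : δ ^ K ≤ δ ^ j := pow_le_pow_of_le_one d0.le d1 hj
    have e2 : |p| ≤ |g b v| + |g b v - p| := by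
      simpa using abs_sub (g b v) (g b v - p)
    nlinarith
  rw [show g b v * h b v - p * q = (g b v - p) * h b v + p * (h b v - q) by ring]
  refine (abs_add_le _ _).trans ?_
  rw [abs_mul, abs_mul]
  refine (add_le_add (mul_le_mul b1 b4 (abs_nonneg _) (by positivity))
    (mul_le_mul b5 b2 (abs_nonneg _) (by positivity))).trans ?_
  rw [show M * δ ^ K * (L * δ ^ j) + (L + M) * δ ^ j * (M' * δ ^ K) =
    (M * L + (L + M) * M') * δ ^ (K + j) by ring]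
  exact mul_le_mul_of_nonneg_right (by linarith) (by positivity)

theorem bdd (K : ℕ) (g : Pt → Pt → ℝ) (hg : App K g) :
    ∃ L : ℝ, 0 ≤ L ∧ ∀ δ b v, Bs δ b → Nr δ b v → |g b v| ≤ L := by
  obtain ⟨N, M, hM, hg⟩ := hg
  refine ⟨(N : ℝ) ^ 2 * M + M, by positivity, fun δ b v hs hv => ?_⟩
  obtain ⟨c, hc, h1⟩ := hg δ b hs
  have d1 : δ ≤ 1 := hs.2.1.trans (by norm_num)
  have b1 : |g b v - pol N c (v.t - b.t) (v.u - b.u)| ≤ M * δ ^ K := h1 v hv
  have b2 := bd N c M _ _ hc (hv.2.1.trans d1) (hv.1.trans d1)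
  have b3 : M * δ ^ K ≤ M := mul_le_of_le_one_right (by linarith) (pow_le_one₀ hs.1.le d1)
  have b4 := abs_add_le (g b v - pol N c (v.t - b.t) (v.u - b.u)) (pol N c (v.t - b.t) (v.u - b.u))
  rw [sub_add_cancel] at b4
  linarith

end AP2x

theorem ap2 : S_AP2 := by
  refine ⟨fun K g h hg hh => ?_, fun K g h hK ⟨C, hC⟩ ⟨C', hC'⟩ hg hh => ?_⟩
  · obtain ⟨L, l0, h1⟩ := AP2x.bdd K g hg
    obtain ⟨L', l0', h2⟩ := AP2x.bdd K h hh
    refine AP2x.core K 0 g h (L + L') (by linarith) (Nat.zero_le _) hg hh fun δ b v hs hv => ?_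
    rw [pow_zero, mul_one]
    exact ⟨(h1 δ b v hs hv).trans (by linarith), (h2 δ b v hs hv).trans (by linarith)⟩
  · refine AP2x.core K 1 g h (|C| + |C'|) (by positivity) hK hg hh fun δ b v hs hv => ?_
    rw [pow_one]
    have a1 := le_abs_self C
    have a2 := le_abs_self C'
    have a3 := abs_nonneg C
    have a4 := abs_nonneg C'
    exact ⟨(hC δ b v hs hv).trans (mul_le_mul_of_nonneg_right (by linarith) hs.1.le),
      (hC' δ b v hs hv).trans (mul_le_mul_of_nonneg_right (by linarith) hs.1.le)⟩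

end Pool.Agent.MP_47f5fb_nt.Ct
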