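import Pool.Agent.MP_47f5fb_nt.Ct.Spec

/-! The implicit function is approximated by polynomials to every order. -/

set_option autoImplicit false

namespace Pool.Agent.MP_47f5fb_nt.Ct

open Polynomial Finset

namespace AP3x

/-- the cofactor of the quadratic part -/
def Zq (b v : Pt) : ℝ := 3 * b.w * (v.w - b.w) + (v.w - b.w) * (v.w - b.w) + -1 * (v.t - b.t) +
  (v.u - b.u) * (2 * b.u + (v.u - b.u))

theorem small_om : Small fun b v => v.w - b.w := ⟨40, fun _ _ _ _ h => h.2.2.1⟩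

theorem small_Z : Small Zq := by
  refine ⟨200, fun δ b v hb hv => ?_⟩
  obtain ⟨d0, d1, bu, -, bw, -, -⟩ := hb
  obtain ⟨vu, vt, vw, -⟩ := hv
  have h1 : |3 * b.w * (v.w - b.w)| ≤ 3 * 1 * (40 * δ) := by
    rw [abs_mul, abs_mul, abs_of_pos (by norm_num : (0 : ℝ) < 3)]
    gcongr
  have h2 : |(v.w - b.w) * (v.w - b.w)| ≤ 1 * (40 * δ) := by
    rw [abs_mul]
    exact mul_le_mul (by linarith) vw (abs_nonneg _) zero_le_one
  have h3 : |-1 * (v.t - b.t)| ≤ δ := by rwa [neg_one_mul, abs_neg]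
  have h4 : |(v.u - b.u) * (2 * b.u + (v.u - b.u))| ≤ δ * 1 := by
    rw [abs_mul]
    refine mul_le_mul vu ?_ (abs_nonneg _) d0.le
    rw [abs_le] at bu vu ⊢
    constructor <;> linarith [bu.1, bu.2, vu.1, vu.2]
  rw [abs_le] at h1 h2 h3 h4 ⊢
  unfold Zq
  constructor <;> linarith [h1.1, h1.2, h2.1, h2.2, h3.1, h3.2, h4.1, h4.2]

end AP3x

open AP3x in
theorem ap3 (a1 : S_AP1) (a2 : S_AP2) : S_AP3 := by
  obtain ⟨-, cst, ta, up, add, cng, sm, mono⟩ := a1
  obtain ⟨mul, mul2⟩ := a2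
  have num : ∀ (K : ℕ) (c : ℝ), App K fun _ _ => c :=
    fun K c => cst K (fun _ => c) |c| fun _ _ _ => le_rfl
  have u0 : ∀ K, App K fun b _ => b.u := fun K => cst K (·.u) (1 / 10) fun _ _ h => h.2.2.1
  have t0 : ∀ K, App K fun b _ => b.t := fun K => cst K (·.t) 1 fun _ _ h => h.2.2.2.1
  have w0 : ∀ K, App K fun b _ => b.w := fun K => cst K (·.w) 1 fun _ _ h => h.2.2.2.2.1
  have il : ∀ K, App K fun b _ => -1 / (3 * b.w ^ 2 - b.t + b.u ^ 2) := fun K =>
    cst K (fun b => -1 / (3 * b.w ^ 2 - b.t + b.u ^ 2)) 4 fun _ b h => by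
      have h4 := h.2.2.2.2.2.1
      rw [abs_div, abs_neg, abs_one, div_le_iff₀ (by linarith)]
      linarith
  have step : ∀ K, 1 ≤ K → (App K fun b v => v.w - b.w) → App (K + 1) fun b v => v.w - b.w := by
    intro K hK om
    have hZ : App K Zq :=
      add _ _ _ (add _ _ _ (add _ _ _ (mul _ _ _ (mul _ _ _ (num K 3) (w0 K)) om) (mul _ _ _ om om))
        (mul _ _ _ (num K (-1)) (ta K)))
        (mul _ _ _ (up K) (add _ _ _ (mul _ _ _ (num K 2) (u0 K)) (up K)))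
    have hP := add _ _ _ (add _ _ _ (add _ _ _ (add _ _ _
      (mul _ _ _ (num (K + 1) 3) (mul _ _ _ (t0 _) (t0 _)))
      (mul _ _ _ (num _ 3) (mul _ _ _ (t0 _) (ta _)))) (mul _ _ _ (ta _) (ta _)))
      (mul _ _ _ (num _ (-1)) (w0 _))) (mul _ _ _ (u0 _) (u0 _))
    have hQ := add _ _ _ (mul _ _ _ (add _ _ _ (mul _ _ _ (num (K + 1) 2) (u0 _)) (up _))
      (add _ _ _ (add _ _ _ (add _ _ _ (num _ 1) (t0 _)) (ta _)) (w0 _)))
      (mul _ _ _ (num _ (-1)) (add _ _ _ (add _ _ _ (mul _ _ _ (num _ 3) (mul _ _ _ (u0 _) (u0 _)))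
        (mul _ _ _ (num _ 3) (mul _ _ _ (u0 _) (up _)))) (mul _ _ _ (up _) (up _))))
    refine cng _ _ _ (fun δ b v hb hv => ?_) (mul _ _ _ (il _) (add _ _ _
      (add _ _ _ (mul _ _ _ (ta _) hP) (mul _ _ _ (up _) hQ)) (mul2 K _ _ hK small_om small_Z om hZ)))
    have h0 : 3 * b.w ^ 2 - b.t + b.u ^ 2 ≠ 0 := fun h => by
      have h4 := hb.2.2.2.2.2.1
      rw [h, abs_zero] at h4
      linarith
    have e1 := hb.2.2.2.2.2.2
    have e2 := hv.2.2.2
    unfold Phi at e1 e2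
    simp only [Zq]
    rw [div_mul_eq_mul_div, div_eq_iff h0]
    linear_combination e1 - e2
  have all : ∀ K, App (K + 1) fun b v => v.w - b.w := fun K => by
    induction K with
    | zero => exact sm _ small_om
    | succ K ih => exact step _ (Nat.le_add_left 1 K) ih
  exact fun K => mono K (K + 1) _ (Nat.le_succ K) (all K)

end Pool.Agent.MP_47f5fb_nt.Ct
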