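import Pool.Agent.MP_47f5fb_nt.Ct.Spec

/-! Monomials in the three coordinates are uniformly approximable on a sector. -/

set_option autoImplicit false

namespace Pool.Agent.MP_47f5fb_nt.Ct

open Polynomial Finset

namespace AP4x

theorem app_u (a1 : S_AP1) (K : ℕ) : App K fun _ v => v.u := by
  obtain ⟨-, hc, -, hu, hadd, hcg, -, -⟩ := a1
  have h1 : App K fun b _ => b.u := hc K (fun b => b.u) (1 / 10) fun δ b hb => hb.2.2.1
  refine hcg K _ _ ?_ (hadd K _ _ h1 (hu K))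
  intro δ b v _ _
  ring

theorem app_t (a1 : S_AP1) (K : ℕ) : App K fun _ v => v.t := by
  obtain ⟨-, hc, ht, -, hadd, hcg, -, -⟩ := a1
  have h1 : App K fun b _ => b.t := hc K (fun b => b.t) 1 fun δ b hb => hb.2.2.2.1
  refine hcg K _ _ ?_ (hadd K _ _ h1 (ht K))
  intro δ b v _ _
  ring

theorem app_w (a1 : S_AP1) (a3 : S_AP3) (K : ℕ) : App K fun _ v => v.w := by
  obtain ⟨-, hc, -, -, hadd, hcg, -, -⟩ := a1
  have h1 : App K fun b _ => b.w := hc K (fun b => b.w) 1 fun δ b hb => hb.2.2.2.2.1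
  refine hcg K _ _ ?_ (hadd K _ _ h1 (a3 K))
  intro δ b v _ _
  ring

theorem app_pow (a1 : S_AP1) (a2 : S_AP2) (K : ℕ) (g : Pt → Pt → ℝ) (hg : App K g) (n : ℕ) :
    App K fun b v => g b v ^ n := by
  obtain ⟨-, hc, -, -, -, hcg, -, -⟩ := a1
  induction n with
  | zero =>
    have h1 : App K fun _ _ => (1 : ℝ) := hc K (fun _ => (1 : ℝ)) 1 fun δ b _ => by simp
    refine hcg K _ _ ?_ h1
    intro δ b v _ _
    simp
  | succ n ih =>
    refine hcg K _ _ ?_ (a2.1 K _ _ ih hg)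
    intro δ b v _ _
    ring

theorem app_mon (a1 : S_AP1) (a2 : S_AP2) (a3 : S_AP3) (K n j k : ℕ) :
    App K fun _ v => v.u ^ n * v.t ^ j * v.w ^ k :=
  a2.1 K _ _ (a2.1 K _ _ (app_pow a1 a2 K _ (app_u a1 K) n) (app_pow a1 a2 K _ (app_t a1 K) j))
    (app_pow a1 a2 K _ (app_w a1 a3 K) k)

end AP4x

theorem ap4 (a1 : S_AP1) (a2 : S_AP2) (a3 : S_AP3) : S_AP4 := by
  intro K D
  have h : ∀ μ : ℕ × ℕ × ℕ, ∃ (N : ℕ) (M : ℝ), 1 ≤ M ∧
      AppN N M K fun _ v => v.u ^ μ.1 * v.t ^ μ.2.1 * v.w ^ μ.2.2 :=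
    fun μ => AP4x.app_mon a1 a2 a3 K μ.1 μ.2.1 μ.2.2
  choose N M hM hA using h
  set T : Finset (ℕ × ℕ × ℕ) := range (D + 1) ×ˢ range (D + 1) ×ˢ range (D + 1) with hT
  have h0 : ∀ μ ∈ T, 0 ≤ M μ := fun μ _ => le_trans zero_le_one (hM μ)
  refine ⟨T.sup N, 1 + ∑ μ ∈ T, M μ, ?_, ?_⟩
  · have := Finset.sum_nonneg h0
    linarith
  · intro n j k hn hj hk
    have hm : (n, j, k) ∈ T := by
      simp only [hT, Finset.mem_product, Finset.mem_range]
      omega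
    refine a1.1 (N (n, j, k)) _ (M (n, j, k)) _ K _ (Finset.le_sup hm) ?_ (h0 _ hm) (hA (n, j, k))
    have := Finset.single_le_sum h0 hm
    linarith

end Pool.Agent.MP_47f5fb_nt.Ct
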