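import Pool.Agent.MP_47f5fb_nt.Ct.Spec

set_option autoImplicit false

namespace Pool.Agent.MP_47f5fb_nt.Ct

/-- the dependency graph of the rows closes -/
theorem asm (lin : S_LIN) (sie : S_SIE) (ht : S_SIE → S_HT) (hen : S_HEN) (rel : S_LIN → S_REL)
    (smq : S_SMQ) (cl1 : S_HEN → S_REL → S_CL1) (cls : S_HT → S_SMQ → S_CL1 → S_CLS)
    (bez : S_BEZ) (nl : S_NL) (con : S_NL → S_CON) (deg : S_DEG) (fib : S_BEZ → S_FIB)
    (tri : S_TRI) (c1 : S_FIB → S_DEG → S_NL → S_C1) (pnr : S_DEG → S_CON → S_PNR)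
    (par : S_FIB → S_PNR → S_TRI → S_PAR) (c2 : S_PAR → S_BEZ → S_TRI → S_C2)
    (c3 : S_BEZ → S_TRI → S_C3) (mn : S_MON) (tdf : S_TDF) (fac : S_TDF → S_FAC) (nrm : S_NRM)
    (hi1 : S_HI1) (hil : S_MON → S_HI1 → S_HIL)
    (cur : S_NRM → S_HIL → S_MON → S_FAC → S_CLS → S_C1 → S_C2 → S_C3 → S_CUR)
    (wt : S_WT) (det : S_DET) (ap1 : S_AP1) (ap2 : S_AP2) (ap3 : S_AP1 → S_AP2 → S_AP3)
    (ap4 : S_AP1 → S_AP2 → S_AP3 → S_AP4) (sec : S_SEC) (gd : S_GD)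
    (rd1 : S_WT → S_DET → S_AP4 → S_GD → S_RD1) (rd2 : S_LIN → S_RD2) (dir : S_DIR)
    (rpt : S_RPT) (bad : S_RPT → S_BAD)
    (sct : S_RD1 → S_RD2 → S_SEC → S_GD → S_DIR → S_CUR → S_SCT) (dya : S_SCT → S_BAD → S_DYA)
    (shl : S_DYA → S_SHL) (mai : S_SHL → S_MAIN) : S_MAIN :=
  have f := fib bez
  have a3 := ap3 ap1 ap2
  mai (shl (dya (sct (rd1 wt det (ap4 ap1 ap2 a3) gd) (rd2 lin) sec gd dir
    (cur nrm (hil mn hi1) mn (fac tdf) (cls (ht sie) smq (cl1 hen (rel lin))) (c1 f deg nl)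
      (c2 (par f (pnr deg (con nl)) tri) bez tri) (c3 bez tri))) (bad rpt)))

end Pool.Agent.MP_47f5fb_nt.Ct
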