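import Pool.Agent.MP_47f5fb_nt.Ct.Spec

/-! Few sectors lie near a rational point of small height of the curve at infinity. -/

set_option autoImplicit false

namespace Pool.Agent.MP_47f5fb_nt.Ct

open Polynomial Finset

namespace BADx

theorem fib {δ ρ : ℝ} (c : ℝ) (hδ : 0 < δ) (hρ : 0 ≤ ρ) (J : Finset ℤ)
    (h : ∀ i ∈ J, ∃ t : ℝ, ⌊t / δ⌋ = i ∧ |t - c| ≤ ρ) : (J.card : ℝ) ≤ 2 * ρ / δ + 2 := by
  have hs : J ⊆ Icc ⌊(c - ρ) / δ⌋ ⌊(c + ρ) / δ⌋ := by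
    intro i hi
    obtain ⟨t, rfl, ht⟩ := h i hi
    have := abs_le.1 ht
    exact mem_Icc.2 ⟨Int.floor_mono (div_le_div_of_nonneg_right (by linarith) hδ.le),
      Int.floor_mono (div_le_div_of_nonneg_right (by linarith) hδ.le)⟩
  have hab : ⌊(c - ρ) / δ⌋ ≤ ⌊(c + ρ) / δ⌋ :=
    Int.floor_mono (div_le_div_of_nonneg_right (by linarith) hδ.le)
  have h1 := Int.card_Icc_of_le ⌊(c - ρ) / δ⌋ ⌊(c + ρ) / δ⌋ (by omega)
  have h2 : ((Icc ⌊(c - ρ) / δ⌋ ⌊(c + ρ) / δ⌋).card : ℝ) =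
      (⌊(c + ρ) / δ⌋ : ℝ) + 1 - (⌊(c - ρ) / δ⌋ : ℝ) := by exact_mod_cast h1
  have h3 : (J.card : ℝ) ≤ ((Icc ⌊(c - ρ) / δ⌋ ⌊(c + ρ) / δ⌋).card : ℝ) := by
    exact_mod_cast card_le_card hs
  have h4 := Int.floor_le ((c + ρ) / δ)
  have h5 := Int.lt_floor_add_one ((c - ρ) / δ)
  have h6 : (c + ρ) / δ - (c - ρ) / δ = 2 * ρ / δ := by ring
  linarith

theorem harm (N : ℕ) : ∑ m ∈ Icc 1 N, ((m : ℝ))⁻¹ ≤ 1 + Real.log N := by
  refine le_trans (le_of_eq ?_) (harmonic_le_one_add_log N)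
  simp [harmonic_eq_sum_Icc]

theorem wid {δ x Q : ℝ} (hδ : 0 < δ) (hx : 1 ≤ x) (hxQ : x ≤ Q) (h : 1 ≤ δ * Q ^ 2) :
    2 * (1 / (x * Q)) / δ + 2 ≤ 4 * Q * x⁻¹ := by
  have hx0 : 0 < x := by linarith
  have hQ : 0 < Q := by linarith
  have h1 : 2 * (1 / (x * Q)) / δ ≤ 2 * Q * x⁻¹ := by
    rw [div_le_iff₀ hδ]
    have : 2 * Q * x⁻¹ * δ = 2 * (1 / (x * Q)) * (δ * Q ^ 2) := by field_simp
    rw [this]
    exact le_mul_of_one_le_right (by positivity) h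
  have h2 : 1 ≤ Q * x⁻¹ := by rw [← div_eq_mul_inv, le_div_iff₀ hx0]; linarith
  linarith

end BADx

theorem bad (rpt : S_RPT) : S_BAD := by
  intro η hη
  obtain ⟨K, hK, hR⟩ := rpt (η / 2) (by positivity)
  refine ⟨4 * K * (1 + 2 / η), by positivity, fun δ Q I hδ hQ hδQ hI => ?_⟩
  have hI' : ∀ i ∈ I, ∃ (x : ℕ) (y : ℤ), x ∈ Icc 1 Q ∧
      (∃ z : ℤ, (x : ℤ) ^ 3 + y ^ 3 + z ^ 3 = x * y * z) ∧
      ∃ t : ℝ, ⌊t / δ⌋ = i ∧ |t - (y : ℝ) / x| ≤ 1 / ((x : ℝ) * Q) := by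
    intro i hi
    obtain ⟨t, ht, x, y, z, h1, h2, h3, h4⟩ := hI i hi
    lift x to ℕ using (by omega)
    exact ⟨x, y, mem_Icc.2 ⟨by exact_mod_cast h1, by exact_mod_cast h2⟩, ⟨z, h3⟩, t, ht,
      by simpa only [Int.cast_natCast] using h4⟩
  choose! X Y hX hY hT using hI'
  have hQ1 : (1 : ℝ) ≤ Q := by exact_mod_cast hQ
  have hQ0 : (0 : ℝ) < Q := by linarith
  have hE : (1 : ℝ) ≤ (Q : ℝ) ^ (η / 2) := Real.one_le_rpow hQ1 (by positivity)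
  have hx : ∀ x ∈ Icc 1 Q, ((I.filter (fun i => X i = x)).card : ℝ) ≤
      4 * K * Q * (Q : ℝ) ^ (η / 2) * ((x : ℝ))⁻¹ := by
    intro x hx
    have hx1 : (1 : ℝ) ≤ x := by exact_mod_cast (mem_Icc.1 hx).1
    have hx2 : (x : ℝ) ≤ Q := by exact_mod_cast (mem_Icc.1 hx).2
    have hA := hR x ((I.filter (fun i => X i = x)).image Y) (mem_Icc.1 hx).1 (fun y hy => by
      obtain ⟨i, hi, rfl⟩ := mem_image.1 hy
      have := hY i (mem_filter.1 hi).1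
      rwa [(mem_filter.1 hi).2] at this)
    have hA' : (((I.filter (fun i => X i = x)).image Y).card : ℝ) ≤ K * (Q : ℝ) ^ (η / 2) :=
      hA.trans (mul_le_mul_of_nonneg_left
        (Real.rpow_le_rpow (by linarith) hx2 (by positivity)) hK)
    rw [card_eq_sum_card_image Y, Nat.cast_sum]
    have h3 := sum_le_card_nsmul ((I.filter (fun i => X i = x)).image Y)
      (fun y => (((I.filter (fun i => X i = x)).filter (fun i => Y i = y)).card : ℝ))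
      (4 * (Q : ℝ) * ((x : ℝ))⁻¹) (fun y _ => by
        refine (BADx.fib ((y : ℝ) / x) hδ (ρ := 1 / ((x : ℝ) * Q)) (by positivity) _
          (fun i hi => ?_)).trans (BADx.wid hδ hx1 hx2 hδQ)
        have h1 := mem_filter.1 hi
        have h2 := mem_filter.1 h1.1
        have := hT i h2.1
        rwa [h2.2, h1.2] at this)
    refine h3.trans ?_
    rw [nsmul_eq_mul]
    calc _ ≤ (K * (Q : ℝ) ^ (η / 2)) * (4 * (Q : ℝ) * ((x : ℝ))⁻¹) :=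
          mul_le_mul_of_nonneg_right hA' (by positivity)
      _ = _ := by ring
  have hlog : 1 + Real.log Q ≤ (1 + 2 / η) * (Q : ℝ) ^ (η / 2) := by
    have h1 := Real.log_le_rpow_div hQ0.le (show 0 < η / 2 by positivity)
    have h2 : (Q : ℝ) ^ (η / 2) / (η / 2) = 2 / η * (Q : ℝ) ^ (η / 2) := by field_simp
    linarith
  have hp : (Q : ℝ) ^ (1 + η) = Q * ((Q : ℝ) ^ (η / 2) * (Q : ℝ) ^ (η / 2)) := by
    rw [← Real.rpow_add hQ0, add_halves, Real.rpow_add hQ0, Real.rpow_one]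
  rw [card_eq_sum_card_fiberwise (f := X) (t := Icc 1 Q) (fun i hi => hX i hi), Nat.cast_sum]
  calc _ ≤ ∑ x ∈ Icc 1 Q, 4 * K * Q * (Q : ℝ) ^ (η / 2) * ((x : ℝ))⁻¹ := sum_le_sum hx
    _ = 4 * K * Q * (Q : ℝ) ^ (η / 2) * ∑ x ∈ Icc 1 Q, ((x : ℝ))⁻¹ := by rw [mul_sum]
    _ ≤ 4 * K * Q * (Q : ℝ) ^ (η / 2) * ((1 + 2 / η) * (Q : ℝ) ^ (η / 2)) :=
        mul_le_mul_of_nonneg_left ((BADx.harm Q).trans hlog) (by positivity)
    _ = _ := by rw [hp]; ring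

end Pool.Agent.MP_47f5fb_nt.Ct
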