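import Pool.Agent.MP_47f5fb_nt.Ct.Spec

/-! Row BEZ: a uniform bound for the common zeros of two plane curves. -/

set_option autoImplicit false

namespace Pool.Agent.MP_47f5fb_nt.Ct

open Polynomial Finset

namespace BEZx

theorem res_ne {P G : ℚ[X][X]} (hm : P.Monic) (hi : Irreducible P) (hd : ¬ P ∣ G) :
    resultant P G P.natDegree G.natDegree ≠ 0 := by
  have inj := IsFractionRing.injective ℚ[X] (FractionRing ℚ[X])
  have h1 : Irreducible (P.map (algebraMap ℚ[X] (FractionRing ℚ[X]))) :=
    hm.irreducible_iff_irreducible_map_fraction_map.1 hi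
  have h2 := resultant_ne_zero _ _
    (h1.coprime_iff_not_dvd.2 fun h => hd ((map_dvd_map _ inj hm).1 h))
  rw [natDegree_map_eq_of_injective inj, natDegree_map_eq_of_injective inj, resultant_map_map] at h2
  exact fun e => h2 (by rw [e, map_zero])

theorem res_deg {d : ℕ} {P G : ℚ[X][X]} (hP : Bd d P) (hG : Bd d G) (m n : ℕ) :
    (resultant P G m n).natDegree ≤ (m + n) * d := by
  have he : ∀ i j, (sylvester P G m n i j).natDegree ≤ d := fun i j => by
    refine Fin.addCases (fun k => ?_) (fun k => ?_) j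
    · simp only [sylvester, Matrix.of_apply, Fin.addCases_left]
      split_ifs
      · exact hG.2 _
      · simp
    · simp only [sylvester, Matrix.of_apply, Fin.addCases_right]
      split_ifs
      · exact hP.2 _
      · simp
  rw [resultant, Matrix.det_apply]
  refine natDegree_sum_le_of_forall_le _ _ fun σ _ => (natDegree_smul_le _ _).trans ?_
  refine (natDegree_prod_le _ _).trans ((Finset.sum_le_sum fun i _ => he _ _).trans ?_)
  simp

theorem few {p : ℚ[X]} (hp : p ≠ 0) {Z : Finset ℚ} (h : ∀ z ∈ Z, p.eval z = 0) :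
    Z.card ≤ p.natDegree :=
  card_le_degree_of_subset_roots fun z hz => (mem_roots hp).2 (h z hz)

end BEZx

theorem bez : S_BEZ := by
  intro d
  refine ⟨d * ((d + d) * d), fun P G hm hi hd hP hG T hT => ?_⟩
  have h0 : P.natDegree ≠ 0 := fun e => hi.not_isUnit (by
    rw [hm.natDegree_eq_zero.1 e]
    exact isUnit_one)
  obtain ⟨a, b, -, -, e⟩ := exists_mul_add_mul_eq_C_resultant P G le_rfl le_rfl (Or.inl h0)
  have h1 : (T.image Prod.fst).card ≤ (d + d) * d := by
    refine (BEZx.few (BEZx.res_ne hm hi hd) fun s hs => ?_).trans ((BEZx.res_deg hP hG _ _).trans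
      (Nat.mul_le_mul_right d (Nat.add_le_add hP.1 hG.1)))
    obtain ⟨p, hp, rfl⟩ := Finset.mem_image.1 hs
    rw [← evalEval_C p.1 p.2, ← e, evalEval_add, evalEval_mul, evalEval_mul, (hT p hp).1,
      (hT p hp).2, zero_mul, zero_mul, add_zero]
  refine (Finset.card_le_mul_card_image (f := Prod.fst) T d fun s _ => ?_).trans
    (Nat.mul_le_mul_left d h1)
  rw [← Finset.card_image_of_injOn (f := Prod.snd) fun p hp q hq e =>
    Prod.ext ((Finset.mem_filter.1 hp).2.trans (Finset.mem_filter.1 hq).2.symm) e]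
  refine (BEZx.few (hm.map (evalRingHom s)).ne_zero fun z hz => ?_).trans
    (natDegree_map_le.trans hP.1)
  obtain ⟨p, hp, rfl⟩ := Finset.mem_image.1 hz
  rw [map_evalRingHom_eval, ← (Finset.mem_filter.1 hp).2]
  exact (hT p (Finset.mem_filter.1 hp).1).1

end Pool.Agent.MP_47f5fb_nt.Ct
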