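import Pool.Agent.MP_47f5fb_nt.Ct.Spec

/-! Row C1: the points over a line. -/

set_option autoImplicit false

namespace Pool.Agent.MP_47f5fb_nt.Ct

open Polynomial Finset

namespace C1x

theorem Fb_eval (v : Fin 4 → ℚ[X]) (s : ℚ) : (Fb v).eval s = Fb fun i => (v i).eval s := by
  simp [Fb]

theorem indep {e f g o : Fin 4 → ℚ} (h : LinearIndependent ℚ ![e, f, g, o]) (r1 r0 l m : ℚ) :
    LinearIndependent ℚ ![r1 • e + f + l • g, r0 • e + m • g + o] := by
  rw [LinearIndependent.pair_iff]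
  intro s t hst
  have h1 := Fintype.linearIndependent_iff.1 h ![s * r1 + t * r0, s, s * l + t * m, t] (by
    rw [Fin.sum_univ_four, ← hst]
    ext i
    simp
    ring)
  exact ⟨h1 1, h1 3⟩

end C1x

theorem c1 (fib : S_FIB) (deg : S_DEG) (nl : S_NL) : S_C1 := by
  classical
  intro d J
  obtain ⟨K, hK⟩ := fib J
  refine ⟨K, fun ι e f g o P T b a c hF hX hP _ _ h1 hz hR => ?_⟩
  have hm : (P.coeff 0).natDegree ≤ 1 := by
    have := hP.2 0
    omega
  set l : ℚ := -(P.coeff 0).coeff 1 with hl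
  set m : ℚ := -(P.coeff 0).coeff 0 with hm'
  have hc : ∀ p ∈ T, c p = l * b p + m := by
    intro p hp
    have h2 := hz p hp
    rw [hP.1.eq_X_add_C h1, eq_X_add_C_of_natDegree_le_one hm] at h2
    simp only [evalEval_add, evalEval_X, evalEval_C, eval_add, eval_mul, eval_C, eval_X] at h2
    rw [hl, hm']
    linarith
  let V : Fin 4 → ℚ[X] := fun i => C (f i + l * g i) * X + C (m * g i + o i)
  have hV : ∀ i, (V i).natDegree ≤ 1 := fun i => natDegree_linear_le
  have hVe : ∀ i s, (V i).eval s = (f i + l * g i) * s + (m * g i + o i) := fun i s => by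
    simp only [V, eval_add, eval_mul, eval_C, eval_X]
  obtain ⟨G0, G1, G2, hG, d0, d1, d2, hGz⟩ := hR.2.2
  have hinj : Set.InjOn (fun p => (b p, a p)) T := by
    intro p hp q hq hpq
    have e1 : b p = b q := congrArg Prod.fst hpq
    have e2 : a p = a q := congrArg Prod.snd hpq
    refine hX.1 hp hq ?_
    simp only [hc p hp, hc q hq, e1, e2]
  rw [← card_image_of_injOn hinj]
  refine hK e V G0 G1 G2 _ hF.1 (fun i => (hV i).trans one_le_two) (fun ρ hρ => ?_) hG d0 d1 d2
    fun q hq => ?_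
  · have h2 := deg 1 e V ρ hF.1 hV hρ
    refine nl _ _ (fun s => ?_) (C1x.indep hF.2 (ρ.coeff 1) (ρ.coeff 0) l m)
    have h3 := congrArg (eval s) hρ
    rw [C1x.Fb_eval, eval_zero] at h3
    rw [← h3]
    congr 1
    ext i
    have h4 : ρ.eval s = ρ.coeff 1 * s + ρ.coeff 0 := by
      conv_lhs => rw [eq_X_add_C_of_natDegree_le_one h2]
      simp only [eval_add, eval_mul, eval_C, eval_X]
    simp only [eval_add, eval_mul, eval_C, hVe, h4, Pi.add_apply, Pi.smul_apply, smul_eq_mul]
    ring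
  · obtain ⟨p, hp, rfl⟩ := mem_image.1 hq
    refine ⟨?_, hGz p hp⟩
    rw [← hX.2 p hp]
    congr 1
    ext i
    simp only [hVe, hc p hp, Pi.add_apply, Pi.smul_apply, smul_eq_mul]
    ring

end Pool.Agent.MP_47f5fb_nt.Ct
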