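import Pool.Agent.MP_47f5fb_nt.Ct.Spec

/-! Curves whose plane projection is a conic. -/

set_option autoImplicit false

namespace Pool.Agent.MP_47f5fb_nt.Ct

open Polynomial Finset

namespace C2x

theorem sub {ι : Type} {e f g o : Fin 4 → ℚ} {T U : Finset ι} {b a c : ι → ℚ} (h : U ⊆ T)
    (hx : OnX e f g o T b a c) : OnX e f g o U b a c :=
  ⟨hx.1.mono (Finset.coe_subset.2 h), fun p hp => hx.2 p (h hp)⟩

theorem fr {e f g o : Fin 4 → ℚ} (u v : ℚ) (h : Fr e f g o) : Fr e (f - u • g) g (o - v • g) := by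
  refine ⟨h.1, Fintype.linearIndependent_iff.2 fun x hx => ?_⟩
  have k := Fintype.linearIndependent_iff.1 h.2 ![x 0, x 1, x 2 - x 1 * u - x 3 * v, x 3] (by
    rw [← hx]
    simp only [Fin.sum_univ_four, Matrix.cons_val_zero, Matrix.cons_val_one, Matrix.cons_val]
    module)
  have k0 := k 0
  have k1 := k 1
  have k2 := k 2
  have k3 := k 3
  simp only [Matrix.cons_val_zero, Matrix.cons_val_one, Matrix.cons_val] at k0 k1 k2 k3
  rw [k1, k3] at k2
  intro i
  fin_cases i
  · exact k0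
  · exact k1
  · simpa using k2
  · exact k3

theorem onx {ι : Type} {e f g o : Fin 4 → ℚ} {T : Finset ι} {b a c : ι → ℚ} (u v : ℚ)
    (hx : OnX e f g o T b a c) :
    OnX e (f - u • g) g (o - v • g) T b a fun p => c p + (u * b p + v) := by
  refine ⟨fun p hp q hq h => hx.1 hp hq ?_, fun p hp => ?_⟩
  · simp only [Prod.mk.injEq] at h ⊢
    obtain ⟨h1, h2, h3⟩ := h
    rw [h1] at h3
    exact ⟨h1, h2, by linarith⟩
  · rw [← hx.2 p hp]
    congr 1
    module

theorem shape {P : ℚ[X][X]} (ht : TD P) (h2 : P.natDegree = 2) : ∃ l1 l0 m2 m1 m0 : ℚ,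
    P = X ^ 2 + C (C l1 * X + C l0) * X + C (C m2 * X ^ 2 + C m1 * X + C m0) := by
  have a1 := ht.2 1
  have a0 := ht.2 0
  rw [h2] at a1 a0
  obtain ⟨l1, l0, hl⟩ := exists_eq_X_add_C_of_natDegree_le_one a1
  have hm := eq_quadratic_of_degree_le_two (degree_le_of_natDegree_le a0)
  have hP := eq_quadratic_of_degree_le_two (degree_le_of_natDegree_le h2.le)
  have c2 : P.coeff 2 = 1 := by
    rw [← h2]
    exact ht.1.coeff_natDegree
  rw [c2, C_1, one_mul] at hP
  exact ⟨l1, l0, _, _, _, by rw [← hl, ← hm]; exact hP⟩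

theorem nsq {l1 l0 m2 m1 m0 s0 s1 : ℚ} (hi : Irreducible
    (X ^ 2 + C (C l1 * X + C l0) * X + C (C m2 * X ^ 2 + C m1 * X + C m0) : ℚ[X][X]))
    (h0 : l0 ^ 2 / 4 - m0 = s0 ^ 2) (h1 : l0 * l1 / 2 - m1 = 2 * s0 * s1)
    (h2 : l1 ^ 2 / 4 - m2 = s1 ^ 2) : False := by
  obtain ⟨u, rfl⟩ : ∃ u, l1 = 2 * u := ⟨l1 / 2, by ring⟩
  obtain ⟨v, rfl⟩ : ∃ v, l0 = 2 * v := ⟨l0 / 2, by ring⟩
  obtain rfl : m0 = v ^ 2 - s0 ^ 2 := by linarith
  obtain rfl : m1 = 2 * (u * v) - 2 * (s0 * s1) := by linarith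
  obtain rfl : m2 = u ^ 2 - s1 ^ 2 := by linarith
  rcases hi.isUnit_or_isUnit (a := X + C (C (u - s1) * X + C (v - s0)))
    (b := X + C (C (u + s1) * X + C (v + s0))) (by
      simp only [map_add, map_sub, map_mul, map_pow, map_ofNat]
      ring) with h | h <;> exact not_isUnit_X_add_C _ h

end C2x

theorem c2 (par : S_PAR) (bez : S_BEZ) (tri : S_TRI) : S_C2 := by
  intro d J
  obtain ⟨K1, hK1⟩ := bez (d + J + 1)
  obtain ⟨K2, hK2⟩ := par (J + 1)
  refine ⟨6 * K1 + K2, fun ι e f g o P T b a c hf hx ht hi hd h2 hP hr => ?_⟩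
  have lin : ∀ (A0 A1 : ℚ[X]) (U : Finset ι), U ⊆ T → ¬ (A0 = 0 ∧ A1 = 0) →
      A0.natDegree ≤ J + 1 → A1.natDegree ≤ J + 1 →
      (∀ p ∈ U, A0.eval (b p) + A1.eval (b p) * c p = 0) → U.card ≤ 3 * K1 := by
    intro A0 A1 U hU hA a0 a1 hp
    refine (tri ι e f g o U b a c hf.1 (C2x.sub hU hx)).trans (Nat.mul_le_mul_left _ ?_)
    have g1 : (C A1 * X + C A0 : ℚ[X][X]).natDegree ≤ 1 := natDegree_linear_le
    refine hK1 P (C A1 * X + C A0) ht.1 hi (fun h => ?_)
      ⟨by omega, fun i => (ht.2 i).trans (by omega)⟩ ⟨by omega, fun i => ?_⟩ _ fun q hq => ?_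
    · have := natDegree_le_of_dvd h (fun z => hA
        ⟨by simpa using congrArg (coeff · 0) z, by simpa using congrArg (coeff · 1) z⟩)
      omega
    · rcases i with _ | _ | i
      · simpa using a0.trans (by omega)
      · simpa using a1.trans (by omega)
      · rw [coeff_eq_zero_of_natDegree_lt (by omega)]
        simp
    · obtain ⟨p, hp', rfl⟩ := mem_image.1 hq
      refine ⟨hP p (hU hp'), ?_⟩
      simp only [evalEval_add, evalEval_mul, evalEval_C, evalEval_X]
      linarith [hp p hp']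
  obtain ⟨B0, B1, B2, hB, b0, b1, b2, hb⟩ := hr.2.1
  by_cases z2 : B2 = 0
  · have := lin B0 B1 T Subset.rfl (fun h => hB ⟨h.1, h.2, z2⟩) (by omega) (by omega)
      fun p hp => by simpa [z2] using hb p hp
    omega
  have s1 := lin B2 0 (T.filter fun p => B2.eval (b p) = 0) (filter_subset _ _)
    (fun h => z2 h.1) (by omega) (by simp) fun p hp => by simpa using (mem_filter.1 hp).2
  have s2 := card_filter_add_card_filter_not (s := T) fun p => B2.eval (b p) = 0
  set U := T.filter fun p => ¬ B2.eval (b p) = 0 with hU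
  have uT : U ⊆ T := filter_subset _ _
  suffices U.card ≤ 3 * K1 + K2 by omega
  obtain ⟨l1, l0, m2, m1, m0, rfl⟩ := C2x.shape ht h2
  have q : ∀ p ∈ U, (c p + (l1 / 2 * b p + l0 / 2)) ^ 2 =
      (l0 ^ 2 / 4 - m0) + (l0 * l1 / 2 - m1) * b p + (l1 ^ 2 / 4 - m2) * b p ^ 2 := by
    intro p hp
    have := hP p (uT hp)
    simp only [evalEval_add, evalEval_mul, evalEval_pow, evalEval_C, evalEval_X, eval_add,
      eval_mul, eval_pow, eval_C, eval_X] at this
    linarith
  have ns := fun s0 s1 => C2x.nsq (s0 := s0) (s1 := s1) hi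
  generalize l0 ^ 2 / 4 - m0 = d0 at q ns
  generalize l0 * l1 / 2 - m1 = d1 at q ns
  generalize l1 ^ 2 / 4 - m2 = d2 at q ns
  by_cases hΔ : d1 ^ 2 - 4 * d0 * d2 = 0
  · by_cases z : d2 = 0
    · have z1 : d1 = 0 := by simpa [z] using hΔ
      have : U = ∅ := eq_empty_of_forall_notMem fun p hp =>
        ns (c p + (l1 / 2 * b p + l0 / 2)) 0 (by rw [q p hp, z, z1]; ring) (by rw [z1]; ring)
          (by rw [z]; ring)
      simp [this]
    · have := lin (C (2 * d2) * X + C d1) 0 U uT (fun h => z (by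
        simpa using congrArg (coeff · 1) h.1)) (natDegree_linear_le.trans (by omega)) (by simp)
        fun p hp => by
          simp only [eval_add, eval_mul, eval_C, eval_X, eval_zero, zero_mul, add_zero]
          by_contra w
          have r := q p hp
          generalize c p + (l1 / 2 * b p + l0 / 2) = y at r
          have w2 : (2 * d2 * b p + d1) ^ 2 = 4 * d2 * y ^ 2 := by
            rw [r]
            linarith
          refine ns (d1 * y / (2 * d2 * b p + d1)) (2 * d2 * y / (2 * d2 * b p + d1)) ?_ ?_ ?_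
          · rw [div_pow, eq_div_iff (pow_ne_zero 2 w), w2]
            linear_combination (-y ^ 2) * hΔ
          · rw [mul_assoc, div_mul_div_comm, ← sq, ← mul_div_assoc, eq_div_iff (pow_ne_zero 2 w),
              w2]
            ring
          · rw [div_pow, eq_div_iff (pow_ne_zero 2 w), w2]
            ring
      omega
  · have := hK2 ι e _ g _ d0 d1 d2 (B0 - B1 * (C (l1 / 2) * X + C (l0 / 2))) B1 B2 U b a _
      (C2x.fr (l1 / 2) (l0 / 2) hf) (C2x.onx (l1 / 2) (l0 / 2) (C2x.sub uT hx)) hΔ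
      ((natDegree_sub_le _ _).trans (max_le (by omega)
        (natDegree_mul_le.trans (add_le_add b1 natDegree_linear_le)))) (by omega) (by omega)
      fun p hp => ⟨q p hp, (mem_filter.1 hp).2, by
        simp only [eval_sub, eval_add, eval_mul, eval_C, eval_X]
        linarith [hb p (uT hp)]⟩
    omega

end Pool.Agent.MP_47f5fb_nt.Ct
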