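import Pool.Agent.MP_47f5fb_nt.Ct.Spec

/-! Curves of degree at least three. -/

namespace Pool.Agent.MP_47f5fb_nt.Ct

open Polynomial Finset

theorem c3 (bez : S_BEZ) (tri : S_TRI) : S_C3 := by
  intro d J
  obtain ⟨K, hK⟩ := bez (max d (max J 2))
  refine ⟨3 * K, ?_⟩
  intro ι e f g o P T b a c hF hX hT hI hd h3 hP hR
  obtain ⟨A0, A1, A2, hne, d0, d1, d2, hA⟩ := hR.1
  set G : ℚ[X][X] := C A2 * X ^ 2 + C A1 * X + C A0 with hG
  have c0 : G.coeff 0 = A0 := by simp [hG]
  have c1 : G.coeff 1 = A1 := by simp [hG, coeff_X_pow, coeff_C]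
  have c2 : G.coeff 2 = A2 := by simp [hG]
  have g2 : G.natDegree ≤ 2 := natDegree_quadratic_le
  have g0 : G ≠ 0 := fun q => hne ⟨by rw [← c0, q, coeff_zero], by rw [← c1, q, coeff_zero],
    by rw [← c2, q, coeff_zero]⟩
  refine (tri ι e f g o T b a c hF.1 hX).trans (Nat.mul_le_mul_left 3 (hK P G hT.1 hI
    (fun q => ?_) ⟨by omega, fun i => ?_⟩ ⟨by omega, fun i => ?_⟩ _ fun p hp => ?_))
  · have := natDegree_le_of_dvd q g0
    have : 3 ≤ P.natDegree := h3
    omega
  · have := hT.2 i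
    omega
  · rcases i with _ | _ | _ | i
    · rw [c0]; omega
    · rw [c1]; omega
    · rw [c2]; omega
    · rw [coeff_eq_zero_of_natDegree_lt (by omega)]
      simp
  · obtain ⟨x, hx, rfl⟩ := mem_image.1 hp
    refine ⟨hP x hx, ?_⟩
    have := hA x hx
    simp only [hG, evalEval_add, evalEval_mul, evalEval_pow, evalEval_C, evalEval_X]
    linear_combination this

end Pool.Agent.MP_47f5fb_nt.Ct
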