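import Pool.Agent.MP_47f5fb_nt.Ct.Spec

/-! One residue class: three relations. -/

set_option autoImplicit false

namespace Pool.Agent.MP_47f5fb_nt.Ct

open Polynomial Finset

namespace CL1x

theorem sq_dvd {m x y : ℤ} (h : m ∣ x - y) : m ∣ x ^ 2 - y ^ 2 :=
  h.trans ⟨x + y, by ring⟩

theorem sq_le {x : ℤ} {Y : ℝ} (h : |(x : ℝ)| ≤ Y) : |((x ^ 2 : ℤ) : ℝ)| ≤ Y ^ 2 := by
  rw [Int.cast_pow, abs_pow]
  exact pow_le_pow_left₀ (abs_nonneg _) h 2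

end CL1x

theorem cl1 (hen : S_HEN) (rel : S_REL) : S_CL1 := by
  intro η η0
  obtain ⟨J, κ, J1, κ1, h⟩ := rel (η / 2) (half_pos η0)
  refine ⟨J, κ, J1, κ1, fun ι U b a c P0 P1 q r W Y W1 Y1 r1 hq hb hP hc => ?_⟩
  rcases U.eq_empty_or_nonempty with rfl | ⟨p0, hp0⟩
  · have e : ∀ t f g : ι → ℚ, Rl J ∅ t f g := fun t f g =>
      ⟨1, 0, 0, fun k => one_ne_zero k.1, by simp, by simp, by simp,
        fun p hp => absurd hp (Finset.notMem_empty p)⟩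
    exact ⟨e _ _ _, e _ _ _, e _ _ _⟩
  have YY : Y ≤ Y ^ 2 := by nlinarith
  have hl : W ^ (1 / 3 : ℝ) * (κ * Y ^ 2) ^ (η / 2) < ((q ^ r : ℕ) : ℝ) := by
    rw [Nat.cast_pow]
    refine lt_of_le_of_lt (mul_le_mul_of_nonneg_left ?_ (by positivity)) hq
    have a1 : κ * Y ^ 2 ≤ (κ * Y) ^ (2 : ℝ) := by
      rw [Real.rpow_two]
      nlinarith [mul_nonneg (mul_nonneg (sub_nonneg.2 κ1) (zero_le_one.trans κ1)) (sq_nonneg Y)]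
    refine (Real.rpow_le_rpow (by positivity) a1 (half_pos η0).le).trans (le_of_eq ?_)
    rw [← Real.rpow_mul (by positivity)]
    congr 1
    ring
  have hd : ∀ p ∈ U, ∀ p' ∈ U, ((q ^ r : ℕ) : ℤ) ∣ b p - b p' := fun p hp p' hp' => by
    rw [Nat.cast_pow]
    exact (hc p hp p' hp').1
  have h1 : ∀ p ∈ U, (q : ℤ) ∣ b p - b p0 := fun p hp =>
    (dvd_pow_self _ (by omega)).trans (hc p hp p0 hp0).1
  have H : ∀ K : ℕ, ∃ ζ ξ : ℤ[X], ∀ p ∈ U, ((q ^ r : ℕ) : ℤ) ^ K ∣ c p - ζ.eval (b p) ∧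
      ((q ^ r : ℕ) : ℤ) ^ K ∣ a p - ξ.eval (b p) := fun K => by
    obtain ⟨ζ, hζ⟩ := hen P0 q (b p0) (c p0) (hP p0 hp0).2.2.1 (r * K)
    obtain ⟨ξ, hξ⟩ := hen P1 q (b p0) (a p0) (hP p0 hp0).2.2.2 (r * K)
    refine ⟨ζ, ξ, fun p hp => ?_⟩
    rw [Nat.cast_pow, ← pow_mul]
    exact ⟨hζ _ _ (h1 p hp) (hc p hp p0 hp0).2.2 (hP p hp).1,
      hξ _ _ (h1 p hp) (hc p hp p0 hp0).2.1 (hP p hp).2.1⟩
  have Y2 : 1 ≤ Y ^ 2 := Y1.trans YY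
  refine ⟨?_, ?_, ?_⟩
  · have := h ι U b c (fun p => c p ^ 2) (q ^ r) W (Y ^ 2) W1 Y2 hl
      (fun p hp => ⟨(hb p hp).1, (hb p hp).2.2.trans YY, CL1x.sq_le (hb p hp).2.2⟩) hd fun K => by
        obtain ⟨ζ, ξ, k⟩ := H K
        exact ⟨ζ, ζ ^ 2, fun p hp => ⟨(k p hp).1, by rw [eval_pow]; exact CL1x.sq_dvd (k p hp).1⟩⟩
    simpa only [Int.cast_pow] using this
  · exact h ι U b c a (q ^ r) W (Y ^ 2) W1 Y2 hl
      (fun p hp => ⟨(hb p hp).1, (hb p hp).2.2.trans YY, (hb p hp).2.1.trans YY⟩) hd H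
  · have := h ι U b a (fun p => a p ^ 2) (q ^ r) W (Y ^ 2) W1 Y2 hl
      (fun p hp => ⟨(hb p hp).1, (hb p hp).2.1.trans YY, CL1x.sq_le (hb p hp).2.1⟩) hd fun K => by
        obtain ⟨ζ, ξ, k⟩ := H K
        exact ⟨ξ, ξ ^ 2, fun p hp => ⟨(k p hp).2, by rw [eval_pow]; exact CL1x.sq_dvd (k p hp).2⟩⟩
    simpa only [Int.cast_pow] using this

end Pool.Agent.MP_47f5fb_nt.Ct
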