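import Pool.Agent.MP_47f5fb_nt.Ct.Spec

/-! Row CLS: the points split into few classes, each with three auxiliary relations. -/

set_option autoImplicit false

namespace Pool.Agent.MP_47f5fb_nt.Ct

open Polynomial Finset

namespace CLSx

theorem fib {ι κ : Type} [DecidableEq κ] (T : Finset ι) (f : ι → κ) (C : Finset κ) {K : ℝ}
    (hf : ∀ p ∈ T, f p ∈ C) (h : ∀ y, ((T.filter fun p => f p = y).card : ℝ) ≤ K) :
    (T.card : ℝ) ≤ C.card * K := by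
  rw [card_eq_sum_card_fiberwise hf, Nat.cast_sum]
  exact (sum_le_card_nsmul _ _ _ fun y _ => h y).trans_eq (nsmul_eq_mul _ _)

theorem rl {ι : Type} {J : ℕ} (hJ : 1 ≤ J) {U : Finset ι} {t : ι → ℚ} (f g : ι → ℚ) {y : ℚ}
    (h : ∀ p ∈ U, t p = y) : Rl J U t f g :=
  ⟨X - C y, 0, 0, fun k => X_sub_C_ne_zero y k.1, by rwa [natDegree_X_sub_C], by simp, by simp,
    fun p hp => by simp [h p hp]⟩

theorem expo {L : ℝ} (hL : 1 ≤ L) (q : ℕ) (hq : 2 ≤ q) :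
    ∃ r : ℕ, 1 ≤ r ∧ L < (q : ℝ) ^ r ∧ (q : ℝ) ^ r ≤ q * L := by
  have h : (1 : ℝ) < q := by exact_mod_cast hq
  obtain ⟨n, h1, h2⟩ := exists_nat_pow_near hL h
  exact ⟨n + 1, by omega, h2, by rw [pow_succ']; gcongr⟩

theorem md (x : ℤ) {m M : ℕ} (h0 : 0 < m) (h : m ≤ M) : x % (m : ℤ) ∈ Ico (0 : ℤ) M :=
  mem_Ico.2 ⟨Int.emod_nonneg _ (by omega), (Int.emod_lt_of_pos _ (by omega)).trans_le (by omega)⟩

theorem dv {x y m z : ℤ} (h : x % m = z) (h' : y % m = z) : m ∣ x - y :=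
  Int.ModEq.dvd (h'.trans h.symm)

end CLSx

open CLSx in
theorem cls (ht : S_HT) (smq : S_SMQ) (cl1 : S_CL1) : S_CLS := by
  classical
  intro d η hη
  obtain ⟨K0, k0, ht⟩ := ht d
  have k0' : (1 : ℝ) ≤ K0 := by exact_mod_cast k0
  obtain ⟨J, κ, hJ, hκ, cl1⟩ := cl1 (η / 2) (by positivity)
  obtain ⟨K2, k2, smq⟩ := smq (η / (16 * K0)) (by positivity)
  obtain ⟨Q, hQ⟩ : ∃ Q : ℝ, Q = K2 * ((K0 : ℝ) ^ 2) ^ (η / (16 * K0)) := ⟨_, rfl⟩
  have Q1 : 1 ≤ Q := by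
    rw [hQ]
    exact one_le_mul_of_one_le_of_one_le k2 (Real.one_le_rpow (one_le_pow₀ k0') (by positivity))
  refine ⟨J, 2 * d + 32 * (d + 1) ^ 2 * Q ^ 4 * κ ^ (η / 2), by positivity, ?_⟩
  intro ι T b a c W Y K1 R0 R1 hW hWY hK1 hb r0 r1 d0 d1 hR hU
  have hY : 1 ≤ Y := hW.trans hWY
  obtain ⟨S0, Z0, z0, h0⟩ := ht ι T b c Y R0 hY
    (fun p hp => ⟨(hb p hp).1.trans hWY, (hb p hp).2.2⟩) r0 d0 fun p hp => (hR p hp).1
  obtain ⟨S1, Z1, z1, h1⟩ := ht ι T b a Y R1 hY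
    (fun p hp => ⟨(hb p hp).1.trans hWY, (hb p hp).2.1⟩) r1 d1 fun p hp => (hR p hp).2
  have w1 : 1 ≤ W ^ (1 / 3 : ℝ) := Real.one_le_rpow hW (by norm_num)
  have y1 : ∀ e : ℝ, 0 ≤ e → 1 ≤ Y ^ e := fun e he => Real.one_le_rpow hY he
  obtain ⟨L, hL⟩ : ∃ L : ℝ, L = W ^ (1 / 3 : ℝ) * (κ * Y) ^ (η / 2) := ⟨_, rfl⟩
  have L1 : 1 ≤ L := by
    rw [hL]
    exact one_le_mul_of_one_le_of_one_le w1
      (Real.one_le_rpow (one_le_mul_of_one_le_of_one_le hκ hY) (by positivity))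
  choose! rr r1 r2 r3 using expo L1
  obtain ⟨m, hm⟩ : ∃ m : ℝ, m = Q * Y ^ (η / 8) := ⟨_, rfl⟩
  have m1 : 1 ≤ m := by
    rw [hm]
    exact one_le_mul_of_one_le_of_one_le Q1 (y1 _ (by positivity))
  have c1 : ((T.filter fun p => b p ∈ Z0 ∪ Z1).card : ℝ) ≤ 2 * d * K1 := by
    refine (fib _ b (Z0 ∪ Z1) (K := K1) (fun p hp => (mem_filter.1 hp).2) fun y => ?_).trans ?_
    · have e : ∀ p ∈ (T.filter fun p => b p ∈ Z0 ∪ Z1).filter fun p => b p = y,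
          (b p : ℚ) = y := fun p hp => by rw [(mem_filter.1 hp).2]
      exact hU _ ((filter_subset _ _).trans (filter_subset _ _))
        ⟨rl hJ _ _ e, rl hJ _ _ e, rl hJ _ _ e⟩
    · refine mul_le_mul_of_nonneg_right ?_ hK1
      have := card_union_le Z0 Z1
      exact_mod_cast (by omega : (Z0 ∪ Z1).card ≤ 2 * d)
  have ex : ∀ p ∈ T.filter fun p => ¬ b p ∈ Z0 ∪ Z1, ∃ k k' q : ℕ, (k ≤ d ∧ k' ≤ d ∧ 2 ≤ q ∧
      (q : ℝ) ≤ m) ∧ (derivative^[k] S0).evalEval (b p) (c p) = 0 ∧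
      (derivative^[k'] S1).evalEval (b p) (a p) = 0 ∧
      IsCoprime ((derivative (derivative^[k] S0)).evalEval (b p) (c p)) (q : ℤ) ∧
      IsCoprime ((derivative (derivative^[k'] S1)).evalEval (b p) (a p)) (q : ℤ) := by
    intro p hp
    obtain ⟨hp, hz⟩ := mem_filter.1 hp
    obtain ⟨k, a1, a2, a3, a4⟩ := (h0 p hp).resolve_left fun e => hz (mem_union_left _ e)
    obtain ⟨k', b1, b2, b3, b4⟩ := (h1 p hp).resolve_left fun e => hz (mem_union_right _ e)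
    obtain ⟨q, q1, q2, q3⟩ := smq _ (mul_ne_zero a3 b3)
    refine ⟨k, k', q, ⟨a1, b1, q1, q3.trans ?_⟩, a2, b2, q2.of_mul_left_left, q2.of_mul_left_right⟩
    have e : ((K0 : ℝ) * Y ^ K0 * (K0 * Y ^ K0)) ^ (η / (16 * K0)) =
        ((K0 : ℝ) ^ 2) ^ (η / (16 * K0)) * Y ^ (η / 8) := by
      rw [show (K0 : ℝ) * Y ^ K0 * (K0 * Y ^ K0) = K0 ^ 2 * Y ^ (2 * K0) by ring,
        Real.mul_rpow (by positivity) (by positivity), ← Real.rpow_natCast Y,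
        ← Real.rpow_mul (by positivity)]
      congr 2
      push_cast
      field_simp
      norm_num
    rw [hm, hQ, mul_assoc, ← e, Int.cast_mul, abs_mul]
    gcongr
  choose! k k' q e1 e2 using ex
  have M1 : ((⌊m⌋₊ + 1 : ℕ) : ℝ) ≤ 2 * m := by
    push_cast
    linarith [Nat.floor_le (zero_le_one.trans m1)]
  have M2 : ((⌈L⌉₊ : ℕ) : ℝ) ≤ 2 * L := by
    linarith [Nat.ceil_lt_add_one (zero_le_one.trans L1)]
  have c2 : ((T.filter fun p => ¬ b p ∈ Z0 ∪ Z1).card : ℝ) ≤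
      (d + 1) ^ 2 * (2 * m) ^ 4 * (2 * L) * K1 := by
    refine (fib _ (fun p => (k p, k' p, q p, b p % ((q p ^ rr (q p) : ℕ) : ℤ), a p % q p,
      c p % q p)) (range (d + 1) ×ˢ range (d + 1) ×ˢ range (⌊m⌋₊ + 1) ×ˢ
        Ico (0 : ℤ) ((⌊m⌋₊ + 1) * ⌈L⌉₊ : ℕ) ×ˢ Ico (0 : ℤ) (⌊m⌋₊ + 1 : ℕ) ×ˢ
        Ico (0 : ℤ) (⌊m⌋₊ + 1 : ℕ)) (K := K1) (fun p hp => ?_) fun y => ?_).trans ?_
    · obtain ⟨a1, a2, a3, a4⟩ := e1 p hp
      have a5 : q p ≤ ⌊m⌋₊ := Nat.le_floor a4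
      have a6 : q p ^ rr (q p) ≤ (⌊m⌋₊ + 1) * ⌈L⌉₊ := by
        refine le_trans ?_ (Nat.mul_le_mul_right _ (Nat.le_succ_of_le a5))
        have a7 := (r3 _ a3).trans
          (mul_le_mul_of_nonneg_left (Nat.le_ceil L) (Nat.cast_nonneg (q p)))
        exact_mod_cast a7
      simp only [mem_product, mem_range]
      exact ⟨by omega, by omega, by omega, md _ (by positivity) a6, md _ (by omega) (by omega),
        md _ (by omega) (by omega)⟩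
    · obtain ⟨y1, y2, y3, y4, y5, y6⟩ := y
      generalize hV : ((T.filter fun p => ¬ b p ∈ Z0 ∪ Z1).filter fun p =>
        (k p, k' p, q p, b p % ((q p ^ rr (q p) : ℕ) : ℤ), a p % q p, c p % q p) =
          (y1, y2, y3, y4, y5, y6)) = V
      have hv : ∀ p ∈ V, p ∈ (T.filter fun p => ¬ b p ∈ Z0 ∪ Z1) ∧ k p = y1 ∧ k' p = y2 ∧
          q p = y3 ∧ b p % (y3 : ℤ) ^ rr y3 = y4 ∧ a p % y3 = y5 ∧ c p % y3 = y6 := by
        intro p hp
        rw [← hV, mem_filter] at hp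
        obtain ⟨a0, a1⟩ := hp
        simp only [Prod.mk.injEq] at a1
        obtain ⟨rfl, rfl, rfl, rfl, rfl, rfl⟩ := a1
        exact ⟨a0, rfl, rfl, rfl, by rw [Nat.cast_pow], rfl, rfl⟩
      rcases V.eq_empty_or_nonempty with rfl | ⟨p0, hp0⟩
      · simpa using hK1
      have q2 : 2 ≤ y3 := (hv p0 hp0).2.2.2.1 ▸ (e1 p0 (hv p0 hp0).1).2.2.1
      have sub : V ⊆ T := fun p hp => (mem_filter.1 (hv p hp).1).1
      refine hU V sub (cl1 ι V b a c (derivative^[y1] S0) (derivative^[y2] S1) y3 (rr y3) W Y hW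
        hY (r1 _ q2) (hL ▸ r2 _ q2) (fun p hp => hb p (sub hp)) (fun p hp => ?_)
        fun p hp p' hp' => ⟨dv (hv p hp).2.2.2.2.1 (hv p' hp').2.2.2.2.1,
          dv (hv p hp).2.2.2.2.2.1 (hv p' hp').2.2.2.2.2.1,
          dv (hv p hp).2.2.2.2.2.2 (hv p' hp').2.2.2.2.2.2⟩)
      obtain ⟨a0, rfl, rfl, rfl, -⟩ := hv p hp
      exact e2 p a0
    · refine mul_le_mul_of_nonneg_right ?_ hK1
      simp only [card_product, card_range, Int.card_Ico, sub_zero, Int.toNat_natCast]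
      generalize ⌊m⌋₊ + 1 = M at M1
      push_cast
      calc _ = ((d : ℝ) + 1) ^ 2 * (M : ℝ) ^ 4 * ⌈L⌉₊ := by ring
        _ ≤ _ := by gcongr
  have e : (d + 1) ^ 2 * (2 * m) ^ 4 * (2 * L) * K1 =
      32 * (d + 1) ^ 2 * Q ^ 4 * κ ^ (η / 2) * K1 * W ^ (1 / 3 : ℝ) * Y ^ η := by
    have e3 : Y ^ η = (Y ^ (η / 8)) ^ 4 * Y ^ (η / 2) := by
      rw [← Real.rpow_natCast, ← Real.rpow_mul (by positivity), ← Real.rpow_add (by positivity)]
      congr 1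
      push_cast
      ring
    rw [hm, hL, Real.mul_rpow (by positivity) (by positivity), e3]
    ring
  have c3 : 2 * d * K1 ≤ 2 * d * K1 * W ^ (1 / 3 : ℝ) * Y ^ η := by
    rw [mul_assoc (2 * d * K1)]
    exact le_mul_of_one_le_right (by positivity) (one_le_mul_of_one_le_of_one_le w1 (y1 _ hη.le))
  rw [← card_filter_add_card_filter_not (s := T) fun p => b p ∈ Z0 ∪ Z1, Nat.cast_add]
  linarith

end Pool.Agent.MP_47f5fb_nt.Ct
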