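import Pool.Agent.MP_47f5fb_nt.Ct.Spec

set_option autoImplicit false

namespace Pool.Agent.MP_47f5fb_nt.Ct

open Polynomial Finset

namespace CONx

/-- the symmetric trilinear form of `Fb` -/
def T (x y z : Fin 4 → ℚ) : ℚ :=
  x 0 * y 0 * z 0 + x 1 * y 1 * z 1 + x 2 * y 2 * z 2 -
    (x 0 * y 1 * z 2 + x 0 * y 2 * z 1 + x 1 * y 0 * z 2 + x 1 * y 2 * z 0 + x 2 * y 0 * z 1 +
      x 2 * y 1 * z 0) / 6 +
    ((x 0 + x 1 + x 2) * y 3 * z 3 + (y 0 + y 1 + y 2) * x 3 * z 3 +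
      (z 0 + z 1 + z 2) * x 3 * y 3) / 3 - x 3 * y 3 * z 3

theorem expa (u v w : Fin 4 → ℚ) (a b c : ℚ) : Fb (a • u + b • v + c • w) =
    a ^ 3 * T u u u + 3 * a ^ 2 * b * T u u v + 3 * a ^ 2 * c * T u u w +
      3 * a * b ^ 2 * T u v v + 6 * a * b * c * T u v w + 3 * a * c ^ 2 * T u w w +
      b ^ 3 * T v v v + 3 * b ^ 2 * c * T v v w + 3 * b * c ^ 2 * T v w w + c ^ 3 * T w w w := by
  simp only [Fb, T, Pi.add_apply, Pi.smul_apply, smul_eq_mul]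
  ring

theorem coef (c0 c1 c2 c3 c4 c5 c6 : ℚ)
    (h : ∀ s : ℚ, c0 + c1 * s + c2 * s ^ 2 + c3 * s ^ 3 + c4 * s ^ 4 + c5 * s ^ 5 + c6 * s ^ 6 = 0) :
    c0 = 0 ∧ c1 = 0 ∧ c2 = 0 ∧ c3 = 0 ∧ c4 = 0 ∧ c5 = 0 ∧ c6 = 0 := by
  have h0 := h 0
  have h1 := h 1
  have h2 := h (-1)
  have h3 := h 2
  have h4 := h (-2)
  have h5 := h 3
  have h6 := h (-3)
  norm_num at h0 h1 h2 h3 h4 h5 h6
  refine ⟨?_, ?_, ?_, ?_, ?_, ?_, ?_⟩ <;> linarith

theorem ker2 (α β γ : ℚ) : ∃ p0 p1 p2 q0 q1 q2 : ℚ, α * p0 + β * p1 + γ * p2 = 0 ∧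
    α * q0 + β * q1 + γ * q2 = 0 ∧ ∀ s t : ℚ, s * p0 + t * q0 = 0 → s * p1 + t * q1 = 0 →
      s * p2 + t * q2 = 0 → s = 0 ∧ t = 0 := by
  by_cases ha : α = 0
  · by_cases hb : β = 0
    · refine ⟨1, 0, 0, 0, 1, 0, by simp [ha], by simp [hb], fun s t h1 h2 _ => ?_⟩
      constructor <;> linarith
    · refine ⟨1, 0, 0, 0, -γ / β, 1, by simp [ha], ?_, fun s t h1 _ h3 => ?_⟩
      · field_simp
        ring
      · constructor <;> linarith
  · refine ⟨-β / α, 1, 0, -γ / α, 0, 1, ?_, ?_, fun s t _ h2 h3 => ?_⟩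
    · field_simp
      ring
    · field_simp
      ring
    · constructor <;> linarith

end CONx

open CONx in
theorem con (nl : S_NL) : S_CON := by
  intro u v w h hli
  obtain ⟨e0, e1, e2, e3, e4, e5, e6⟩ := coef (T u u u) (3 * T u u v) (3 * T u u w + 3 * T u v v)
    (6 * T u v w + T v v v) (3 * T u w w + 3 * T v v w) (3 * T v w w) (T w w w) fun s => by
      have h1 := h s
      have h2 := expa u v w 1 s (s ^ 2)
      rw [one_smul, h1] at h2
      linear_combination -h2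
  have key : ∀ a b c : ℚ, Fb (a • u + b • v + c • w) =
      (a * c - b ^ 2) * (3 * T u u w * a + 6 * T u v w * b + 3 * T u w w * c) := by
    intro a b c
    rw [expa]
    linear_combination a ^ 3 * e0 + a ^ 2 * b * e1 + a * b ^ 2 * e2 + b ^ 3 * e3 +
      b ^ 2 * c * e4 + b * c ^ 2 * e5 + c ^ 3 * e6
  obtain ⟨p0, p1, p2, q0, q1, q2, hp, hq, hi⟩ :=
    ker2 (3 * T u u w) (6 * T u v w) (3 * T u w w)
  have comb : ∀ s t : ℚ, s • (p0 • u + p1 • v + p2 • w) + t • (q0 • u + q1 • v + q2 • w) =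
      (s * p0 + t * q0) • u + (s * p1 + t * q1) • v + (s * p2 + t * q2) • w := by
    intro s t
    funext i
    simp only [Pi.add_apply, Pi.smul_apply, smul_eq_mul]
    ring
  refine nl (p0 • u + p1 • v + p2 • w) (q0 • u + q1 • v + q2 • w) (fun s => ?_) ?_
  · have h1 := comb s 1
    rw [one_smul] at h1
    rw [h1, key]
    have h2 : 3 * T u u w * (s * p0 + 1 * q0) + 6 * T u v w * (s * p1 + 1 * q1) +
        3 * T u w w * (s * p2 + 1 * q2) = 0 := by linear_combination s * hp + hq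
    rw [h2, mul_zero]
  · rw [LinearIndependent.pair_iff]
    intro s t hst
    rw [comb] at hst
    have h1 := Fintype.linearIndependent_iff.1 hli
      ![s * p0 + t * q0, s * p1 + t * q1, s * p2 + t * q2] (by
        rw [Fin.sum_univ_three]
        exact hst)
    exact hi s t (h1 0) (h1 1) (h1 2)

end Pool.Agent.MP_47f5fb_nt.Ct
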