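import Pool.Agent.MP_47f5fb_nt.Ct.Spec

set_option autoImplicit false

namespace Pool.Agent.MP_47f5fb_nt.Ct

open Polynomial Finset

namespace CURx

theorem bd_td {P : ℚ[X][X]} {d : ℕ} (h : TD P) (hd : P.natDegree ≤ d) : Bd d P :=
  ⟨hd, fun i => (h.2 i).trans ((Nat.sub_le _ _).trans hd)⟩

theorem bd_mono {P : ℚ[X][X]} {d d' : ℕ} (h : Bd d P) (hd : d ≤ d') : Bd d' P :=
  ⟨h.1.trans hd, fun i => (h.2 i).trans hd⟩

theorem frame {p q p' q' j : ℚ} (hq : q ≠ 0) (hq' : q' ≠ 0) :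
    LinearIndependent ℚ ![(![1, p / q, p' / q', 0] : Fin 4 → ℚ), ![0, 1 / q, 0, 0],
      ![0, j / q, 1 / q', 0], ![0, 0, 0, 1]] := by
  rw [Fintype.linearIndependent_iff]
  intro g hg
  have h0 := congrFun hg 0
  have h1 := congrFun hg 1
  have h2 := congrFun hg 2
  have h3 := congrFun hg 3
  simp [Fin.sum_univ_four] at h0 h1 h2 h3
  have g2 : g 2 = 0 := by simpa [h0, hq'] using h2
  have g1 : g 1 = 0 := by simpa [h0, g2, hq] using h1
  intro i
  fin_cases i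
  exacts [h0, g1, g2, h3]

end CURx

open CURx

theorem cur (nrm : S_NRM) (hil : S_HIL) (mn : S_MON) (fac : S_FAC) (cls : S_CLS) (c1 : S_C1)
    (c2 : S_C2) (c3 : S_C3) : S_CUR := by
  classical
  intro D η hη
  obtain ⟨d, hd⟩ := nrm D
  obtain ⟨M, hM⟩ := hil d
  obtain ⟨J, K, hK0, hK⟩ := cls (2 * M) η hη
  obtain ⟨K1, h1⟩ := c1 (2 * M) J
  obtain ⟨K2, h2⟩ := c2 (2 * M) J
  obtain ⟨K3, h3⟩ := c3 (2 * M) J
  set A : ℝ := 1 + 2 * M with hA
  have hA1 : 1 ≤ A := le_add_of_nonneg_right (by positivity)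
  refine ⟨2 * M * (K * (K1 + K2 + K3 : ℕ) * A ^ (1 / 3 : ℝ) * A ^ η), by positivity,
    fun S W Y p q p' q' hW hWY hq hq' hF hS hG => ?_⟩
  have hY : 1 ≤ Y := hW.trans hWY
  have hq0 : (q : ℚ) ≠ 0 := by exact_mod_cast hq
  have hq1 : (q' : ℚ) ≠ 0 := by exact_mod_cast hq'
  obtain ⟨R, r0, r1, r2⟩ := hd S (fun P hP => (hS P hP).1) hG
  obtain ⟨R0, a0, a1, a2⟩ := hM S R (fun P hP => (hS P hP).1) r0 r1 r2 ![-p, q, 0] ![-p', 0, q']
  obtain ⟨j, P0, hj, t0, t1, t2⟩ := mn M R0 a0 a1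
  obtain ⟨R1, b0, b1, b2⟩ := hM S R (fun P hP => (hS P hP).1) r0 r1 r2
    ![-p + j * p', q, -(j * q')] ![1, 0, 0]
  obtain ⟨L, l0, l1, l2⟩ := fac P0 t0
  let c : Z3 → ℤ := fun P => q' * P.2.2 - p' * P.1
  let b : Z3 → ℤ := fun P => q * P.2.1 - p * P.1 - j * c P
  let a : Z3 → ℤ := fun P => P.1
  have hz : ∀ P ∈ S, P0.evalEval (b P : ℚ) (c P : ℚ) = 0 := fun P hP => by
    have := t2 _ _ (a2 P hP)
    convert this using 2
    · simp only [b, c, lf]
      push_cast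
      simp
      ring
    · simp only [c, lf]
      push_cast
      simp
      ring
  have hz1 : ∀ P ∈ S, R1.evalEval (b P : ℚ) (a P : ℚ) = 0 := fun P hP => by
    have := b2 P hP
    convert this using 2
    · simp only [b, c, lf]
      push_cast
      simp
      ring
    · simp [a, lf]
  have hX : ∀ U : Finset Z3, U ⊆ S → OnX ![1, (p : ℚ) / q, (p' : ℚ) / q', 0] ![0, 1 / q, 0, 0]
      ![0, (j : ℚ) / q, 1 / q', 0] ![0, 0, 0, 1] U (fun P => (b P : ℚ)) (fun P => (a P : ℚ))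
      (fun P => (c P : ℚ)) := fun U hU => by
    refine ⟨fun P _ P' _ h => ?_, fun P hP => ?_⟩
    · simp only [Prod.mk.injEq, Int.cast_inj] at h
      obtain ⟨e1, e2, e3⟩ := h
      simp only [a] at e2
      have e4 : P.2.2 = P'.2.2 := by
        simp only [c, e2] at e3
        exact mul_left_cancel₀ hq' (by linarith)
      have e5 : P.2.1 = P'.2.1 := by
        simp only [b, c, e2, e4] at e1
        exact mul_left_cancel₀ hq (by linarith)
      exact Prod.ext e2 (Prod.ext e5 e4)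
    · have hs := (hS P (hU hP)).1
      have e : ((a P : ℚ) • (![1, (p : ℚ) / q, (p' : ℚ) / q', 0] : Fin 4 → ℚ) +
          (b P : ℚ) • (![0, 1 / q, 0, 0] : Fin 4 → ℚ) +
          (c P : ℚ) • (![0, (j : ℚ) / q, 1 / q', 0] : Fin 4 → ℚ) +
          ![0, 0, 0, 1]) = ![(P.1 : ℚ), (P.2.1 : ℚ), (P.2.2 : ℚ), 1] := by
        funext i
        fin_cases i <;> simp [a, b, c] <;> field_simp <;> ring
      rw [e]
      have hs' := congrArg (Int.cast : ℤ → ℚ) hs
      push_cast at hs'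
      simp only [Fb, Matrix.cons_val_zero, Matrix.cons_val_one, Matrix.cons_val]
      linear_combination hs'
  have hone : ∀ Q ∈ L, ((S.filter fun P => Q.evalEval (b P : ℚ) (c P : ℚ) = 0).card : ℝ) ≤
      K * (K1 + K2 + K3 : ℕ) * (A * W) ^ (1 / 3 : ℝ) * (A * Y) ^ η := fun Q hQ => by
    obtain ⟨q0, q1, q2, q3⟩ := l1 Q hQ
    have q4 := q3.trans t1
    refine hK Z3 _ b a c (A * W) (A * Y) _ Q R1 (by nlinarith) (by nlinarith) (by positivity)
      (fun P hP => ?_) q0.1.ne_zero b0 (bd_td q0 q4) (bd_mono b1 (by omega))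
      (fun P hP => ⟨(mem_filter.1 hP).2, hz1 P (mem_filter.1 hP).1⟩) fun U hU hR => ?_
    · obtain ⟨-, s1, s2, s3⟩ := hS P (mem_filter.1 hP).1
      have hjr : (j : ℝ) ≤ 2 * M := by exact_mod_cast hj
      refine ⟨?_, s1.trans (by nlinarith), s3.trans (by nlinarith)⟩
      have e : ((b P : ℤ) : ℝ) = ((q * P.2.1 - p * P.1 : ℤ) : ℝ) - j * ((c P : ℤ) : ℝ) := by
        simp only [b]
        push_cast
        ring
      rw [e]
      refine (abs_sub _ _).trans ?_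
      rw [abs_mul, Nat.abs_cast]
      have := mul_le_mul hjr s3 (abs_nonneg _) (by positivity)
      simp only [c]
      nlinarith
    · have hU' : U ⊆ S := hU.trans (filter_subset _ _)
      have hv : ∀ P ∈ U, Q.evalEval (b P : ℚ) (c P : ℚ) = 0 := fun P hP => (mem_filter.1 (hU hP)).2
      have hfr : Fr _ _ _ _ := ⟨hF, frame (j := j) hq0 hq1⟩
      rw [Nat.cast_le]
      rcases (by omega : Q.natDegree = 1 ∨ Q.natDegree = 2 ∨ 3 ≤ Q.natDegree) with n | n | n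
      · have := h1 Z3 _ _ _ _ Q U _ _ _ hfr (hX U hU') q0 q1 q4 n hv hR
        omega
      · have := h2 Z3 _ _ _ _ Q U _ _ _ hfr (hX U hU') q0 q1 q4 n hv hR
        omega
      · have := h3 Z3 _ _ _ _ Q U _ _ _ hfr (hX U hU') q0 q1 q4 n hv hR
        omega
  have hcov : S ⊆ L.biUnion fun Q => S.filter fun P => Q.evalEval (b P : ℚ) (c P : ℚ) = 0 :=
    fun P hP => by
      obtain ⟨Q, hQ, e⟩ := l2 _ _ (hz P hP)
      exact mem_biUnion.2 ⟨Q, hQ, mem_filter.2 ⟨hP, e⟩⟩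
  have h5 : (S.card : ℝ) ≤
      ∑ Q ∈ L, ((S.filter fun P => Q.evalEval (b P : ℚ) (c P : ℚ) = 0).card : ℝ) := by
    exact_mod_cast (card_le_card hcov).trans card_biUnion_le
  have h6 := h5.trans (sum_le_card_nsmul _ _ _ hone)
  have h7 : (L.card : ℝ) ≤ 2 * M := by exact_mod_cast l0.trans t1
  rw [nsmul_eq_mul, Real.mul_rpow (by positivity) (by positivity),
    Real.mul_rpow (by positivity) (by positivity)] at h6
  refine h6.trans ((mul_le_mul_of_nonneg_right h7 (by positivity)).trans_eq ?_)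
  ring

end Pool.Agent.MP_47f5fb_nt.Ct
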