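import Pool.Agent.MP_47f5fb_nt.Ct.Spec

/-! Row DEG: the degree of a polynomial root. -/

set_option autoImplicit false

namespace Pool.Agent.MP_47f5fb_nt.Ct

open Polynomial Finset

namespace DEGx

theorem c3 {n : ℕ} {u v w : ℚ[X]} (hu : u.natDegree ≤ n) (hv : v.natDegree ≤ n)
    (hw : w.natDegree ≤ n) : (u * v * w).coeff (n + n + n) = u.coeff n * v.coeff n * w.coeff n := by
  rw [coeff_mul_add_eq_of_natDegree_le (natDegree_mul_le.trans (add_le_add hu hv)) hw,
    coeff_mul_add_eq_of_natDegree_le hu hv]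

theorem top {n : ℕ} {u : Fin 4 → ℚ[X]} (h : ∀ i, (u i).natDegree ≤ n) :
    (Fb u).coeff (n + n + n) = Fb fun i => (u i).coeff n := by
  have e : Fb u = u 0 * u 0 * u 0 + u 1 * u 1 * u 1 + u 2 * u 2 * u 2 - u 0 * u 1 * u 2 +
      (u 0 * u 3 * u 3 + u 1 * u 3 * u 3 + u 2 * u 3 * u 3) - u 3 * u 3 * u 3 := by
    unfold Fb
    ring
  rw [e]
  simp only [coeff_add, coeff_sub, c3 (h _) (h _) (h _), Fb]
  ring

end DEGx

theorem deg : S_DEG := by
  intro k e V ρ he hV h
  by_contra hn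
  replace hn : k < ρ.natDegree := not_le.1 hn
  have h0 : ρ ≠ 0 := by
    rintro rfl
    simp at hn
  have h1 := DEGx.top (n := ρ.natDegree) (u := fun i => C (e i) * ρ + V i) fun i =>
    (natDegree_add_le _ _).trans (max_le (natDegree_C_mul_le _ _) ((hV i).trans hn.le))
  have h2 : ∀ i, (C (e i) * ρ + V i).coeff ρ.natDegree = e i * ρ.leadingCoeff := fun i => by
    rw [coeff_add, coeff_C_mul, coeff_eq_zero_of_natDegree_lt ((hV i).trans_lt hn), add_zero]
    rfl
  rw [h, coeff_zero] at h1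
  simp only [h2] at h1
  have h3 : (Fb fun i => e i * ρ.leadingCoeff) = Fb e * ρ.leadingCoeff ^ 3 := by
    unfold Fb
    ring
  exact mul_ne_zero he (pow_ne_zero 3 (leadingCoeff_ne_zero.2 h0)) (h3 ▸ h1.symm)

end Pool.Agent.MP_47f5fb_nt.Ct
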