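import Pool.Agent.MP_47f5fb_nt.Ct.Spec

/-! The bound for a determinant whose entries are close to a short bilinear sum. -/

set_option autoImplicit false

namespace Pool.Agent.MP_47f5fb_nt.Ct

open Polynomial Finset

namespace DETx

theorem expand {ι κ : Type} [Fintype ι] [DecidableEq ι] (O : Finset κ) (a : ι → κ → ℝ)
    (v : ι → κ → ι → ℝ) :
    (Matrix.of fun j i => ∑ o ∈ O, a i o * v i o j).det =
      ∑ f ∈ Fintype.piFinset (fun _ : ι => O),
        (∏ i, a i (f i)) * (Matrix.of fun j i => v i (f i) j).det := by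
  simp only [Matrix.det_apply', Matrix.of_apply, Finset.prod_univ_sum, Finset.mul_sum,
    Finset.prod_mul_distrib]
  rw [Finset.sum_comm]
  exact sum_congr rfl fun f _ => sum_congr rfl fun σ _ => by ring

theorem term {ι : Type} [Fintype ι] [DecidableEq ι] (R : Finset (ℕ × ℕ)) (r : ι → ι → ℝ)
    (e : ι → ℕ × ℕ → ℝ) (s : ℕ × ℕ → ℝ) (γ : ℝ) (h0 : 0 ≤ γ) (h1 : γ ≤ 1)
    (he : ∀ j μ, |e j μ| ≤ s μ) (hs : ∀ μ, 0 ≤ s μ ∧ s μ ≤ 1) (hr : ∀ j i, |r j i| ≤ γ)
    (hT : ∀ T : Finset (ℕ × ℕ), T ⊆ R → T.card = Fintype.card ι → ∏ μ ∈ T, s μ ≤ γ)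
    (f : ι → Option (ℕ × ℕ)) (hf : ∀ i, f i ∈ insertNone R) :
    |(Matrix.of fun j i => (f i).elim (r j i) (e j)).det| ≤ (Fintype.card ι).factorial * γ := by
  by_cases h : ∃ i0, f i0 = none
  · obtain ⟨i0, hi0⟩ := h
    have := MP_abff10_nt.det_bound (Matrix.of fun j i => (f i).elim (r j i) (e j))
      (fun i => if i = i0 then γ else 1) (fun j i => by
        rw [Matrix.of_apply]
        split_ifs with hi
        · subst hi
          rw [hi0]
          exact hr j i
        · cases f i with
          | none => exact (hr j i).trans h1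
          | some μ => exact (he j μ).trans (hs μ).2)
    simpa using this
  · have h' : ∀ i, ∃ μ, f i = some μ := fun i => by
      cases hfi : f i with
      | none => exact absurd ⟨i, hfi⟩ h
      | some μ => exact ⟨μ, rfl⟩
    choose g hg using h'
    by_cases hinj : Function.Injective g
    · have h2 := MP_abff10_nt.det_bound (Matrix.of fun j i => (f i).elim (r j i) (e j))
        (fun i => s (g i)) (fun j i => by
          rw [Matrix.of_apply, hg i]
          exact he j _)
      have h3 := hT (univ.image g) (fun μ hμ => by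
        obtain ⟨i, _, rfl⟩ := mem_image.1 hμ
        have := hf i
        rw [hg i] at this
        exact some_mem_insertNone.1 this) (by rw [card_image_of_injective _ hinj, card_univ])
      rw [prod_image fun x _ y _ hxy => hinj hxy] at h3
      exact h2.trans (mul_le_mul_of_nonneg_left h3 (Nat.cast_nonneg _))
    · obtain ⟨i, i', hii, hne⟩ := Function.not_injective_iff.1 hinj
      rw [Matrix.det_zero_of_column_eq hne fun k => by
        simp only [Matrix.of_apply, hg, Option.elim_some, hii], abs_zero]
      positivity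

end DETx

theorem det : S_DET := by
  intro ι _ _ N A c e s M γ hM h0 h1 hc he hs hA hT
  have hM0 : 0 < M := by linarith
  set R : Finset (ℕ × ℕ) := range N ×ˢ range N with hR
  set r : ι → ι → ℝ := fun j i => (A j i - ∑ μ ∈ R, c i μ * e j μ) / M with hr
  have hr' : ∀ j i, |r j i| ≤ γ := fun j i => by
    simp only [hr]
    rw [abs_div, abs_of_pos hM0, div_le_iff₀ hM0, mul_comm]
    exact hA j i
  have hAe : A = Matrix.of fun j i => ∑ o ∈ insertNone R,
      (fun (i : ι) (o : Option (ℕ × ℕ)) => o.elim M (c i)) i o *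
        (fun (i : ι) (o : Option (ℕ × ℕ)) (j : ι) => o.elim (r j i) (e j)) i o j := by
    ext j i
    simp only [Matrix.of_apply, sum_insertNone, Option.elim_none, Option.elim_some, hr]
    field_simp
    ring
  rw [hAe, DETx.expand]
  refine (abs_sum_le_sum_abs _ _).trans ((sum_le_card_nsmul _ _
    (M ^ Fintype.card ι * ((Fintype.card ι).factorial * γ)) fun f hf => ?_).trans (le_of_eq ?_))
  · rw [abs_mul]
    refine mul_le_mul ?_ (DETx.term R r e s γ h0 h1 he hs hr' hT f
      fun i => Fintype.mem_piFinset.1 hf i) (abs_nonneg _) (by positivity)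
    rw [abs_prod, ← card_univ, ← prod_const]
    refine prod_le_prod (fun _ _ => abs_nonneg _) fun i _ => ?_
    cases f i with
    | none => exact (abs_of_pos hM0).le
    | some μ => exact hc i μ
  · rw [Fintype.card_piFinset, prod_const, card_univ, card_insertNone, hR, card_product,
      card_range, nsmul_eq_mul, mul_pow]
    push_cast
    ring

end Pool.Agent.MP_47f5fb_nt.Ct
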