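import Pool.Agent.MP_47f5fb_nt.Ct.Spec

/-! Row DIR: Dirichlet approximation of the two slopes. -/

namespace Pool.Agent.MP_47f5fb_nt.Ct

open Polynomial Finset

namespace DIRx

/-- a rational root of the monic cubic is an integer -/
theorem int_root (x y : ℤ) (Z : ℚ) (h : Z ^ 3 - x * y * Z + x ^ 3 + y ^ 3 = 0) :
    ∃ z : ℤ, Z = z := by
  have hm : (X ^ 3 - C (x * y) * X + C (x ^ 3 + y ^ 3) : ℤ[X]).Monic := by
    monicity!
  have hr : aeval Z (X ^ 3 - C (x * y) * X + C (x ^ 3 + y ^ 3) : ℤ[X]) = 0 := by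
    simp only [map_add, map_sub, map_mul, map_pow, aeval_X, eq_intCast, map_intCast]
    linear_combination h
  obtain ⟨z, hz, -⟩ := exists_integer_of_is_root_of_monic hm hr
  exact ⟨z, by simpa using hz⟩

end DIRx

theorem dir : S_DIR := by
  intro Q t w hQ
  obtain ⟨p, q, hq0, hq1, h1⟩ := Real.exists_int_int_abs_mul_sub_le t (n := Q) hQ
  obtain ⟨p', q', hq0', hq1', h1'⟩ := Real.exists_int_int_abs_mul_sub_le w (n := Q) hQ
  have hQ0 : (0 : ℝ) < Q := by exact_mod_cast hQ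
  have hle : (1 : ℝ) / (Q + 1) ≤ 1 / Q := one_div_le_one_div_of_le hQ0 (by linarith)
  refine ⟨p, q, p', q', hq0, hq1, hq0', hq1', h1.trans hle, h1'.trans hle, ?_⟩
  by_cases hF : Fb ![1, (p : ℚ) / q, (p' : ℚ) / q', 0] = 0
  · right
    set r : ℚ := (p : ℚ) / q with hr
    set r' : ℚ := (p' : ℚ) / q' with hr'
    have hF' : 1 + r ^ 3 + r' ^ 3 - r * r' = 0 := by
      simp only [Fb, Matrix.cons_val_zero, Matrix.cons_val_one, Matrix.cons_val] at hF
      linear_combination hF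
    have hden : ((r.den : ℤ)) ∣ q := by
      have := Rat.den_dvd p q
      rwa [Rat.divInt_eq_div] at this
    have hx0 : (1 : ℤ) ≤ r.den := by exact_mod_cast r.den_pos
    have hxq : (r.den : ℤ) ≤ q := Int.le_of_dvd hq0 hden
    have hy : ((r.num : ℤ) : ℚ) = ((r.den : ℤ) : ℚ) * r := by
      rw [Int.cast_natCast, mul_comm, Rat.mul_den_eq_num]
    obtain ⟨z, hz⟩ := DIRx.int_root r.den r.num (((r.den : ℤ) : ℚ) * r') (by
      rw [hy]
      linear_combination ((r.den : ℤ) : ℚ) ^ 3 * hF')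
    refine ⟨r.den, r.num, z, hx0, hxq.trans hq1, ?_, ?_⟩
    · have h2 : ((r.den : ℤ) : ℚ) ^ 3 + ((r.num : ℤ) : ℚ) ^ 3 + (z : ℚ) ^ 3 =
          ((r.den : ℤ) : ℚ) * ((r.num : ℤ) : ℚ) * z := by
        rw [← hz, hy]
        linear_combination ((r.den : ℤ) : ℚ) ^ 3 * hF'
      exact_mod_cast h2
    · have hqR : (0 : ℝ) < q := by exact_mod_cast hq0
      have hxR : (0 : ℝ) < ((r.den : ℤ) : ℝ) := by exact_mod_cast r.den_pos
      have hxqR : ((r.den : ℤ) : ℝ) ≤ q := by exact_mod_cast hxq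
      have e : ((r.num : ℤ) : ℝ) / ((r.den : ℤ) : ℝ) = (p : ℝ) / q := by
        have h3 : ((r.num : ℤ) : ℚ) / ((r.den : ℤ) : ℚ) = (p : ℚ) / q := by
          rw [Int.cast_natCast, Rat.num_div_den]
        exact_mod_cast congrArg (fun u : ℚ => (u : ℝ)) h3
      have e2 : t - (p : ℝ) / q = (q * t - p) / q := by field_simp
      rw [e, e2, abs_div, abs_of_pos hqR, div_le_iff₀ hqR]
      refine (h1.trans hle).trans ?_
      rw [div_mul_eq_mul_div, one_mul, div_le_div_iff₀ hQ0 (mul_pos hxR hQ0)]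
      nlinarith
  · exact Or.inl hF

end Pool.Agent.MP_47f5fb_nt.Ct
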