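import Pool.Agent.MP_47f5fb_nt.Ct.Spec

/-! Counting the good points of a dyadic shell sector by sector. -/

set_option autoImplicit false

namespace Pool.Agent.MP_47f5fb_nt.Ct

open Polynomial Finset

namespace DYAx

theorem abs_div_le (x y : ℤ) (h : |y| ≤ |x|) : |(y : ℝ) / x| ≤ 1 := by
  rw [abs_div]
  apply div_le_one_of_le₀ _ (abs_nonneg _)
  exact_mod_cast h

theorem floor_mem (s : ℝ) (N : ℤ) (h : |s| ≤ N) : ⌊s⌋ ∈ Icc (-N) N := by
  rw [abs_le] at h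
  rw [mem_Icc]
  constructor
  · rw [Int.le_floor]; push_cast; exact h.1
  · have := Int.floor_le s
    have h2 : (⌊s⌋ : ℝ) ≤ N := this.trans h.2
    exact_mod_cast h2

theorem sum_bound (S : Finset Z3) (f : Z3 → ℤ × ℤ) (A C I : Finset ℤ) (hI : I ⊆ A) (a b : ℝ)
    (hf : ∀ P ∈ S, f P ∈ A ×ˢ C)
    (h : ∀ k : ℤ × ℤ, k.1 ∈ A →
      ((S.filter fun P => f P = k).card : ℝ) ≤ a + if k.1 ∈ I then b else 0) :
    (S.card : ℝ) ≤ C.card * (A.card * a + I.card * b) := by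
  rw [card_eq_sum_card_fiberwise (f := f) (t := A ×ˢ C) (fun P hP => hf P hP)]
  push_cast
  refine (sum_le_sum fun k hk => h k (mem_product.1 hk).1).trans (le_of_eq ?_)
  rw [sum_product]
  rw [sum_congr rfl fun x _ => show ∑ y ∈ C, (a + if (x, y).1 ∈ I then b else 0) =
    (C.card : ℝ) * (a + if x ∈ I then b else 0) by
      rw [← nsmul_eq_mul, ← sum_const]]
  rw [← mul_sum, sum_add_distrib, sum_const, nsmul_eq_mul, sum_ite_mem, inter_eq_right.2 hI,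
    sum_const, nsmul_eq_mul]

end DYAx

open DYAx in
theorem dya (sct : S_SCT) (bad : S_BAD) : S_DYA := by
  classical
  intro ε hε
  obtain ⟨η, hη0, hη1, hη2⟩ : ∃ η : ℝ, 0 < η ∧ η ≤ ε / 2 ∧ η ≤ 1 / 20 :=
    ⟨min (ε / 2) (1 / 20), lt_min (by linarith) (by norm_num), min_le_left _ _, min_le_right _ _⟩
  obtain ⟨θ, hθ⟩ : ∃ θ : ℝ, θ = 3 / 4 + η / 2 := ⟨_, rfl⟩
  obtain ⟨K1, B0, hK1, h1⟩ := sct θ η (by linarith) (by linarith) hη0
  obtain ⟨K2, hK2, h2⟩ := bad η hη0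
  refine ⟨201 * (5 * K1 + 4 * K2 * K1), max B0 1, by positivity, fun B hB S hS => ?_⟩
  have hB0 : B0 ≤ B := (le_max_left _ _).trans hB
  have hB1 : 1 ≤ B := (le_max_right _ _).trans hB
  have hBp : 0 < B := by linarith
  have hθ0 : 0 ≤ θ := by linarith
  have hδ : 0 < B ^ (-θ) := Real.rpow_pos_of_pos hBp _
  have hT1 : 1 ≤ B ^ θ := Real.one_le_rpow hB1 hθ0
  have hR1 : 1 ≤ B ^ (θ / 2) := Real.one_le_rpow hB1 (by linarith)
  have hinv : B ^ (-θ) * B ^ θ = 1 := by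
    rw [← Real.rpow_add hBp]; simp
  have hsq : (B ^ (θ / 2)) ^ 2 = B ^ θ := by
    rw [sq, ← Real.rpow_add hBp]; congr 1; ring
  have hQ1 : B ^ (θ / 2) ≤ (⌈B ^ (θ / 2)⌉₊ : ℝ) := Nat.le_ceil _
  have hQ2 : (⌈B ^ (θ / 2)⌉₊ : ℝ) ≤ 2 * B ^ (θ / 2) := by
    have := Nat.ceil_lt_add_one (show 0 ≤ B ^ (θ / 2) by linarith)
    linarith
  have hQ0 : 1 ≤ ⌈B ^ (θ / 2)⌉₊ := by
    have : (1 : ℝ) ≤ (⌈B ^ (θ / 2)⌉₊ : ℝ) := hR1.trans hQ1
    exact_mod_cast this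
  have hδQ : 1 ≤ B ^ (-θ) * (⌈B ^ (θ / 2)⌉₊ : ℝ) ^ 2 := by
    rw [← hinv, ← hsq]
    exact mul_le_mul_of_nonneg_left (pow_le_pow_left₀ (by linarith) hQ1 2) hδ.le
  have hN1 : B ^ θ ≤ ((⌈B ^ θ⌉ : ℤ) : ℝ) := Int.le_ceil _
  have hN2 : ((⌈B ^ θ⌉ : ℤ) : ℝ) ≤ B ^ θ + 1 := (Int.ceil_lt_add_one _).le
  have hN0 : (0 : ℤ) ≤ ⌈B ^ θ⌉ := Int.ceil_nonneg (by linarith)
  set A : Finset ℤ := Icc (-⌈B ^ θ⌉) ⌈B ^ θ⌉ with hA
  set I : Finset ℤ := A.filter fun i => ∃ t : ℝ, ⌊t / B ^ (-θ)⌋ = i ∧ BadT ⌈B ^ (θ / 2)⌉₊ t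
    with hI
  have hIc := h2 (B ^ (-θ)) ⌈B ^ (θ / 2)⌉₊ I hδ hQ0 hδQ fun i hi => (mem_filter.1 hi).2
  have hAc : (A.card : ℝ) ≤ 5 * B ^ θ := by
    have e : (A.card : ℤ) = 2 * ⌈B ^ θ⌉ + 1 := by
      rw [hA, Int.card_Icc_of_le _ _ (by omega)]; ring
    have e' : (A.card : ℝ) = 2 * ((⌈B ^ θ⌉ : ℤ) : ℝ) + 1 := by exact_mod_cast e
    linarith
  have key := sum_bound S (fun P => (⌊(pt P).t / B ^ (-θ)⌋, ⌊100 * (pt P).w⌋)) A
    (Icc (-100) 100) I (filter_subset _ _) (K1 * B ^ ((1 - θ / 2) / 3 + η))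
    (K1 * B ^ (1 / 3 + η)) (fun P hP => ?_) (fun k hk => ?_)
  · have hC : ((Icc (-100 : ℤ) 100).card : ℝ) = 201 := by
      have e : (Icc (-100 : ℤ) 100).card = 201 := by rw [Int.card_Icc]; rfl
      rw [e]; norm_num
    rw [hC] at key
    have e1 : B ^ θ * B ^ ((1 - θ / 2) / 3 + η) ≤ B ^ (23 / 24 + ε) := by
      rw [← Real.rpow_add hBp]
      exact Real.rpow_le_rpow_of_exponent_le hB1 (by linarith)
    have e2 : (⌈B ^ (θ / 2)⌉₊ : ℝ) ^ (1 + η) ≤ 4 * B ^ (θ / 2 * 2 * (3 / 5)) := by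
      have a1 : (⌈B ^ (θ / 2)⌉₊ : ℝ) ^ (1 + η) ≤ (2 * B ^ (θ / 2)) ^ (1 + η) :=
        Real.rpow_le_rpow (by positivity) hQ2 (by linarith)
      have a2 : (2 : ℝ) ^ (1 + η) ≤ 4 := by
        have : (2 : ℝ) ^ (1 + η) ≤ 2 ^ (2 : ℝ) :=
          Real.rpow_le_rpow_of_exponent_le (by norm_num) (by linarith)
        norm_num at this ⊢
        linarith
      have a3 : (B ^ (θ / 2)) ^ (1 + η) ≤ B ^ (θ / 2 * 2 * (3 / 5)) := by
        rw [← Real.rpow_mul hBp.le]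
        exact Real.rpow_le_rpow_of_exponent_le hB1 (by nlinarith)
      rw [Real.mul_rpow (by norm_num) (by linarith)] at a1
      exact a1.trans (mul_le_mul a2 a3 (by positivity) (by norm_num))
    have e3 : B ^ (θ / 2 * 2 * (3 / 5)) * B ^ (1 / 3 + η) ≤ B ^ (23 / 24 + ε) := by
      rw [← Real.rpow_add hBp]
      exact Real.rpow_le_rpow_of_exponent_le hB1 (by linarith)
    have p1 : 0 ≤ B ^ ((1 - θ / 2) / 3 + η) := by positivity
    have p2 : 0 ≤ B ^ (1 / 3 + η) := by positivity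
    have f1 : (A.card : ℝ) * (K1 * B ^ ((1 - θ / 2) / 3 + η)) ≤ 5 * K1 * B ^ (23 / 24 + ε) :=
      calc _ ≤ 5 * B ^ θ * (K1 * B ^ ((1 - θ / 2) / 3 + η)) :=
            mul_le_mul_of_nonneg_right hAc (by positivity)
        _ = 5 * K1 * (B ^ θ * B ^ ((1 - θ / 2) / 3 + η)) := by ring
        _ ≤ _ := mul_le_mul_of_nonneg_left e1 (by positivity)
    have f2 : (I.card : ℝ) * (K1 * B ^ (1 / 3 + η)) ≤ 4 * K2 * K1 * B ^ (23 / 24 + ε) :=
      calc _ ≤ K2 * (4 * B ^ (θ / 2 * 2 * (3 / 5))) * (K1 * B ^ (1 / 3 + η)) :=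
            mul_le_mul_of_nonneg_right (hIc.trans (mul_le_mul_of_nonneg_left e2 hK2))
              (by positivity)
        _ = 4 * K2 * K1 * (B ^ (θ / 2 * 2 * (3 / 5)) * B ^ (1 / 3 + η)) := by ring
        _ ≤ _ := mul_le_mul_of_nonneg_left e3 (by positivity)
    linarith
  · obtain ⟨-, -, -, hy, hz, -⟩ := hS P hP
    rw [mem_product]
    refine ⟨floor_mem _ _ ?_, floor_mem _ 100 ?_⟩
    · have ht : |(pt P).t| ≤ 1 := abs_div_le _ _ hy
      rw [abs_div, abs_of_pos hδ, div_le_iff₀ hδ]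
      nlinarith
    · have hw : |(pt P).w| ≤ 1 := abs_div_le _ _ hz
      rw [abs_mul]
      norm_num
      linarith
  · have p1 : 0 ≤ K1 * B ^ ((1 - θ / 2) / 3 + η) := by positivity
    have p2 : 0 ≤ K1 * B ^ (1 / 3 + η) := by positivity
    rcases (S.filter fun P =>
      (⌊(pt P).t / B ^ (-θ)⌋, ⌊100 * (pt P).w⌋) = k).eq_empty_or_nonempty with he | ⟨P0, hP0⟩
    · rw [he, card_empty, Nat.cast_zero]
      split_ifs <;> linarith
    · have h0 := (mem_filter.1 hP0).2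
      obtain ⟨b1, b2⟩ := h1 B hB0 _ P0 hP0 fun P hP => by
        obtain ⟨hPS, hk'⟩ := mem_filter.1 hP
        have e := hk'.trans h0.symm
        rw [Prod.mk.injEq] at e
        have c1 := Int.abs_sub_lt_one_of_floor_eq_floor e.1
        have c2 := Int.abs_sub_lt_one_of_floor_eq_floor e.2
        refine ⟨hS P hPS, ?_, ?_⟩
        · rw [← sub_div, abs_div, abs_of_pos hδ, div_lt_one hδ] at c1
          exact c1.le
        · rw [← mul_sub, abs_mul] at c2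
          norm_num at c2 ⊢
          linarith
      split_ifs with hk1
      · linarith
      · rcases b2 with b2 | b2
        · linarith
        · exact absurd (mem_filter.2 ⟨hk, _, congrArg Prod.fst h0, b2⟩) hk1

end Pool.Agent.MP_47f5fb_nt.Ct
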