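import Pool.Agent.MP_47f5fb_nt.Ct.Spec

/-! Row FAC: factorisation into irreducible monic factors. -/

set_option autoImplicit false

namespace Pool.Agent.MP_47f5fb_nt.Ct

open Polynomial Finset

theorem fac (tdf : S_TDF) : S_FAC := by
  classical
  intro P
  induction hn : P.natDegree using Nat.strong_induction_on generalizing P with
  | _ n ih =>
  intro hP
  subst hn
  by_cases h1 : P = 1
  · refine ⟨∅, by simp, by simp, fun s a h => ?_⟩
    rw [h1, evalEval_one] at h
    exact absurd h one_ne_zero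
  have h0 : 1 ≤ P.natDegree := hP.1.natDegree_pos.2 h1
  by_cases hi : Irreducible P
  · refine ⟨{P}, by simpa using h0, fun Q hQ => ?_, fun s a h => ⟨P, mem_singleton_self _, h⟩⟩
    rw [mem_singleton.1 hQ]
    exact ⟨hP, hi, h0, le_rfl⟩
  rw [hP.1.irreducible_iff_natDegree] at hi
  push Not at hi
  obtain ⟨f, g, hf, hg, e, d1, d2⟩ := hi h1
  have hd : P.natDegree = f.natDegree + g.natDegree := by rw [← e, hf.natDegree_mul hg]
  obtain ⟨L1, a1, a2, a3⟩ := ih _ (by omega) f rfl (tdf f g hf hg (e ▸ hP))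
  obtain ⟨L2, b1, b2, b3⟩ := ih _ (by omega) g rfl (tdf g f hg hf (by rw [mul_comm, e]; exact hP))
  refine ⟨L1 ∪ L2, (card_union_le _ _).trans (by omega), fun Q hQ => ?_, fun s a h => ?_⟩
  · rcases mem_union.1 hQ with hQ | hQ
    · obtain ⟨c1, c2, c3, c4⟩ := a2 Q hQ
      exact ⟨c1, c2, c3, by omega⟩
    · obtain ⟨c1, c2, c3, c4⟩ := b2 Q hQ
      exact ⟨c1, c2, c3, by omega⟩
  · rw [← e, evalEval_mul] at h
    rcases mul_eq_zero.1 h with h | h
    · obtain ⟨Q, hQ, c⟩ := a3 s a h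
      exact ⟨Q, mem_union_left _ hQ, c⟩
    · obtain ⟨Q, hQ, c⟩ := b3 s a h
      exact ⟨Q, mem_union_right _ hQ, c⟩

end Pool.Agent.MP_47f5fb_nt.Ct
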