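import Pool.Agent.MP_47f5fb_nt.Ct.Spec

/-! Points of a cubic fibration without a polynomial section on an auxiliary quadratic curve. -/

set_option autoImplicit false

namespace Pool.Agent.MP_47f5fb_nt.Ct

open Polynomial Finset

namespace FIBx

/-- a trilinear form whose diagonal is the cubic form -/
def T3 {R : Type} [CommRing R] (x y z : Fin 4 → R) : R :=
  x 0 * y 0 * z 0 + x 1 * y 1 * z 1 + x 2 * y 2 * z 2 - x 0 * y 1 * z 2 + x 0 * y 3 * z 3 +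
    x 1 * y 3 * z 3 + x 2 * y 3 * z 3 - x 3 * y 3 * z 3

lemma expand {R : Type} [CommRing R] (e v : Fin 4 → R) (a : R) :
    Fb (fun i => e i * a + v i) = Fb e * a ^ 3 + (T3 e e v + T3 e v e + T3 v e e) * a ^ 2 +
      (T3 e v v + T3 v e v + T3 v v e) * a + T3 v v v := by
  simp only [Fb, T3]
  ring

lemma add_le {d : ℕ} {p q : ℚ[X]} (hp : p.natDegree ≤ d) (hq : q.natDegree ≤ d) :
    (p + q).natDegree ≤ d :=
  (natDegree_add_le p q).trans (max_le hp hq)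

lemma sub_le {d : ℕ} {p q : ℚ[X]} (hp : p.natDegree ≤ d) (hq : q.natDegree ≤ d) :
    (p - q).natDegree ≤ d :=
  (natDegree_sub_le p q).trans (max_le hp hq)

lemma tri_le {p q r : ℚ[X]} (hp : p.natDegree ≤ 2) (hq : q.natDegree ≤ 2) (hr : r.natDegree ≤ 2) :
    (p * q * r).natDegree ≤ 6 := by
  have h1 := natDegree_mul_le (p := p * q) (q := r)
  have h2 := natDegree_mul_le (p := p) (q := q)
  omega

lemma T3_le {x y z : Fin 4 → ℚ[X]} (hx : ∀ i, (x i).natDegree ≤ 2) (hy : ∀ i, (y i).natDegree ≤ 2)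
    (hz : ∀ i, (z i).natDegree ≤ 2) : (T3 x y z).natDegree ≤ 6 := by
  have t : ∀ i j k, (x i * y j * z k).natDegree ≤ 6 := fun i j k => tri_le (hx i) (hy j) (hz k)
  exact sub_le (add_le (add_le (add_le (sub_le (add_le (add_le (t 0 0 0) (t 1 1 1)) (t 2 2 2))
    (t 0 1 2)) (t 0 3 3)) (t 1 3 3)) (t 2 3 3)) (t 3 3 3)

lemma T3_eval (s : ℚ) (x y z : Fin 4 → ℚ[X]) :
    (T3 x y z).eval s = T3 (fun i => (x i).eval s) (fun i => (y i).eval s)
      (fun i => (z i).eval s) := by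
  simp only [T3, eval_add, eval_sub, eval_mul]

lemma Fb_C (e : Fin 4 → ℚ) : Fb (fun i => (C (e i) : ℚ[X])) = C (Fb e) := by
  simp only [Fb, map_add, map_sub, map_mul, map_pow]

/-- a polynomial of degree at most three in the outer variable -/
noncomputable def cub (a3 a2 a1 a0 : ℚ[X]) : ℚ[X][X] :=
  C a3 * X ^ 3 + C a2 * X ^ 2 + C a1 * X ^ 1 + C a0 * X ^ 0

lemma cub_coeff (a3 a2 a1 a0 : ℚ[X]) (i : ℕ) : (cub a3 a2 a1 a0).coeff i =
    (if i = 3 then a3 else 0) + (if i = 2 then a2 else 0) + (if i = 1 then a1 else 0) +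
      (if i = 0 then a0 else 0) := by
  simp only [cub, coeff_add, coeff_C_mul_X_pow]

lemma cub_deg (a3 a2 a1 a0 : ℚ[X]) : (cub a3 a2 a1 a0).natDegree ≤ 3 := by
  rw [natDegree_le_iff_coeff_eq_zero]
  intro N hN
  rw [cub_coeff, if_neg (by omega), if_neg (by omega), if_neg (by omega), if_neg (by omega)]
  simp

lemma cub_bd {d : ℕ} (hd : 3 ≤ d) {a3 a2 a1 a0 : ℚ[X]} (h3 : a3.natDegree ≤ d)
    (h2 : a2.natDegree ≤ d) (h1 : a1.natDegree ≤ d) (h0 : a0.natDegree ≤ d) :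
    Bd d (cub a3 a2 a1 a0) := by
  have ite_le : ∀ (c : Prop) [Decidable c] (p : ℚ[X]), p.natDegree ≤ d →
      (if c then p else 0).natDegree ≤ d := by
    intro c _ p hp
    split_ifs
    · exact hp
    · simp
  refine ⟨(cub_deg _ _ _ _).trans hd, fun i => ?_⟩
  rw [cub_coeff]
  exact add_le (add_le (add_le (ite_le _ _ h3) (ite_le _ _ h2)) (ite_le _ _ h1)) (ite_le _ _ h0)

lemma cub_eval (a3 a2 a1 a0 ρ : ℚ[X]) :
    (cub a3 a2 a1 a0).eval ρ = a3 * ρ ^ 3 + a2 * ρ ^ 2 + a1 * ρ + a0 := by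
  simp [cub]

lemma cub_evalEval (a3 a2 a1 a0 : ℚ[X]) (s a : ℚ) : (cub a3 a2 a1 a0).evalEval s a =
    a3.eval s * a ^ 3 + a2.eval s * a ^ 2 + a1.eval s * a + a0.eval s := by
  simp [evalEval, cub_eval]

lemma cub_three (a2 a1 a0 : ℚ[X]) : (cub 1 a2 a1 a0).coeff 3 = 1 := by
  rw [cub_coeff]
  simp

lemma cub_monic (a2 a1 a0 : ℚ[X]) : (cub 1 a2 a1 a0).Monic :=
  monic_of_natDegree_le_of_coeff_eq_one 3 (cub_deg _ _ _ _) (cub_three _ _ _)

lemma cub_deg_ge (a2 a1 a0 : ℚ[X]) : 3 ≤ (cub 1 a2 a1 a0).natDegree :=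
  le_natDegree_of_ne_zero (by rw [cub_three]; exact one_ne_zero)

lemma cub_irr (a2 a1 a0 : ℚ[X]) (h : ∀ ρ : ℚ[X], (cub 1 a2 a1 a0).eval ρ ≠ 0) :
    Irreducible (cub 1 a2 a1 a0) := by
  rw [(cub_monic a2 a1 a0).irreducible_iff_roots_eq_zero_of_degree_le_three
    (le_trans (by norm_num) (cub_deg_ge a2 a1 a0)) (cub_deg _ _ _ _)]
  refine Multiset.eq_zero_of_forall_notMem fun ρ hρ => h ρ ?_
  exact (mem_roots (cub_monic a2 a1 a0).ne_zero).1 hρ

lemma not_dvd (a2 a1 a0 G2 G1 G0 : ℚ[X]) (hG : ¬ (G0 = 0 ∧ G1 = 0 ∧ G2 = 0)) :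
    ¬ cub 1 a2 a1 a0 ∣ cub 0 G2 G1 G0 := by
  intro hd
  have hne : cub 0 G2 G1 G0 ≠ 0 := by
    intro h0
    have c0 := cub_coeff 0 G2 G1 G0 0
    have c1 := cub_coeff 0 G2 G1 G0 1
    have c2 := cub_coeff 0 G2 G1 G0 2
    rw [h0] at c0 c1 c2
    simp at c0 c1 c2
    exact hG ⟨c0.symm, c1.symm, c2.symm⟩
  have h1 := natDegree_le_of_dvd hd hne
  have h2 := cub_deg_ge a2 a1 a0
  have h3 : (cub 0 G2 G1 G0).natDegree ≤ 2 := by
    rw [natDegree_le_iff_coeff_eq_zero]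
    intro N hN
    rw [cub_coeff, if_neg (show ¬ N = 2 by omega), if_neg (show ¬ N = 1 by omega),
      if_neg (show ¬ N = 0 by omega)]
    simp
  omega

end FIBx

open FIBx in
theorem fib (bez : S_BEZ) : S_FIB := by
  intro J
  obtain ⟨K, hK⟩ := bez (max 6 J)
  refine ⟨K, fun e V G0 G1 G2 T he hV hρ hG h0 h1 h2 hT => ?_⟩
  have hE : ∀ i, (C (e i) : ℚ[X]).natDegree ≤ 2 := fun i => by simp
  obtain ⟨E, hEq⟩ : ∃ E : Fin 4 → ℚ[X], E = fun i => C (e i) := ⟨_, rfl⟩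
  have hE' : ∀ i, (E i).natDegree ≤ 2 := fun i => by rw [hEq]; exact hE i
  have hEv : ∀ s : ℚ, (fun i => (E i).eval s) = e := fun s => by
    funext i
    rw [hEq]
    simp
  have sc : ∀ p : ℚ[X], p.natDegree ≤ 6 → (C (Fb e)⁻¹ * p).natDegree ≤ max 6 J := fun p hp =>
    ((natDegree_C_mul_le _ _).trans hp).trans (le_max_left _ _)
  have hinv : (C (Fb e) : ℚ[X]) * C (Fb e)⁻¹ = 1 := by
    rw [← map_mul, mul_inv_cancel₀ he, map_one]
  refine hK (cub 1 (C (Fb e)⁻¹ * (T3 E E V + T3 E V E + T3 V E E))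
    (C (Fb e)⁻¹ * (T3 E V V + T3 V E V + T3 V V E)) (C (Fb e)⁻¹ * T3 V V V)) (cub 0 G2 G1 G0)
    (cub_monic _ _ _) (cub_irr _ _ _ fun ρ hz => hρ ρ ?_) (not_dvd _ _ _ _ _ _ hG)
    (cub_bd (le_trans (by norm_num) (le_max_left _ _)) (by simp)
      (sc _ (add_le (add_le (T3_le hE' hE' hV) (T3_le hE' hV hE')) (T3_le hV hE' hE')))
      (sc _ (add_le (add_le (T3_le hE' hV hV) (T3_le hV hE' hV)) (T3_le hV hV hE')))
      (sc _ (T3_le hV hV hV)))
    (cub_bd (le_trans (by norm_num) (le_max_left _ _)) (by simp) (h2.trans (le_max_right _ _))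
      (h1.trans (le_max_right _ _)) (h0.trans (le_max_right _ _))) T fun p hp => ⟨?_, ?_⟩
  · have hx := expand (fun i => (C (e i) : ℚ[X])) V ρ
    rw [Fb_C, ← hEq] at hx
    rw [cub_eval] at hz
    rw [hx]
    linear_combination C (Fb e) * hz - ((T3 E E V + T3 E V E + T3 V E E) * ρ ^ 2 +
      (T3 E V V + T3 V E V + T3 V V E) * ρ + T3 V V V) * hinv
  · have hx := expand e (fun i => (V i).eval p.1) p.2
    rw [(hT p hp).1] at hx
    rw [cub_evalEval]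
    simp only [eval_mul, eval_C, eval_add, T3_eval, hEv, eval_one]
    field_simp
    linear_combination -hx
  · rw [cub_evalEval, eval_zero]
    linear_combination (hT p hp).2

end Pool.Agent.MP_47f5fb_nt.Ct
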