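import Pool.Agent.MP_47f5fb_nt.Ct.Spec

/-! Elementary facts on good points. -/

set_option autoImplicit false

namespace Pool.Agent.MP_47f5fb_nt.Ct

open Polynomial Finset

namespace GDx

theorem inv_le {B x : ℝ} (hB : 20 ≤ B) (h : B / 2 < |x|) : |1 / x| ≤ 2 / B := by
  rw [abs_div, abs_one, div_le_div_iff₀ (by linarith) (by linarith)]
  linarith

theorem div_le {x y : ℤ} (h0 : 0 < |(x : ℝ)|) (h : |y| ≤ |x|) : |(y : ℝ) / x| ≤ 1 := by
  rw [abs_div, div_le_one h0]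
  exact_mod_cast h

end GDx

theorem gd : S_GD := by
  rintro B δ P P' hB h0 h1 ⟨s, a, -, b, c, d⟩ ⟨-, a', -⟩
  have hp : 0 < |(P.1 : ℝ)| := by linarith
  have hx : (P.1 : ℝ) ≠ 0 := abs_pos.1 hp
  have e := GDx.inv_le hB a
  have e' := GDx.inv_le hB a'
  have f : 2 / B ≤ 1 / 10 := by
    rw [div_le_div_iff₀ (by linarith) (by norm_num)]
    linarith
  refine ⟨⟨h0, h1, e.trans f, GDx.div_le hp b, GDx.div_le hp c, d, ?_⟩, ?_⟩
  · have s' : (P.1 : ℝ) ^ 3 + P.1 + (P.2.1 : ℝ) ^ 3 + P.2.1 + (P.2.2 : ℝ) ^ 3 + P.2.2 =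
        P.1 * P.2.1 * P.2.2 + 1 := by exact_mod_cast s
    simp only [Phi, pt]
    field_simp
    linear_combination s'
  · have g : 4 / B = 2 / B + 2 / B := by ring
    rw [g]
    exact (abs_sub _ _).trans (add_le_add e' e)

end Pool.Agent.MP_47f5fb_nt.Ct
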