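import Pool.Agent.MP_47f5fb_nt.Ct.Spec

/-! Hensel approximation of a smooth branch by an integer polynomial. -/

set_option autoImplicit false

namespace Pool.Agent.MP_47f5fb_nt.Ct

open Polynomial Finset

namespace HENx

theorem cong (D : ℤ[X][X]) (q b0 a0 b a : ℤ) (hb : q ∣ b - b0) (ha : q ∣ a - a0) :
    q ∣ D.evalEval b a - D.evalEval b0 a0 := by
  have h1 : q ∣ D.evalEval b a - D.evalEval b a0 := by
    rw [← map_evalRingHom_eval, ← map_evalRingHom_eval]
    exact ha.trans (sub_dvd_eval_sub _ _ _)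
  have h2 : q ∣ D.evalEval b a0 - D.evalEval b0 a0 :=
    hb.trans (sub_dvd_eval_sub b b0 (D.eval (C a0)))
  have := dvd_add h1 h2
  rwa [sub_add_sub_cancel] at this

theorem ev (R : ℤ[X][X]) (ξ : ℤ[X]) (b : ℤ) :
    (R.eval ξ).eval b = (R.map (evalRingHom b)).eval (ξ.eval b) := by
  rw [eval_map]
  exact (eval₂_at_apply (evalRingHom b) ξ).symm

end HENx

theorem hen : S_HEN := by
  intro R q b0 a0 hc K
  obtain ⟨κ, t, hκ⟩ := hc
  have key : ∀ K : ℕ, ∃ ξ : ℤ[X], ∀ b a : ℤ,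
      q ∣ b - b0 → q ∣ a - a0 → R.evalEval b a = 0 → q ^ (K + 1) ∣ a - ξ.eval b := by
    intro K
    induction K with
    | zero => exact ⟨C a0, fun b a _ ha _ => by simpa using ha⟩
    | succ K ih =>
      obtain ⟨ξ, hξ⟩ := ih
      refine ⟨ξ - C κ * R.eval ξ, fun b a hb ha h0 => ?_⟩
      obtain ⟨m, hm⟩ := hξ b a hb ha h0
      obtain ⟨k, hk⟩ := binomExpansion (R.map (evalRingHom b)) a (ξ.eval b - a)
      obtain ⟨s, hs⟩ := HENx.cong (derivative R) q b0 a0 b a hb ha
      rw [add_sub_cancel, derivative_map, map_evalRingHom_eval, map_evalRingHom_eval,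
        map_evalRingHom_eval, h0] at hk
      rw [eval_sub, eval_mul, eval_C, HENx.ev, map_evalRingHom_eval, hk]
      have e1 : ξ.eval b = a - q ^ (K + 1) * m := by rw [← hm]; ring
      have e2 : (derivative R).evalEval b a = (derivative R).evalEval b0 a0 + q * s := by
        rw [← hs]; ring
      refine ⟨m * (t - κ * s) + κ * k * q ^ K * m ^ 2, ?_⟩
      rw [e1, e2]
      linear_combination (-(q ^ (K + 1) * m)) * hκ
  obtain ⟨ξ, hξ⟩ := key K
  exact ⟨ξ, fun b a hb ha h0 => (pow_dvd_pow q (Nat.le_succ K)).trans (hξ b a hb ha h0)⟩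

end Pool.Agent.MP_47f5fb_nt.Ct
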