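import Pool.Agent.MP_47f5fb_nt.Ct.Spec

/-! A filtration of linear growth on the functions on a curve of the surface. -/

set_option autoImplicit false

namespace Pool.Agent.MP_47f5fb_nt.Ct

open Polynomial Finset

namespace HI1x

variable {ι : Type} (s y z : ι → ℚ) (r : ℕ)

def V (M : ℕ) : Submodule ℚ (ι → ℚ) :=
  Submodule.span ℚ {v | ∃ i l k : ℕ, l < r ∧ k < 3 ∧ i + l + k ≤ M ∧ v = s ^ i * y ^ l * z ^ k}

variable {s y z r}

theorem mem {M i l k : ℕ} (hl : l < r) (hk : k < 3) (h : i + l + k ≤ M) :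
    s ^ i * y ^ l * z ^ k ∈ V s y z r M :=
  Submodule.subset_span ⟨i, l, k, hl, hk, h, rfl⟩

theorem mono {M M' : ℕ} (h : M ≤ M') {v : ι → ℚ} (hv : v ∈ V s y z r M) : v ∈ V s y z r M' := by
  refine Submodule.span_mono ?_ hv
  rintro _ ⟨i, l, k, a, b, c, d⟩
  exact ⟨i, l, k, a, b, c.trans h, d⟩

theorem clos {M : ℕ} (w : ι → ℚ) (h : ∀ i l k : ℕ, l < r → k < 3 → i + l + k ≤ M →
    w * (s ^ i * y ^ l * z ^ k) ∈ V s y z r (M + 1)) {v : ι → ℚ} (hv : v ∈ V s y z r M) :
    w * v ∈ V s y z r (M + 1) := by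
  induction hv using Submodule.span_induction with
  | mem v hv =>
    obtain ⟨i, l, k, a, b, c, rfl⟩ := hv
    exact h i l k a b c
  | zero => rw [mul_zero]; exact zero_mem _
  | add a b _ _ ha hb => rw [mul_add]; exact add_mem ha hb
  | smul c a _ ha => rw [mul_smul_comm]; exact Submodule.smul_mem _ c ha

theorem cs {M : ℕ} {v : ι → ℚ} (hv : v ∈ V s y z r M) : s * v ∈ V s y z r (M + 1) :=
  clos s (fun i l k a b c => by
    rw [show s * (s ^ i * y ^ l * z ^ k) = s ^ (i + 1) * y ^ l * z ^ k by ring]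
    exact mem a b (by omega)) hv

theorem rel {P : ℚ[X][X]} (hP : TD P) (h : ∀ i, P.evalEval (s i) (y i) = 0) :
    y ^ P.natDegree = -∑ l ∈ range P.natDegree, ∑ t ∈ range (P.natDegree - l + 1),
      (P.coeff l).coeff t • (s ^ t * y ^ l) := by
  funext a
  have e := h a
  rw [hP.1.as_sum, evalEval_add, evalEval_pow, evalEval_X, evalEval_finsetSum] at e
  simp only [Pi.pow_apply, Pi.neg_apply, Finset.sum_apply, Pi.smul_apply, Pi.mul_apply,
    smul_eq_mul]
  rw [eq_neg_iff_add_eq_zero, ← e]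
  congr 1
  refine sum_congr rfl fun l _ => ?_
  rw [evalEval_mul, evalEval_C, evalEval_pow, evalEval_X,
    eval_eq_sum_range' (Nat.lt_succ_of_le (hP.2 l)), sum_mul]
  exact sum_congr rfl fun t _ => (mul_assoc _ _ _).symm

theorem cy {P : ℚ[X][X]} (hP : TD P) (h : ∀ i, P.evalEval (s i) (y i) = 0) {M : ℕ} {v : ι → ℚ}
    (hv : v ∈ V s y z P.natDegree M) : y * v ∈ V s y z P.natDegree (M + 1) :=
  clos y (fun i l k a b c => by
    rcases (Nat.succ_le_of_lt a).lt_or_eq with d | d
    · rw [show y * (s ^ i * y ^ l * z ^ k) = s ^ i * y ^ (l + 1) * z ^ k by ring]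
      exact mem d b (by omega)
    · rw [show y * (s ^ i * y ^ l * z ^ k) = s ^ i * z ^ k * y ^ (l + 1) by ring,
        show l + 1 = P.natDegree from d, rel hP h, mul_neg, mul_sum]
      refine neg_mem (sum_mem fun l' hl' => ?_)
      rw [mul_sum]
      refine sum_mem fun t ht => ?_
      rw [mul_smul_comm,
        show s ^ i * z ^ k * (s ^ t * y ^ l') = s ^ (i + t) * y ^ l' * z ^ k by ring]
      have a1 := mem_range.1 hl'
      have a2 := mem_range.1 ht
      exact Submodule.smul_mem _ _ (mem a1 b (by omega))) hv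

theorem cz {j : ℚ} (hy : ∀ (M : ℕ) (v : ι → ℚ), v ∈ V s y z r M → y * v ∈ V s y z r (M + 1))
    (h : ∀ i, Fb ![s i + j * y i, y i, z i, 1] = 0) {M : ℕ} {v : ι → ℚ}
    (hv : v ∈ V s y z r M) : z * v ∈ V s y z r (M + 1) :=
  clos z (fun i l k a b c => by
    rcases (Nat.succ_le_of_lt b).lt_or_eq with d | d
    · rw [show z * (s ^ i * y ^ l * z ^ k) = s ^ i * y ^ l * z ^ (k + 1) by ring]
      exact mem a d (by omega)
    · obtain rfl : k = 2 := by omega
      have hx : ∀ (M : ℕ) (v : ι → ℚ), v ∈ V s y z r M → (s + j • y) * v ∈ V s y z r (M + 1) :=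
        fun M v hv => by
          rw [add_mul, smul_mul_assoc]
          exact add_mem (cs hv) (Submodule.smul_mem _ _ (hy M v hv))
      have m0 : s ^ i * y ^ l * z ^ 0 ∈ V s y z r (i + l) := mem a (by omega) (by omega)
      have m1 : s ^ i * y ^ l * z ^ 1 ∈ V s y z r (i + l + 1) := mem a (by omega) (by omega)
      have e : z * (s ^ i * y ^ l * z ^ 2) =
          (s + j • y) * (y * (s ^ i * y ^ l * z ^ 1)) + s ^ i * y ^ l * z ^ 0 -
            (s + j • y) * ((s + j • y) * ((s + j • y) * (s ^ i * y ^ l * z ^ 0))) -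
            y * (y * (y * (s ^ i * y ^ l * z ^ 0))) - (s + j • y) * (s ^ i * y ^ l * z ^ 0) -
            y * (s ^ i * y ^ l * z ^ 0) - s ^ i * y ^ l * z ^ 1 := by
        funext p
        have e := h p
        simp only [Fb, Matrix.cons_val_zero, Matrix.cons_val_one, Matrix.cons_val] at e
        simp only [Pi.mul_apply, Pi.add_apply, Pi.sub_apply, Pi.pow_apply, Pi.smul_apply,
          smul_eq_mul]
        linear_combination (s p ^ i * y p ^ l) * e
      rw [e]
      exact sub_mem (sub_mem (sub_mem (sub_mem (sub_mem (add_mem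
        (mono (by omega) (hx _ _ (hy _ _ m1))) (mono (by omega) m0))
        (mono (by omega) (hx _ _ (hx _ _ (hx _ _ m0)))))
        (mono (by omega) (hy _ _ (hy _ _ (hy _ _ m0))))) (mono (by omega) (hx _ _ m0)))
        (mono (by omega) (hy _ _ m0))) (mono (by omega) m1)) hv

theorem fr [Fintype ι] (M : ℕ) : Module.finrank ℚ (V s y z r M) ≤ 3 * r * (M + 1) := by
  classical
  have a : V s y z r M ≤ Submodule.span ℚ (((range (M + 1) ×ˢ range r ×ˢ range 3).image
      fun p : ℕ × ℕ × ℕ => s ^ p.1 * y ^ p.2.1 * z ^ p.2.2 : Finset (ι → ℚ)) : Set (ι → ℚ)) :=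
    Submodule.span_mono fun _ ⟨i, l, k, a, b, c, d⟩ => mem_coe.2 (mem_image.2 ⟨(i, l, k),
      mem_product.2 ⟨mem_range.2 (by omega), mem_product.2 ⟨mem_range.2 a, mem_range.2 b⟩⟩, d.symm⟩)
  refine (Submodule.finrank_mono a).trans ((finrank_span_finset_le_card _).trans
    (card_image_le.trans (le_of_eq ?_)))
  simp only [card_product, card_range]
  ring

end HI1x

open HI1x

theorem hi1 : S_HI1 := by
  intro ι _ s y z P j hP h1 h2
  refine ⟨V s y z P.natDegree, fr, ?_, fun M v hv => ⟨mono (Nat.le_succ M) hv, cs hv, cy hP h1 hv,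
    cz (fun _ _ hv => cy hP h1 hv) h2 hv⟩⟩
  rcases P.natDegree.eq_zero_or_pos with h | h
  · have e : P = 1 := hP.1.natDegree_eq_zero.1 h
    have : (1 : ι → ℚ) = 0 := funext fun i => by simpa [e] using h1 i
    rw [this]
    exact zero_mem _
  · simpa using mem (s := s) (y := y) (z := z) (M := 0) (i := 0) (l := 0) (k := 0) h (by omega)
      le_rfl

end Pool.Agent.MP_47f5fb_nt.Ct
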