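import Pool.Agent.MP_47f5fb_nt.Ct.Spec

/-! A curve on the surface projects to a plane curve of bounded degree. -/

set_option autoImplicit false

namespace Pool.Agent.MP_47f5fb_nt.Ct

open Polynomial Finset

namespace HILx

theorem mono {ι : Type} {V : ℕ → Submodule ℚ (ι → ℚ)} (h : ∀ M, ∀ v ∈ V M, v ∈ V (M + 1))
    {a b : ℕ} (hab : a ≤ b) {v : ι → ℚ} (hv : v ∈ V a) : v ∈ V b := by
  induction hab with
  | refl => exact hv
  | step _ ih => exact h _ _ ih

theorem powm {ι : Type} {V : ℕ → Submodule ℚ (ι → ℚ)} {f : ι → ℚ}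
    (h : ∀ M, ∀ v ∈ V M, f * v ∈ V (M + 1)) (k : ℕ) {a : ℕ} {v : ι → ℚ} (hv : v ∈ V a) :
    f ^ k * v ∈ V (a + k) := by
  induction k with
  | zero => simpa using hv
  | succ k ih =>
    rw [pow_succ', mul_assoc, ← add_assoc]
    exact h _ _ ih

/-- the polynomial with given coefficients -/
noncomputable def pol {n : ℕ} (φ : Fin n × Fin n → ℚ) : ℚ[X][X] :=
  ∑ i : Fin n, monomial (i : ℕ) (∑ k : Fin n, monomial (k : ℕ) (φ (k, i)))

theorem coeff_fin {R : Type} [Semiring R] {n : ℕ} (c : Fin n → R) (i : Fin n) :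
    (∑ k : Fin n, monomial (k : ℕ) (c k)).coeff i = c i := by
  rw [finsetSum_coeff, sum_eq_single i]
  · simp
  · intro b _ hb
    rw [coeff_monomial, if_neg fun h => hb (Fin.ext h)]
  · simp

theorem deg_fin {R : Type} [Semiring R] {M : ℕ} (c : Fin (M + 1) → R) :
    (∑ k : Fin (M + 1), monomial (k : ℕ) (c k)).natDegree ≤ M :=
  natDegree_sum_le_of_forall_le _ _ fun k _ =>
    (natDegree_monomial_le _).trans (Nat.lt_succ_iff.1 k.2)

theorem pol_bd {M : ℕ} (φ : Fin (M + 1) × Fin (M + 1) → ℚ) : Bd M (pol φ) := by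
  refine ⟨deg_fin _, fun i => ?_⟩
  rcases le_or_gt i M with h | h
  · have := coeff_fin (fun i : Fin (M + 1) => ∑ k : Fin (M + 1), monomial (k : ℕ) (φ (k, i)))
      ⟨i, Nat.lt_succ_of_le h⟩
    rw [pol, this]
    exact deg_fin _
  · rw [pol, coeff_eq_zero_of_natDegree_lt (lt_of_le_of_lt (deg_fin _) h)]
    simp

theorem pol_ne {n : ℕ} (φ : Fin n × Fin n → ℚ) (h : pol φ = 0) (c : Fin n × Fin n) : φ c = 0 := by
  have a := coeff_fin (fun i : Fin n => ∑ k : Fin n, monomial (k : ℕ) (φ (k, i))) c.2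
  rw [← pol, h, coeff_zero] at a
  have b := coeff_fin (fun k : Fin n => φ (k, c.2)) c.1
  rw [← a, coeff_zero] at b
  exact b.symm

theorem pol_eval {n : ℕ} (φ : Fin n × Fin n → ℚ) (a b : ℚ) :
    (pol φ).evalEval a b = ∑ c : Fin n × Fin n, φ c * (a ^ (c.1 : ℕ) * b ^ (c.2 : ℕ)) := by
  rw [Fintype.sum_prod_type_right, pol, evalEval, eval_finsetSum, eval_finsetSum]
  refine sum_congr rfl fun i _ => ?_
  rw [eval_monomial, eval_mul, eval_pow, eval_C, eval_finsetSum, sum_mul]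
  refine sum_congr rfl fun k _ => ?_
  rw [eval_monomial, mul_assoc]

end HILx

theorem hil (mn : S_MON) (hi1 : S_HI1) : S_HIL := by
  classical
  intro d
  refine ⟨12 * d, fun S R hS hR hB h0 l m => ?_⟩
  obtain ⟨j, P, -, hP, hd, hz⟩ := mn d R hR hB
  obtain ⟨V, v1, v2, v3⟩ := hi1 {p // p ∈ S} (fun p => (p.1.1 : ℚ) - j * (p.1.2.1 : ℚ))
    (fun p => (p.1.2.1 : ℚ)) (fun p => (p.1.2.2 : ℚ)) P j hP (fun p => hz _ _ (h0 p.1 p.2))
    (fun p => by
      have e : (p.1.1 : ℚ) ^ 3 + p.1.1 + (p.1.2.1 : ℚ) ^ 3 + p.1.2.1 + (p.1.2.2 : ℚ) ^ 3 + p.1.2.2 =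
          p.1.1 * p.1.2.1 * p.1.2.2 + 1 := by exact_mod_cast hS p.1 p.2
      simp only [Fb, Matrix.cons_val_zero, Matrix.cons_val_one, Matrix.cons_val]
      linear_combination e)
  have st : ∀ l : Fin 3 → ℚ, ∀ M, ∀ v ∈ V M,
      (fun p : {p // p ∈ S} => lf l p.1) * v ∈ V (M + 1) := fun l M v hv => by
    obtain ⟨-, a, b, c⟩ := v3 M v hv
    have := (V (M + 1)).add_mem ((V (M + 1)).add_mem ((V (M + 1)).smul_mem (l 0) a)
      ((V (M + 1)).smul_mem (l 0 * j + l 1) b)) ((V (M + 1)).smul_mem (l 2) c)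
    refine (congrArg (· ∈ V (M + 1)) (funext fun p => ?_)).mp this
    simp only [lf, Pi.add_apply, Pi.smul_apply, Pi.mul_apply, smul_eq_mul]
    ring
  have mem : ∀ c : Fin (12 * d + 1) × Fin (12 * d + 1),
      (fun p : {p // p ∈ S} => lf l p.1) ^ (c.1 : ℕ) *
        (fun p : {p // p ∈ S} => lf m p.1) ^ (c.2 : ℕ) ∈ V (24 * d) := fun c => by
    have a := HILx.powm (st l) c.1 (HILx.powm (st m) c.2 v2)
    rw [mul_one] at a
    refine HILx.mono (fun M v hv => (v3 M v hv).1) ?_ a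
    have := c.1.2
    have := c.2.2
    omega
  have dep : ¬ LinearIndependent ℚ fun c => (⟨_, mem c⟩ : V (24 * d)) := fun h => by
    have a := h.fintype_card_le_finrank.trans (v1 _)
    rw [Fintype.card_prod, Fintype.card_fin] at a
    have b : 3 * P.natDegree * (24 * d + 1) ≤ 3 * (2 * d) * (24 * d + 1) := by gcongr
    nlinarith
  obtain ⟨φ, h1, c, h2⟩ := Fintype.not_linearIndependent_iff.1 dep
  refine ⟨HILx.pol φ, fun h => h2 (HILx.pol_ne φ h c), HILx.pol_bd φ, fun p hp => ?_⟩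
  have := congrFun (congrArg Subtype.val h1) ⟨p, hp⟩
  rw [HILx.pol_eval]
  simpa [Finset.sum_apply] using this

end Pool.Agent.MP_47f5fb_nt.Ct
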