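import Pool.Agent.MP_47f5fb_nt.Ct.Spec

/-! An integral auxiliary curve of small height and a simple branch at every point. -/

set_option autoImplicit false

namespace Pool.Agent.MP_47f5fb_nt.Ct

open Polynomial Finset

namespace HTx

theorem expand {A : Type} [CommRing A] {d : ℕ} {P : A[X][X]} (h1 : P.natDegree ≤ d)
    (h2 : ∀ i, (P.coeff i).natDegree ≤ d) (s a : A) :
    P.evalEval s a = ∑ c : Fin (d + 1) × Fin (d + 1),
      (P.coeff c.1).coeff c.2 * (a ^ (c.1 : ℕ) * s ^ (c.2 : ℕ)) := by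
  rw [Fintype.sum_prod_type, evalEval, eval_eq_sum_range' (Nat.lt_succ_of_le h1),
    eval_finsetSum, Finset.sum_range]
  refine Finset.sum_congr rfl fun i _ => ?_
  rw [eval_mul, eval_pow, eval_C, eval_eq_sum_range' (Nat.lt_succ_of_le (h2 i)),
    Finset.sum_range, Finset.sum_mul]
  exact Finset.sum_congr rfl fun k _ => by ring

theorem mon_le {d : ℕ} {a s : ℤ} {Y : ℝ} (hY : 1 ≤ Y) (ha : |(a : ℝ)| ≤ Y) (hs : |(s : ℝ)| ≤ Y)
    (c : Fin (d + 1) × Fin (d + 1)) :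
    |((a ^ (c.1 : ℕ) * s ^ (c.2 : ℕ) : ℤ) : ℝ)| ≤ Y ^ (2 * d) := by
  push_cast
  rw [abs_mul, abs_pow, abs_pow, two_mul, pow_add]
  have h0 : 0 ≤ Y := zero_le_one.trans hY
  exact mul_le_mul
    ((pow_le_pow_left₀ (abs_nonneg _) ha _).trans (pow_le_pow_right₀ hY (Nat.le_of_lt_succ c.1.2)))
    ((pow_le_pow_left₀ (abs_nonneg _) hs _).trans (pow_le_pow_right₀ hY (Nat.le_of_lt_succ c.2.2)))
    (by positivity) (by positivity)

/-- bounded degrees and coefficients -/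
def H (d : ℕ) (M : ℝ) (P : ℤ[X][X]) : Prop := P.natDegree ≤ d ∧
  (∀ i, (P.coeff i).natDegree ≤ d) ∧ ∀ i k, |(((P.coeff i).coeff k : ℤ) : ℝ)| ≤ M

theorem H.der {d : ℕ} {M : ℝ} {P : ℤ[X][X]} (h : H d M P) : H d ((d + 1) * M) (derivative P) := by
  have hM : 0 ≤ M := (abs_nonneg _).trans (h.2.2 0 0)
  have e : ∀ i : ℕ, (derivative P).coeff i = P.coeff (i + 1) * C ((i : ℤ) + 1) := fun i => by
    rw [coeff_derivative]
    simp
  refine ⟨(natDegree_derivative_le P).trans ((Nat.sub_le _ _).trans h.1), fun i => ?_,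
    fun i k => ?_⟩
  · rw [e]
    exact (natDegree_mul_C_le _ _).trans (h.2.1 _)
  · rw [e, coeff_mul_C]
    by_cases hi : i ≤ d
    · push_cast
      rw [abs_mul, mul_comm, abs_of_nonneg (by positivity)]
      have h3 : (i : ℝ) ≤ d := by exact_mod_cast hi
      exact mul_le_mul (by linarith) (h.2.2 _ _) (abs_nonneg _) (by positivity)
    · rw [coeff_eq_zero_of_natDegree_lt (p := P) (by have := h.1; omega)]
      simp only [coeff_zero, zero_mul, Int.cast_zero, abs_zero]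
      positivity

theorem H.iter {d : ℕ} {M : ℝ} {P : ℤ[X][X]} (h : H d M P) (k : ℕ) :
    H d ((d + 1) ^ k * M) (derivative^[k] P) := by
  induction k with
  | zero => simpa using h
  | succ k ih =>
    rw [Function.iterate_succ_apply', pow_succ', mul_assoc]
    exact ih.der

theorem H.ev {d : ℕ} {M : ℝ} {P : ℤ[X][X]} (h : H d M P) {a s : ℤ} {Y : ℝ} (hY : 1 ≤ Y)
    (ha : |(a : ℝ)| ≤ Y) (hs : |(s : ℝ)| ≤ Y) :
    |((P.evalEval s a : ℤ) : ℝ)| ≤ ((d + 1) * (d + 1) : ℕ) * (M * Y ^ (2 * d)) := by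
  have hM : 0 ≤ M := (abs_nonneg _).trans (h.2.2 0 0)
  rw [expand h.1 h.2.1, Int.cast_sum]
  refine (Finset.abs_sum_le_sum_abs _ _).trans ((Finset.sum_le_card_nsmul _ _ (M * Y ^ (2 * d))
    fun c _ => ?_).trans (by simp))
  rw [Int.cast_mul, abs_mul]
  exact mul_le_mul (h.2.2 _ _) (mon_le hY ha hs c) (abs_nonneg _) hM

/-- the first derivative that does not vanish -/
theorem first {g : ℤ[X]} (hg : g ≠ 0) {a : ℤ} (ha : g.eval a = 0) :
    ∃ k : ℕ, k ≤ g.natDegree ∧ (derivative^[k] g).eval a = 0 ∧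
      (derivative^[k + 1] g).eval a ≠ 0 := by
  have h1 : 0 < g.rootMultiplicity a := (rootMultiplicity_pos hg).2 ha
  have h2 : g.rootMultiplicity a ≤ g.natDegree := by
    have h4 := natDegree_le_of_dvd (g.pow_rootMultiplicity_dvd a) hg
    rwa [(monic_X_sub_C a).natDegree_pow, natDegree_X_sub_C, mul_one] at h4
  obtain ⟨k, hk⟩ : ∃ k, g.rootMultiplicity a = k + 1 := ⟨_, (Nat.sub_add_cancel h1).symm⟩
  refine ⟨k, by omega, isRoot_iterate_derivative_of_lt_rootMultiplicity (by omega), fun h => ?_⟩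
  have h3 : k + 1 < g.rootMultiplicity a :=
    (lt_rootMultiplicity_iff_isRoot_iterate_derivative hg).2 fun m hm => by
      rcases hm.lt_or_eq with h4 | rfl
      · exact isRoot_iterate_derivative_of_lt_rootMultiplicity (by omega)
      · exact h
  omega

/-- the polynomial with given coefficients -/
theorem mk {d : ℕ} {M : ℝ} (hM : 0 ≤ M) (ψ : Fin (d + 1) × Fin (d + 1) → ℤ)
    (h : ∀ c, |(ψ c : ℝ)| ≤ M) :
    ∃ P : ℤ[X][X], H d M P ∧ ∀ c : Fin (d + 1) × Fin (d + 1), (P.coeff c.1).coeff c.2 = ψ c := by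
  refine ⟨ofFn (d + 1) fun i => ofFn (d + 1) fun k => ψ (i, k),
    ⟨Nat.le_of_lt_succ (ofFn_natDegree_lt (by omega) _), fun i => ?_, fun i k => ?_⟩, fun c => ?_⟩
  · rcases lt_or_ge i (d + 1) with hi | hi
    · rw [ofFn_coeff_eq_val_of_lt _ hi]
      exact Nat.le_of_lt_succ (ofFn_natDegree_lt (by omega) _)
    · rw [ofFn_coeff_eq_zero_of_ge _ hi]
      simp
  · rcases lt_or_ge i (d + 1) with hi | hi
    · rw [ofFn_coeff_eq_val_of_lt _ hi]
      rcases lt_or_ge k (d + 1) with hk | hk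
      · rw [ofFn_coeff_eq_val_of_lt _ hk]
        exact h _
      · rw [ofFn_coeff_eq_zero_of_ge _ hk]
        simpa using hM
    · rw [ofFn_coeff_eq_zero_of_ge _ hi]
      simpa using hM
  · rw [ofFn_coeff_eq_val_of_lt _ c.1.2, ofFn_coeff_eq_val_of_lt _ c.2.2]

end HTx

open HTx

theorem ht (sie : S_SIE) : S_HT := by
  intro d
  obtain ⟨N, hN⟩ : ∃ N : ℕ, N = (d + 1) * (d + 1) := ⟨_, rfl⟩
  refine ⟨N * ((d + 1) ^ (d + 1) * N ^ N) + (2 * d * N + 2 * d) + 1, by omega,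
    fun ι T b a Y R hY hT hR hB h0 => ?_⟩
  have hY' : 1 ≤ Y ^ (2 * d) := one_le_pow₀ hY
  obtain ⟨ψ, ψ0, ψ1, ψ2⟩ := sie (Fin (d + 1) × Fin (d + 1)) T
    (fun p c => a p ^ (c.1 : ℕ) * b p ^ (c.2 : ℕ)) (Y ^ (2 * d)) hY'
    (fun p c => mon_le hY (hT p p.2).2 (hT p p.2).1 c)
    ⟨fun c => (R.coeff c.1).coeff c.2, fun h => hR (by
      ext i k
      rcases lt_or_ge i (d + 1) with hi | hi
      · rcases lt_or_ge k (d + 1) with hk | hk
        · exact congrFun h (⟨i, hi⟩, ⟨k, hk⟩)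
        · rw [coeff_eq_zero_of_natDegree_lt (by have := hB.2 i; omega)]
          simp
      · rw [coeff_eq_zero_of_natDegree_lt (p := R) (by have := hB.1; omega)]
        simp), fun p => by
      have h1 := h0 p p.2
      rw [expand hB.1 hB.2] at h1
      simpa using h1⟩
  have hc : Fintype.card (Fin (d + 1) × Fin (d + 1)) = N := by simp [hN]
  rw [hc] at ψ1
  obtain ⟨P, hP, e⟩ := mk (by positivity) ψ ψ1
  have hP0 : P ≠ 0 := fun h => ψ0 (funext fun c => by rw [← e, h]; simp)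
  have hL : P.leadingCoeff ≠ 0 := leadingCoeff_ne_zero.2 hP0
  refine ⟨P, P.leadingCoeff.roots.toFinset,
    (Multiset.toFinset_card_le _).trans ((card_roots' _).trans (hP.2.1 _)), fun p hp => ?_⟩
  by_cases hZ : b p ∈ P.leadingCoeff.roots.toFinset
  · exact Or.inl hZ
  right
  have hg : P.map (evalRingHom (b p)) ≠ 0 := fun h => hZ (by
    have h1 := congrArg (fun g => coeff g P.natDegree) h
    rw [Multiset.mem_toFinset, mem_roots hL]
    simpa using h1)
  obtain ⟨k, k1, k2, k3⟩ := first hg (a := a p) (by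
    rw [map_evalRingHom_eval, expand hP.1 hP.2.1]
    simpa only [e] using ψ2 ⟨p, hp⟩)
  have k4 : k ≤ d := k1.trans (natDegree_map_le.trans hP.1)
  rw [iterate_derivative_map, map_evalRingHom_eval] at k2 k3
  have k5 := (hP.iter (k + 1)).ev hY (hT p hp).2 (hT p hp).1
  rw [Function.iterate_succ_apply'] at k3 k5
  refine ⟨k, k4, k2, k3, k5.trans ?_⟩
  have h1 : ((d : ℝ) + 1) ^ (k + 1) ≤ ((d : ℝ) + 1) ^ (d + 1) :=
    pow_le_pow_right₀ (by simp) (by omega)
  have h0' : 0 ≤ Y := zero_le_one.trans hY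
  calc (((d + 1) * (d + 1) : ℕ) : ℝ) *
        (((d : ℝ) + 1) ^ (k + 1) * ((N : ℝ) * Y ^ (2 * d)) ^ N * Y ^ (2 * d))
      = (N : ℝ) * (((d : ℝ) + 1) ^ (k + 1) * (N : ℝ) ^ N) * Y ^ (2 * d * N + 2 * d) := by
        rw [← hN, mul_pow, ← pow_mul, pow_add Y]
        ring
    _ ≤ _ := by
        refine mul_le_mul ?_ (pow_le_pow_right₀ hY (by omega)) (by positivity) (by positivity)
        push_cast
        have h2 : (N : ℝ) * (((d : ℝ) + 1) ^ (k + 1) * (N : ℝ) ^ N) ≤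
            (N : ℝ) * (((d : ℝ) + 1) ^ (d + 1) * (N : ℝ) ^ N) := by gcongr
        have h3 : (0 : ℝ) ≤ 2 * d * N + 2 * d := by positivity
        linarith

end Pool.Agent.MP_47f5fb_nt.Ct
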