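import Pool.Agent.MP_47f5fb_nt.Ct.Spec

/-! Row LIN of the counting chain: if every square selection of rows is singular, then the rows
satisfy a common nonzero rational linear relation. -/

namespace Pool.Agent.MP_47f5fb_nt.Ct

open Polynomial Finset

theorem lin : S_LIN := by
  intro ι S _ _ r hdet
  let row : S → ι → ℚ := fun s c => (r s c : ℚ)
  rcases eq_or_ne (Submodule.span ℚ (Set.range row)) ⊤ with hs | hs
  · exfalso
    obtain ⟨f, h2, -, h3⟩ := Submodule.exists_fun_fin_finrank_span_eq ℚ (Set.range row)
    choose p hp using h2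
    let e := Fintype.equivFinOfCardEq (α := ι)
      (n := Module.finrank ℚ (Submodule.span ℚ (Set.range row)))
      (by rw [hs, finrank_top, Module.finrank_fintype_fun_eq_card])
    let M : Matrix ι ι ℤ := Matrix.of fun i c => r (p (e i)) c
    have h4 : ((M.det : ℤ) : ℚ) = (M.map (Int.cast : ℤ → ℚ)).det := Int.cast_det M
    have h6 : (M.map (Int.cast : ℤ → ℚ)).row = f ∘ e := by
      funext i
      exact hp (e i)
    have h5 : (M.map (Int.cast : ℤ → ℚ)).det ≠ 0 := by
      refine ((Matrix.isUnit_iff_isUnit_det _).1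
        (Matrix.linearIndependent_rows_iff_isUnit.1 ?_)).ne_zero
      rw [h6]
      exact h3.comp _ e.injective
    apply h5
    rw [← h4]
    have h7 : M.det = 0 := hdet fun i => p (e i)
    rw [h7, Int.cast_zero]
  · obtain ⟨φ, h0, hφ⟩ := Submodule.exists_dual_map_eq_bot_of_lt_top hs.lt_top inferInstance
    refine ⟨fun c => φ (Pi.single c 1), fun h => h0 ((Pi.basisFun ℚ _).ext fun c => ?_),
      fun s => ?_⟩
    · have := congrFun h c
      simpa using this
    · have h1 : φ (row s) = 0 := (Submodule.eq_bot_iff _).1 hφ _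
        (Submodule.mem_map_of_mem (Submodule.subset_span ⟨_, rfl⟩))
      rw [pi_eq_sum_univ' (row s), map_sum] at h1
      rw [← h1]
      refine sum_congr rfl fun c _ => ?_
      rw [map_smul, smul_eq_mul, mul_comm]

end Pool.Agent.MP_47f5fb_nt.Ct
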