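import Pool.Agent.MP_47f5fb_nt.Ct.Spec

/-! From dyadic shells to boxes. -/

set_option autoImplicit false

namespace Pool.Agent.MP_47f5fb_nt.Ct

open Polynomial Finset

namespace MAIx

theorem box (N : ℕ) (S : Finset Z3)
    (h : ∀ P ∈ S, |(P.1 : ℝ)| ≤ N ∧ |(P.2.1 : ℝ)| ≤ N ∧ |(P.2.2 : ℝ)| ≤ N) :
    S.card ≤ (2 * N + 1) ^ 3 := by
  have m : ∀ z : ℤ, |(z : ℝ)| ≤ N → z ∈ Icc (-(N : ℤ)) N := fun z hz => by
    have : |z| ≤ (N : ℤ) := by exact_mod_cast hz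
    exact mem_Icc.2 (abs_le.1 this)
  have c : (Icc (-(N : ℤ)) N).card = 2 * N + 1 := by
    rw [Int.card_Icc]
    omega
  calc S.card ≤ (Icc (-(N : ℤ)) N ×ˢ Icc (-(N : ℤ)) N ×ˢ Icc (-(N : ℤ)) N).card :=
        card_le_card fun P hP => mem_product.2 ⟨m _ (h P hP).1,
          mem_product.2 ⟨m _ (h P hP).2.1, m _ (h P hP).2.2⟩⟩
    _ = _ := by
      rw [card_product, card_product, c]
      ring

theorem half {σ : ℝ} (h : 3 / 4 ≤ σ) : (1 / 2 : ℝ) ^ σ ≤ 2 / 3 := by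
  refine (Real.rpow_le_rpow_of_exponent_ge (by norm_num) (by norm_num) h).trans ?_
  refine le_of_pow_le_pow_left₀ (n := 4) (by norm_num) (by norm_num) ?_
  rw [← Real.rpow_natCast, ← Real.rpow_mul (by norm_num)]
  norm_num

end MAIx

theorem mai (shl : S_SHL) : S_MAIN := by
  intro ε hε
  obtain ⟨K, B0, K0, h⟩ := shl ε hε
  generalize hσ : (23 / 24 + ε : ℝ) = σ at h ⊢
  have s0 : 3 / 4 ≤ σ := by linarith
  obtain ⟨N, hN⟩ := exists_nat_ge (max B0 1)
  have N1 : (1 : ℝ) ≤ N := (le_max_right _ _).trans hN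
  have small : ∀ B : ℝ, 0 ≤ B → B ≤ N → ∀ S : Finset Z3,
      (∀ P ∈ S, Sol P ∧ |(P.1 : ℝ)| ≤ B ∧ |(P.2.1 : ℝ)| ≤ B ∧ |(P.2.2 : ℝ)| ≤ B) →
      (S.card : ℝ) ≤ (2 * N + 1) ^ 3 + 3 * K * B ^ σ := fun B b0 b1 S hS => by
    have e : (S.card : ℝ) ≤ (2 * N + 1) ^ 3 := by
      exact_mod_cast MAIx.box N S fun P hP =>
        ⟨(hS P hP).2.1.trans b1, (hS P hP).2.2.1.trans b1, (hS P hP).2.2.2.trans b1⟩
    have : 0 ≤ 3 * K * B ^ σ := by positivity
    linarith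
  have key : ∀ (n : ℕ) (B : ℝ), 0 ≤ B → B ≤ 2 ^ n * N → ∀ S : Finset Z3,
      (∀ P ∈ S, Sol P ∧ |(P.1 : ℝ)| ≤ B ∧ |(P.2.1 : ℝ)| ≤ B ∧ |(P.2.2 : ℝ)| ≤ B) →
      (S.card : ℝ) ≤ (2 * N + 1) ^ 3 + 3 * K * B ^ σ := by
    intro n
    induction n with
    | zero => exact fun B b0 b1 => small B b0 (by simpa using b1)
    | succ n ih =>
      intro B b0 b1 S hS
      rcases le_total B N with c | c
      · exact small B b0 c S hS
      classical
      let p : Z3 → Prop := fun P =>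
        B / 2 < |(P.1 : ℝ)| ∨ B / 2 < |(P.2.1 : ℝ)| ∨ B / 2 < |(P.2.2 : ℝ)|
      have e : ((S.filter p).card : ℝ) + (S.filter fun P => ¬ p P).card = S.card := by
        exact_mod_cast card_filter_add_card_filter_not (s := S) p
      have h1 := h B (((le_max_left _ _).trans hN).trans c) (S.filter p) fun P hP =>
        let ⟨q, r⟩ := mem_filter.1 hP
        ⟨(hS P q).1, (hS P q).2.1, (hS P q).2.2.1, (hS P q).2.2.2, r⟩
      have h2 := ih (B / 2) (by linarith) (by rw [pow_succ] at b1; linarith)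
        (S.filter fun P => ¬ p P) fun P hP => by
          obtain ⟨q, r⟩ := mem_filter.1 hP
          simp only [p, not_or, not_lt] at r
          exact ⟨(hS P q).1, r⟩
      have h3 : (B / 2) ^ σ ≤ B ^ σ * (2 / 3) := by
        rw [div_eq_mul_one_div, Real.mul_rpow b0 (by norm_num)]
        exact mul_le_mul_of_nonneg_left (MAIx.half s0) (Real.rpow_nonneg b0 _)
      have h4 := mul_le_mul_of_nonneg_left h3 K0
      linarith
  refine ⟨(2 * N + 1) ^ 3 + 3 * K, fun B S hS => ?_⟩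
  rcases Nat.eq_zero_or_pos B with rfl | B1
  · have : S = ∅ := eq_empty_of_forall_notMem fun P hP => by
      obtain ⟨a, b, c, d⟩ := hS P hP
      simp only [Nat.cast_zero, abs_nonpos_iff] at b c d
      rw [Sol, b, c, d] at a
      norm_num at a
    rw [this, card_empty, Nat.cast_zero]
    positivity
  have b1 : (1 : ℝ) ≤ B := by exact_mod_cast B1
  have b2 : (B : ℝ) ≤ 2 ^ B * N := by
    have : (B : ℝ) ≤ 2 ^ B := by exact_mod_cast Nat.lt_two_pow_self.le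
    nlinarith
  have k := key B B (by linarith) b2 S fun P hP =>
    let ⟨a, b, c, d⟩ := hS P hP
    ⟨a, by exact_mod_cast b, by exact_mod_cast c, by exact_mod_cast d⟩
  have o : (1 : ℝ) ≤ (B : ℝ) ^ σ := Real.one_le_rpow b1 (by linarith)
  have : (0 : ℝ) ≤ (2 * N + 1) ^ 3 := by positivity
  nlinarith

end Pool.Agent.MP_47f5fb_nt.Ct
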