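import Pool.Agent.MP_47f5fb_nt.Ct.Spec

/-! A shear makes a plane curve monic with total degree equal to its degree. -/

set_option autoImplicit false

namespace Pool.Agent.MP_47f5fb_nt.Ct

open Polynomial Finset

namespace MONx

/-- total degree at most `n` -/
def Q (n : ℕ) (P : ℚ[X][X]) : Prop := P.natDegree ≤ n ∧ ∀ i, (P.coeff i).natDegree ≤ n - i

theorem mono {n m : ℕ} {P : ℚ[X][X]} (h : n ≤ m) (q : Q n P) : Q m P :=
  ⟨q.1.trans h, fun i => (q.2 i).trans (by omega)⟩

theorem sum {ι : Type} {n : ℕ} (s : Finset ι) (f : ι → ℚ[X][X]) (h : ∀ i ∈ s, Q n (f i)) :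
    Q n (∑ i ∈ s, f i) :=
  ⟨natDegree_sum_le_of_forall_le _ _ fun i hi => (h i hi).1, fun j => by
    rw [finsetSum_coeff]
    exact natDegree_sum_le_of_forall_le _ _ fun i hi => (h i hi).2 j⟩

theorem mul {n m : ℕ} {P R : ℚ[X][X]} (p : Q n P) (r : Q m R) : Q (n + m) (P * R) := by
  refine ⟨natDegree_mul_le.trans (add_le_add p.1 r.1), fun i => ?_⟩
  rw [coeff_mul]
  refine natDegree_sum_le_of_forall_le _ _ fun x hx => ?_
  have e := mem_antidiagonal.1 hx
  by_cases a : n < x.1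
  · simp [coeff_eq_zero_of_natDegree_lt (p.1.trans_lt a)]
  by_cases b : m < x.2
  · simp [coeff_eq_zero_of_natDegree_lt (r.1.trans_lt b)]
  have := p.2 x.1
  have := r.2 x.2
  exact natDegree_mul_le.trans (by omega)

theorem cc (a : ℚ) : Q 0 (C (C a)) :=
  ⟨by simp, fun i => by rw [coeff_C]; split_ifs <;> simp⟩

theorem pow {P : ℚ[X][X]} (p : Q 1 P) (k : ℕ) : Q k (P ^ k) := by
  induction k with
  | zero => simpa using cc 1
  | succ k ih => rw [pow_succ]; exact mul ih p

theorem qX : Q 1 X := ⟨by simp, fun i => by rw [coeff_X]; split_ifs <;> simp⟩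

/-- the sheared inner variable -/
noncomputable def L (j : ℚ) : ℚ[X][X] := C X + C (C j) * X

theorem qL (j : ℚ) : Q 1 (L j) := by
  refine ⟨by unfold L; compute_degree, fun i => ?_⟩
  rcases i with _ | _ | i <;> simp [L, coeff_X, coeff_C]

/-- one term -/
noncomputable def tm (j r : ℚ) (x : ℕ × ℕ) : ℚ[X][X] := C (C r) * (L j ^ x.2 * X ^ x.1)

theorem qt (j r : ℚ) (x : ℕ × ℕ) : Q (x.1 + x.2) (tm j r x) :=
  mono (by omega) (mul (cc r) (mul (pow (qL j) x.2) (pow qX x.1)))

theorem top (j r : ℚ) (x : ℕ × ℕ) : (tm j r x).coeff (x.1 + x.2) = C (r * j ^ x.2) := by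
  have := coeff_pow_of_natDegree_le (m := x.2) (qL j).1
  rw [mul_one] at this
  rw [tm, coeff_C_mul, add_comm, coeff_mul_X_pow, this]
  simp [L, coeff_C]

end MONx

open MONx in
theorem mn : S_MON := by
  intro d R R0 hB
  let r : ℕ × ℕ → ℚ := fun x => (R.coeff x.1).coeff x.2
  let S := (range (d + 1) ×ˢ range (d + 1)).filter fun x => r x ≠ 0
  have ne : S.Nonempty := by
    have a : R.leadingCoeff ≠ 0 := leadingCoeff_ne_zero.2 R0
    refine ⟨(R.natDegree, R.leadingCoeff.natDegree), mem_filter.2 ⟨mem_product.2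
      ⟨mem_range.2 (Nat.lt_succ_of_le hB.1), mem_range.2 (Nat.lt_succ_of_le (hB.2 _))⟩, ?_⟩⟩
    exact leadingCoeff_ne_zero.2 a
  obtain ⟨x0, h0, hm⟩ := exists_max_image S (fun x => x.1 + x.2) ne
  have bd : ∀ x ∈ S, x.1 ≤ d ∧ x.2 ≤ d := fun x hx => by
    have := mem_product.1 (mem_filter.1 hx).1
    simp only [mem_range] at this
    omega
  let h : ℚ[X] := ∑ x ∈ S.filter (fun x => x.1 + x.2 = x0.1 + x0.2), C (r x) * X ^ x.2
  have h1 : h ≠ 0 := by
    intro e
    have : h.coeff x0.2 = r x0 := by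
      rw [finsetSum_coeff, sum_eq_single_of_mem x0]
      · simp
      · exact mem_filter.2 ⟨h0, rfl⟩
      · intro y hy k
        have := (mem_filter.1 hy).2
        rw [coeff_C_mul_X_pow, if_neg fun q => k (Prod.ext (by omega) q.symm)]
    rw [e, coeff_zero] at this
    exact (mem_filter.1 h0).2 this.symm
  have h2 : h.natDegree ≤ d := natDegree_sum_le_of_forall_le _ _ fun x hx =>
    (natDegree_C_mul_X_pow_le _ _).trans (bd x (mem_filter.1 hx).1).2
  obtain ⟨j, hj, hj0⟩ : ∃ j ∈ range (d + 1), h.eval (j : ℚ) ≠ 0 := by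
    by_contra k
    push Not at k
    refine h1 (eq_zero_of_natDegree_lt_card_of_eval_eq_zero' h
      ((range (d + 1)).image (Nat.cast : ℕ → ℚ)) (fun i hi => ?_) ?_)
    · obtain ⟨j, hj, rfl⟩ := mem_image.1 hi
      exact k j hj
    · rw [card_image_of_injective _ Nat.cast_injective, card_range]
      omega
  let P0 : ℚ[X][X] := ∑ x ∈ S, tm j (r x) x
  have q0 : Q (x0.1 + x0.2) P0 := sum _ _ fun x hx => mono (hm x hx) (qt _ _ x)
  have c0 : P0.coeff (x0.1 + x0.2) = C (h.eval (j : ℚ)) := by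
    rw [finsetSum_coeff, eval_finsetSum, map_sum, sum_filter (s := S)]
    refine sum_congr rfl fun x hx => ?_
    split_ifs with k
    · rw [← k, top]; simp
    · exact coeff_eq_zero_of_natDegree_lt ((qt _ _ x).1.trans_lt (lt_of_le_of_ne (hm x hx) k))
  have q1 := mul (cc (h.eval (j : ℚ))⁻¹) q0
  rw [zero_add] at q1
  have c1 : (C (C (h.eval (j : ℚ))⁻¹) * P0).coeff (x0.1 + x0.2) = 1 := by
    rw [coeff_C_mul, c0, ← map_mul, inv_mul_cancel₀ hj0, map_one]
  have dg := natDegree_eq_of_le_of_coeff_ne_zero q1.1 (c1 ▸ one_ne_zero)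
  have := mem_range.1 hj
  have := bd x0 h0
  refine ⟨j, _, by omega, ⟨monic_of_natDegree_le_of_coeff_eq_one _ q1.1 c1, dg ▸ q1.2⟩,
    by omega, fun b c e => ?_⟩
  have a : P0.evalEval (b - j * c) c = R.evalEval b c := by
    have : R.evalEval b c = ∑ x ∈ range (d + 1) ×ˢ range (d + 1), r x * (b ^ x.2 * c ^ x.1) := by
      rw [evalEval, eval_eq_sum_range' (Nat.lt_succ_of_le hB.1), eval_finsetSum, sum_product]
      refine sum_congr rfl fun i _ => ?_
      rw [eval_mul, eval_pow, eval_C, eval_eq_sum_range' (Nat.lt_succ_of_le (hB.2 i)), sum_mul]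
      exact sum_congr rfl fun k _ => mul_assoc _ _ _
    rw [this, evalEval_finsetSum, sum_filter]
    refine sum_congr rfl fun x _ => ?_
    split_ifs with k
    · simp [tm, L, evalEval_pow, evalEval_C]
    · simp [not_not.1 k]
  rw [evalEval_mul, a, e, mul_zero]

end Pool.Agent.MP_47f5fb_nt.Ct
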