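import Pool.Agent.MP_47f5fb_nt.Ct.Spec

/-! The cubic surface contains no rational line. -/

namespace Pool.Agent.MP_47f5fb_nt.Ct

open Polynomial Finset

namespace NLx

def G (a b c d : ZMod 5) : ZMod 5 :=
  a * a * a + b * b * b + c * c * c + 4 * (a * b * c) + (a + b + c) * (d * d) + 4 * (d * d * d)

def gn (a b c d : ℕ) : Bool :=
  Nat.beq ((a * a * a + b * b * b + c * c * c + 4 * (a * b * c) + (a + b + c) * (d * d) +
    4 * (d * d * d)) % 5) 0

def al (p : ℕ → Bool) : Bool := p 0 && p 1 && p 2 && p 3 && p 4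

theorem al_val {p : ℕ → Bool} (h : al p = true) (a : ZMod 5) : p a.val = true := by
  simp only [al, Bool.and_eq_true] at h
  have := ZMod.val_lt a
  generalize a.val = n at this
  interval_cases n <;> simp [h]

theorem al_not {p : ℕ → Bool} (h : al p = false) : ∃ n, p n = false := by
  by_contra hn
  have : ∀ n, p n = true := fun n => by
    by_contra h1
    exact hn ⟨n, by simpa using h1⟩
  simp [al, this] at h

theorem gn_iff (a b c d : ℕ) : gn a b c d = true ↔ G a b c d = 0 := by
  rw [gn, Nat.beq_eq, ← Nat.dvd_iff_mod_eq_zero, ← ZMod.natCast_eq_zero_iff, G]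
  push_cast
  rfl

theorem chk : (al fun a => al fun b => al fun c => al fun d =>
    !gn a b c d || Nat.beq (a + b + c + d) 0 ||
    al fun e => al fun f => al fun g => al fun h => !gn e f g h ||
      !(al fun t => gn (t * a + e) (t * b + f) (t * c + g) (t * d + h)) ||
      !(al fun t => !(Nat.beq e (t * a % 5) && Nat.beq f (t * b % 5) && Nat.beq g (t * c % 5) &&
        Nat.beq h (t * d % 5)))) = true := by
  decide +kernel

theorem five (a b c d : ZMod 5) (h1 : G a b c d = 0) (e f g h : ZMod 5) (h2 : G e f g h = 0)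
    (h3 : ∀ t : ZMod 5, G (t * a + e) (t * b + f) (t * c + g) (t * d + h) = 0) :
    (a = 0 ∧ b = 0 ∧ c = 0 ∧ d = 0) ∨
      ∃ t : ZMod 5, e = t * a ∧ f = t * b ∧ g = t * c ∧ h = t * d := by
  have k := al_val (al_val (al_val (al_val chk a) b) c) d
  have k1 : gn a.val b.val c.val d.val = true := by
    rw [gn_iff]; simpa using h1
  have k2 : gn e.val f.val g.val h.val = true := by
    rw [gn_iff]; simpa using h2
  have k3 : ∀ t : ℕ, gn (t * a.val + e.val) (t * b.val + f.val) (t * c.val + g.val)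
      (t * d.val + h.val) = true := fun t => by
    rw [gn_iff]; simpa using h3 t
  rw [k1, Bool.not_true, Bool.false_or, Bool.or_eq_true, Nat.beq_eq] at k
  rcases k with k | k
  · refine Or.inl ⟨?_, ?_, ?_, ?_⟩ <;> rw [← ZMod.val_eq_zero] <;> omega
  · have k4 := al_val (al_val (al_val (al_val k e) f) g) h
    have k5 : (al fun t => gn (t * a.val + e.val) (t * b.val + f.val) (t * c.val + g.val)
      (t * d.val + h.val)) = true := by simp only [al, k3, Bool.and_self]
    rw [k2, k5, Bool.not_true, Bool.false_or, Bool.false_or, Bool.not_eq_true'] at k4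
    obtain ⟨t, ht⟩ := al_not k4
    simp only [Bool.not_eq_false', Bool.and_eq_true, Nat.beq_eq] at ht
    have q : ∀ x y : ZMod 5, x.val = t * y.val % 5 → x = t * y := fun x y hx => by
      rw [← ZMod.natCast_zmod_val x, hx, ZMod.natCast_mod]
      simp
    exact Or.inr ⟨t, q _ _ ht.1.1.1, q _ _ ht.1.1.2, q _ _ ht.1.2, q _ _ ht.2⟩

theorem cast (W : Fin 4 → ℤ) (h : Fb W = 0) : G (W 0) (W 1) (W 2) (W 3) = 0 := by
  have h1 := congrArg (Int.cast : ℤ → ZMod 5) h
  have h5 : (5 : ZMod 5) = 0 := rfl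
  simp only [Fb] at h1
  push_cast at h1
  unfold G
  linear_combination h1 + ((W 0 : ZMod 5) * W 1 * W 2 + (W 3 : ZMod 5) ^ 3) * h5

theorem red (U V : Fin 4 → ℤ) (h : ∀ s t : ℤ, Fb (fun i => s * U i + t * V i) = 0) :
    (∀ i, (5 : ℤ) ∣ U i) ∨ ∃ t : ℤ, ∀ i, (5 : ℤ) ∣ V i - t * U i := by
  have k : ∀ z : ℤ, (z : ZMod 5) = 0 → (5 : ℤ) ∣ z := fun z hz =>
    (ZMod.intCast_zmod_eq_zero_iff_dvd z 5).1 hz
  rcases five (U 0) (U 1) (U 2) (U 3) (by simpa using cast _ (h 1 0)) (V 0) (V 1) (V 2) (V 3)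
    (by simpa using cast _ (h 0 1)) (fun t => by
      obtain ⟨t, rfl⟩ := ZMod.intCast_surjective t
      simpa using cast _ (h t 1)) with ⟨h0, h1, h2, h3⟩ | ⟨t, h0, h1, h2, h3⟩
  · refine Or.inl fun i => k _ ?_
    fin_cases i
    exacts [h0, h1, h2, h3]
  · obtain ⟨t, rfl⟩ := ZMod.intCast_surjective t
    refine Or.inr ⟨t, fun i => k _ ?_⟩
    push_cast
    rw [sub_eq_zero]
    fin_cases i
    exacts [h0, h1, h2, h3]

theorem desc (i j : Fin 4) (n : ℕ) : ∀ U V : Fin 4 → ℤ,
    (∀ s t : ℤ, Fb (fun i => s * U i + t * V i) = 0) →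
    (U i * V j - U j * V i).natAbs = n → n = 0 := by
  induction n using Nat.strong_induction_on with
  | _ n ih =>
    intro U V h hn
    rcases red U V h with hU | ⟨t, hV⟩
    · choose W hW using hU
      have e : U i * V j - U j * V i = 5 * (W i * V j - W j * V i) := by rw [hW, hW]; ring
      rw [e, Int.natAbs_mul, show Int.natAbs 5 = 5 from rfl] at hn
      by_contra h0
      have := ih _ (by omega) W V (fun a b => by
        have h1 := h a (5 * b)
        simp only [Fb, hW] at h1 ⊢
        linarith) rfl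
      omega
    · choose W hW using hV
      have hV : ∀ i, V i = t * U i + 5 * W i := fun i => by linarith [hW i]
      have e : U i * V j - U j * V i = 5 * (U i * W j - U j * W i) := by rw [hV, hV]; ring
      rw [e, Int.natAbs_mul, show Int.natAbs 5 = 5 from rfl] at hn
      by_contra h0
      have := ih _ (by omega) U W (fun a b => by
        have h1 := h (5 * a - b * t) b
        simp only [Fb, hV] at h1 ⊢
        linarith) rfl
      omega

theorem den (u : Fin 4 → ℚ) : ∃ (D : ℚ) (U : Fin 4 → ℤ), D ≠ 0 ∧ ∀ i, (U i : ℚ) = D * u i := by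
  obtain ⟨b, hb⟩ := IsLocalization.exist_integer_multiples_of_finite (nonZeroDivisors ℤ) u
  choose U hU using hb
  refine ⟨((b : ℤ) : ℚ), U, by exact_mod_cast nonZeroDivisors.coe_ne_zero b, fun i => ?_⟩
  simpa using hU i

end NLx

theorem nl : S_NL := by
  intro u v h hl
  have hb : ∀ a b : ℚ, Fb (fun i => a * u i + b * v i) = 0 := fun a b => by
    have p0 := h 0
    have p1 := h 1
    have pm := h (-1)
    have p2 := h 2
    simp only [Fb, Pi.add_apply, Pi.smul_apply, smul_eq_mul] at p0 p1 pm p2 ⊢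
    linear_combination a ^ 3 * ((p2 - 3 * p1 - pm + 3 * p0) / 6) +
      a ^ 2 * b * ((p1 + pm) / 2 - p0) +
      a * b ^ 2 * ((p1 - pm) / 2 - (p2 - 3 * p1 - pm + 3 * p0) / 6) + b ^ 3 * p0
  obtain ⟨D, U, hD, hU⟩ := NLx.den u
  obtain ⟨E, V, hE, hV⟩ := NLx.den v
  have hz : ∀ s t : ℤ, Fb (fun i => s * U i + t * V i) = 0 := fun s t => by
    have h1 := hb (s * D) (t * E)
    apply Int.cast_injective (α := ℚ)
    simp only [Fb] at h1 ⊢
    push_cast
    simp only [hU, hV]
    linear_combination h1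
  have hm : ∀ i j, u i * v j - u j * v i = 0 := fun i j => by
    have h1 : ((U i * V j - U j * V i : ℤ) : ℚ) = 0 := by
      rw [Int.natAbs_eq_zero.1 (NLx.desc i j _ U V hz rfl), Int.cast_zero]
    push_cast at h1
    rw [hU, hU, hV, hV] at h1
    refine mul_left_cancel₀ (mul_ne_zero hD hE) ?_
    linear_combination h1
  rw [LinearIndependent.pair_iff] at hl
  have hu : ∀ j, u j = 0 := fun j => neg_eq_zero.1 (hl (v j) (-u j) (funext fun i => by
    simp only [Pi.add_apply, Pi.smul_apply, smul_eq_mul, Pi.zero_apply]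
    linear_combination hm i j)).2
  exact one_ne_zero (hl 1 0 (funext fun i => by simp [hu i])).1

end Pool.Agent.MP_47f5fb_nt.Ct
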