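import Pool.Agent.MP_47f5fb_nt.Ct.Spec

/-! The norm of an auxiliary form of degree at most two in `z`. -/

namespace Pool.Agent.MP_47f5fb_nt.Ct

open Polynomial Finset

namespace NRMx

theorem mono {a b : ℕ} {P : ℚ[X][X]} (h : Bd a P) (hab : a ≤ b) : Bd b P :=
  ⟨h.1.trans hab, fun i => (h.2 i).trans hab⟩

theorem add {a : ℕ} {P Q : ℚ[X][X]} (h : Bd a P) (k : Bd a Q) : Bd a (P + Q) :=
  ⟨natDegree_add_le_of_degree_le h.1 k.1, fun i => by
    rw [coeff_add]; exact natDegree_add_le_of_degree_le (h.2 i) (k.2 i)⟩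

theorem neg {a : ℕ} {P : ℚ[X][X]} (h : Bd a P) : Bd a (-P) :=
  ⟨by rw [natDegree_neg]; exact h.1, fun i => by rw [coeff_neg, natDegree_neg]; exact h.2 i⟩

theorem sub {a : ℕ} {P Q : ℚ[X][X]} (h : Bd a P) (k : Bd a Q) : Bd a (P - Q) := by
  rw [sub_eq_add_neg]; exact add h (neg k)

theorem mul {a b : ℕ} {P Q : ℚ[X][X]} (h : Bd a P) (k : Bd b Q) : Bd (a + b) (P * Q) :=
  ⟨natDegree_mul_le.trans (add_le_add h.1 k.1), fun i => by
    rw [coeff_mul]
    exact natDegree_sum_le_of_forall_le _ _ fun p _ =>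
      natDegree_mul_le.trans (add_le_add (h.2 _) (k.2 _))⟩

theorem bdC {a : ℕ} {p : ℚ[X]} (h : p.natDegree ≤ a) : Bd a (C p) :=
  ⟨by rw [natDegree_C]; exact Nat.zero_le _, fun i => by
    rw [coeff_C]; split_ifs
    · exact h
    · simp⟩

theorem bdX : Bd 1 (X : ℚ[X][X]) :=
  ⟨natDegree_X_le, fun i => by
    rw [coeff_X]; split_ifs <;> simp⟩

theorem bdx : Bd 1 (C X : ℚ[X][X]) := bdC natDegree_X_le

theorem bd1 (a : ℕ) : Bd a (1 : ℚ[X][X]) := by
  rw [← C_1]; exact bdC (by simp)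

theorem bdDet {e : ℕ} (M : Matrix (Fin 3) (Fin 3) ℚ[X][X]) (h : ∀ i j, Bd e (M i j)) :
    Bd (e + e + e) M.det := by
  have t : ∀ a b c d f g, Bd (e + e + e) (M a b * M c d * M f g) := fun a b c d f g =>
    mul (mul (h _ _) (h _ _)) (h _ _)
  rw [Matrix.det_fin_three]
  exact sub (add (add (sub (sub (t ..) (t ..)) (t ..)) (t ..)) (t ..)) (t ..)

/-- multiplication by the auxiliary form modulo the cubic -/
def Mx {K : Type} [CommRing K] (al ga g0 g1 g2 : K) : Matrix (Fin 3) (Fin 3) K :=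
  !![g0, g1, g2; -(ga * g2), g0 - al * g2, g1; -(ga * g1), -(ga * g2) - al * g1, g0 - al * g2]

theorem det_Mx {K : Type} [CommRing K] (al ga g0 g1 g2 : K) : (Mx al ga g0 g1 g2).det =
    g0 * (g0 - al * g2) * (g0 - al * g2) - g0 * g1 * (-(ga * g2) - al * g1)
      - g1 * (-(ga * g2)) * (g0 - al * g2) + g1 * g1 * (-(ga * g1))
      + g2 * (-(ga * g2)) * (-(ga * g2) - al * g1) - g2 * (g0 - al * g2) * (-(ga * g1)) :=
  Matrix.det_fin_three _

theorem det_zero {K L : Type} [CommRing K] [CommRing L] (φ : K →+* L) (al ga g0 g1 g2 : K) (z : L)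
    (hF : z ^ 3 + φ al * z + φ ga = 0) (hG : φ g0 + φ g1 * z + φ g2 * z ^ 2 = 0) :
    φ (Mx al ga g0 g1 g2).det = 0 := by
  rw [det_Mx]
  simp only [map_sub, map_add, map_mul, map_neg]
  generalize φ al = a at *
  generalize φ ga = g at *
  generalize φ g0 = u at *
  generalize φ g1 = v at *
  generalize φ g2 = w at *
  linear_combination (((u - a * w) * (u - a * w) - v * (-(g * w) - a * v))
      - (v * (u - a * w) - w * (-(g * w) - a * v)) * z + (v * v - w * (u - a * w)) * z ^ 2) * hG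
    - (-(v * (u - a * w) - w * (-(g * w) - a * v)) * w + (v * v - w * (u - a * w)) * (v + w * z))
      * hF

theorem quad {K : Type} [CommRing K] [IsDomain K] {F : K[X]} (hF : F.natDegree = 3) {a b c : K}
    (h : F ∣ C a + C b * X + C c * X ^ 2) : a = 0 ∧ b = 0 ∧ c = 0 := by
  have h1 : (C a + C b * X + C c * X ^ 2 : K[X]).natDegree ≤ 2 := by compute_degree
  have h2 := eq_zero_of_dvd_of_natDegree_lt h (by omega)
  refine ⟨?_, ?_, ?_⟩
  · simpa using congrArg (fun p => p.coeff 0) h2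
  · simpa using congrArg (fun p => p.coeff 1) h2
  · simpa [coeff_X] using congrArg (fun p => p.coeff 2) h2

theorem det_ne {K : Type} [CommRing K] [IsDomain K] [UniqueFactorizationMonoid K]
    (al ga g0 g1 g2 : K) (hr : ∀ r : K, r ^ 3 + al * r + ga ≠ 0)
    (hg : ¬ (g0 = 0 ∧ g1 = 0 ∧ g2 = 0)) : (Mx al ga g0 g1 g2).det ≠ 0 := by
  intro h0
  obtain ⟨v, hv, hM⟩ := Matrix.exists_vecMul_eq_zero_iff.2 h0
  have e0 := congrFun hM 0
  have e1 := congrFun hM 1
  have e2 := congrFun hM 2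
  simp only [Mx, Matrix.vecMul, dotProduct, Fin.sum_univ_three, Matrix.of_apply, Matrix.cons_val',
    Matrix.cons_val_zero, Matrix.cons_val_one, Matrix.cons_val_two, Matrix.cons_val_fin_one,
    Matrix.head_cons, Matrix.tail_cons, Matrix.head_fin_const, Pi.zero_apply] at e0 e1 e2
  obtain ⟨F, hF⟩ : ∃ F : K[X], F = X ^ 3 + C al * X + C ga := ⟨_, rfl⟩
  have hm : F.Monic := by rw [hF]; monicity!
  have hd : F.natDegree = 3 := by rw [hF]; compute_degree!
  have hi : Irreducible F := by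
    rw [hm.irreducible_iff_roots_eq_zero_of_degree_le_three (by omega) (by omega),
      Multiset.eq_zero_iff_forall_notMem]
    intro r hr'
    have := (mem_roots hm.ne_zero).1 hr'
    rw [hF] at this
    exact hr r (by simpa using this)
  have hp : Prime F := UniqueFactorizationMonoid.irreducible_iff_prime.1 hi
  have f0 := congrArg (C : K → K[X]) e0
  have f1 := congrArg (C : K → K[X]) e1
  have f2 := congrArg (C : K → K[X]) e2
  simp only [map_add, map_mul, map_sub, map_neg, map_zero] at f0 f1 f2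
  have hdv : F ∣ (C (v 0) + C (v 1) * X + C (v 2) * X ^ 2) * (C g0 + C g1 * X + C g2 * X ^ 2) :=
    ⟨C (v 1) * C g2 + C (v 2) * (C g1 + C g2 * X), by
      rw [hF]; linear_combination f0 + X * f1 + X ^ 2 * f2⟩
  rcases hp.dvd_or_dvd hdv with h | h
  · obtain ⟨a, b, c⟩ := quad hd h
    refine hv (funext fun i => ?_)
    fin_cases i
    · exact a
    · exact b
    · exact c
  · exact hg (quad hd h)

theorem noroot (s : ℚ) : s ^ 3 + s - 1 ≠ 0 := by
  intro h
  have h1 : (s.num : ℚ) = s * s.den := (Rat.mul_den_eq_num s).symm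
  have h2 : s.num ^ 3 + s.num * (s.den : ℤ) ^ 2 = (s.den : ℤ) ^ 3 := by
    have : ((s.num ^ 3 + s.num * (s.den : ℤ) ^ 2 : ℤ) : ℚ) = (((s.den : ℤ) ^ 3 : ℤ) : ℚ) := by
      push_cast; rw [h1]; linear_combination (s.den : ℚ) ^ 3 * h
    exact_mod_cast this
  have h3 := congrArg (Int.cast : ℤ → ZMod 2) h2
  push_cast at h3
  have key : ∀ a b : ZMod 2, a ^ 3 + a * b ^ 2 = b ^ 3 → a = 0 ∧ b = 0 := by decide
  obtain ⟨k1, k2⟩ := key _ _ h3
  have k3 : 2 ∣ s.num.natAbs := Int.natCast_dvd.1 ((ZMod.intCast_zmod_eq_zero_iff_dvd _ 2).1 k1)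
  have k4 : 2 ∣ s.den := (ZMod.natCast_eq_zero_iff _ 2).1 k2
  have := Nat.dvd_gcd k3 k4
  rw [s.reduced] at this
  omega

end NRMx

open NRMx in
theorem nrm : S_NRM := by
  intro D
  refine ⟨(3 + D) + (3 + D) + (3 + D), fun S hS hG => ?_⟩
  obtain ⟨g0, g1, g2, hg, b0, b1, b2, hv⟩ := hG
  have ba : Bd 3 (1 - C X * X : ℚ[X][X]) := sub (bd1 3) (mono (mul bdx bdX) (by omega))
  have bg : Bd 3 (C X * C X * C X + X * X * X + C X + X - 1 : ℚ[X][X]) :=
    sub (add (add (add (mul (mul bdx bdx) bdx) (mul (mul bdX bdX) bdX)) (mono bdx (by omega)))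
      (mono bdX (by omega))) (bd1 3)
  refine ⟨(Mx (1 - C X * X) (C X * C X * C X + X * X * X + C X + X - 1) g0 g1 g2).det,
    det_ne _ _ _ _ _ (fun r hr => ?_) hg, bdDet _ fun i j => ?_, fun P hP => ?_⟩
  · have := congrArg (evalEvalRingHom (0 : ℚ) 0) hr
    simp only [map_add, map_mul, map_sub, map_pow, map_one, map_zero, coe_evalEvalRingHom,
      evalEval_C, evalEval_X, eval_X] at this
    exact noroot (r.evalEval 0 0) (by linear_combination this)
  · have c0 := mono b0 (Nat.le_add_left D 3)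
    have c1 := mono b1 (Nat.le_add_left D 3)
    have c2 := mono b2 (Nat.le_add_left D 3)
    fin_cases i <;> fin_cases j
    · exact c0
    · exact c1
    · exact c2
    · exact neg (mul bg b2)
    · exact sub c0 (mul ba b2)
    · exact c1
    · exact neg (mul bg b1)
    · exact sub (neg (mul bg b2)) (mul ba b1)
    · exact sub c0 (mul ba b2)
  · refine det_zero (evalEvalRingHom (P.1 : ℚ) (P.2.1 : ℚ)) _ _ _ _ _ (P.2.2 : ℚ) ?_ (hv P hP)
    have h : ((P.1 : ℚ)) ^ 3 + P.1 + (P.2.1 : ℚ) ^ 3 + P.2.1 + (P.2.2 : ℚ) ^ 3 + P.2.2 =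
        P.1 * P.2.1 * P.2.2 + 1 := by exact_mod_cast hS P hP
    simp only [map_add, map_mul, map_sub, map_one, coe_evalEvalRingHom,
      evalEval_C, evalEval_X, eval_X]
    linear_combination h

end Pool.Agent.MP_47f5fb_nt.Ct
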