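import Pool.Agent.MP_47f5fb_nt.Ct.Spec

/-! Points of the surface over a conic. -/

set_option autoImplicit false

namespace Pool.Agent.MP_47f5fb_nt.Ct

open Polynomial Finset

namespace PARx

/-- the homogenisation of `B` in degree `J` -/
noncomputable def hom (J : ℕ) (u n B : ℚ[X]) : ℚ[X] :=
  ∑ k ∈ range (J + 1), C (B.coeff k) * u ^ k * n ^ (J - k)

theorem hom_deg (J : ℕ) {u n : ℚ[X]} (B : ℚ[X]) (hu : u.natDegree ≤ 2) (hn : n.natDegree ≤ 2) :
    (hom J u n B).natDegree ≤ 2 * J := by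
  refine natDegree_sum_le_of_forall_le _ _ fun k hk => ?_
  have hk' : k ≤ J := Nat.lt_succ_iff.1 (mem_range.1 hk)
  have h1 : (u ^ k).natDegree ≤ k * 2 := natDegree_pow_le.trans (Nat.mul_le_mul_left _ hu)
  have h2 : (n ^ (J - k)).natDegree ≤ (J - k) * 2 :=
    natDegree_pow_le.trans (Nat.mul_le_mul_left _ hn)
  have h3 : (C (B.coeff k) * u ^ k).natDegree ≤ k * 2 := (natDegree_C_mul_le _ _).trans h1
  exact natDegree_mul_le.trans (by omega)

theorem hom_eval (J : ℕ) {u n B : ℚ[X]} (hB : B.natDegree ≤ J) {s b : ℚ}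
    (h : u.eval s = n.eval s * b) : (hom J u n B).eval s = n.eval s ^ J * B.eval b := by
  rw [hom, eval_finsetSum, eval_eq_sum_range' (Nat.lt_succ_of_le hB) b, mul_sum]
  refine sum_congr rfl fun k hk => ?_
  have hk' : k ≤ J := Nat.lt_succ_iff.1 (mem_range.1 hk)
  obtain ⟨m, rfl⟩ := Nat.exists_eq_add_of_le hk'
  simp only [eval_mul, eval_C, eval_pow, h, Nat.add_sub_cancel_left]
  ring

theorem pn_deg (d2 : ℚ) : (pn d2).natDegree ≤ 2 := by
  unfold pn
  compute_degree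

theorem pb_deg (b0 c0 d1 d2 : ℚ) : (pb b0 c0 d1 d2).natDegree ≤ 2 := by
  unfold pb pn
  compute_degree!

theorem pc_deg (c0 d1 d2 : ℚ) : (pc c0 d1 d2).natDegree ≤ 2 := by
  unfold pc pn
  compute_degree!

theorem pv_deg (f g o : Fin 4 → ℚ) (b0 c0 d1 d2 : ℚ) (i : Fin 4) :
    (pv f g o b0 c0 d1 d2 i).natDegree ≤ 2 :=
  natDegree_add_le_of_degree_le (natDegree_add_le_of_degree_le
    ((natDegree_C_mul_le _ _).trans (pb_deg _ _ _ _))
    ((natDegree_C_mul_le _ _).trans (pc_deg _ _ _))) ((natDegree_C_mul_le _ _).trans (pn_deg _))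

theorem slope {d0 d1 d2 b0 c0 b c : ℚ} (hd : d1 ^ 2 - 4 * d0 * d2 ≠ 0)
    (h0 : c0 ^ 2 = d0 + d1 * b0 + d2 * b0 ^ 2) (h : c ^ 2 = d0 + d1 * b + d2 * b ^ 2)
    (hb : b ≠ b0) : (pn d2).eval ((c - c0) / (b - b0)) ≠ 0 ∧
      (pb b0 c0 (d1 + 2 * d2 * b0) d2).eval ((c - c0) / (b - b0)) =
        (pn d2).eval ((c - c0) / (b - b0)) * b ∧
      (pc c0 (d1 + 2 * d2 * b0) d2).eval ((c - c0) / (b - b0)) =
        (pn d2).eval ((c - c0) / (b - b0)) * c := by
  have hb' : b - b0 ≠ 0 := sub_ne_zero.2 hb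
  obtain ⟨s, hs⟩ : ∃ s, s = (c - c0) / (b - b0) := ⟨_, rfl⟩
  have e1 : c = c0 + s * (b - b0) := by rw [hs, div_mul_cancel₀ _ hb']; ring
  rw [← hs]
  have e2 : (s ^ 2 - d2) * (b - b0) = d1 + 2 * d2 * b0 - 2 * c0 * s := by
    refine mul_left_cancel₀ hb' ?_
    rw [e1] at h
    linear_combination h - h0
  simp only [pn, pb, pc, eval_add, eval_sub, eval_mul, eval_pow, eval_C, eval_X]
  refine ⟨fun h1 => hd ?_, by linear_combination -e2, by linear_combination -s * e2 - (s ^ 2 - d2) * e1⟩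
  rw [h1, zero_mul] at e2
  linear_combination (-(d1 + 2 * d2 * b0 + 2 * c0 * s)) * e2 + 4 * c0 ^ 2 * h1 + 4 * d2 * h0

end PARx

open PARx in
theorem par (fib : S_FIB) (pnr : S_PNR) (tri : S_TRI) : S_PAR := by
  intro J
  obtain ⟨K, hK⟩ := fib (2 * J + 2)
  refine ⟨6 + K, fun ι e f g o d0 d1 d2 B0 B1 B2 T b a c hF hX hd h0 h1 h2 hT => ?_⟩
  classical
  rcases T.eq_empty_or_nonempty with rfl | ⟨p0, hp0⟩
  · simp
  obtain ⟨b0, hb0⟩ : ∃ b0, b0 = b p0 := ⟨_, rfl⟩
  obtain ⟨c0, hc0⟩ : ∃ c0, c0 = c p0 := ⟨_, rfl⟩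
  have e0 : c0 ^ 2 = d0 + d1 * b0 + d2 * b0 ^ 2 := by
    rw [hb0, hc0]
    exact (hT p0 hp0).1
  have hA : (T.filter fun p => b p = b0).card ≤ 6 := by
    have h3 := tri ι e f g o (T.filter fun p => b p = b0) b a c hF.1
      ⟨hX.1.mono (coe_subset.2 (filter_subset _ _)), fun p hp => hX.2 p (mem_filter.1 hp).1⟩
    have h4 : ((T.filter fun p => b p = b0).image fun p => (b p, c p)) ⊆
        {(b0, c0), (b0, -c0)} := by
      intro x hx
      obtain ⟨p, hp, rfl⟩ := mem_image.1 hx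
      obtain ⟨hp1, hp2⟩ := mem_filter.1 hp
      have h5 := (hT p hp1).1
      rw [hp2, ← e0] at h5
      rcases sq_eq_sq_iff_eq_or_eq_neg.1 h5 with h6 | h6 <;> simp [hp2, h6]
    have h5 := (card_le_card h4).trans card_le_two
    omega
  have hB : (T.filter fun p => ¬ b p = b0).card ≤ K := by
    rcases (T.filter fun p => ¬ b p = b0).eq_empty_or_nonempty with h3 | ⟨p1, hp1⟩
    · simp [h3]
    let s : ι → ℚ := fun p => (c p - c0) / (b p - b0)
    have hs : ∀ p ∈ T.filter fun p => ¬ b p = b0, (pn d2).eval (s p) ≠ 0 ∧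
        (pb b0 c0 (d1 + 2 * d2 * b0) d2).eval (s p) = (pn d2).eval (s p) * b p ∧
        (pc c0 (d1 + 2 * d2 * b0) d2).eval (s p) = (pn d2).eval (s p) * c p := fun p hp =>
      slope hd e0 (hT p (mem_filter.1 hp).1).1 (mem_filter.1 hp).2
    have hi : Set.InjOn (fun p => (s p, (pn d2).eval (s p) * a p))
        (T.filter fun p => ¬ b p = b0) := by
      intro p hp q hq h
      obtain ⟨p1, p2, p3⟩ := hs p hp
      obtain ⟨-, q2, q3⟩ := hs q hq
      have h4 : s p = s q := congrArg Prod.fst h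
      have h5 : (pn d2).eval (s p) * a p = (pn d2).eval (s q) * a q := congrArg Prod.snd h
      rw [← h4] at q2 q3 h5
      refine hX.1 (mem_filter.1 hp).1 (mem_filter.1 hq).1 (Prod.ext ?_ (Prod.ext ?_ ?_))
      · exact mul_left_cancel₀ p1 (p2.symm.trans q2)
      · exact mul_left_cancel₀ p1 h5
      · exact mul_left_cancel₀ p1 (p3.symm.trans q3)
    rw [← card_image_of_injOn hi]
    have dh := fun B => hom_deg J B (pb_deg b0 c0 (d1 + 2 * d2 * b0) d2) (pn_deg d2)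
    refine hK e (pv f g o b0 c0 (d1 + 2 * d2 * b0) d2)
      (pn d2 * hom J (pb b0 c0 (d1 + 2 * d2 * b0) d2) (pn d2) B0 +
        hom J (pb b0 c0 (d1 + 2 * d2 * b0) d2) (pn d2) B1 * pc c0 (d1 + 2 * d2 * b0) d2)
      (hom J (pb b0 c0 (d1 + 2 * d2 * b0) d2) (pn d2) B2) 0 _ hF.1 (pv_deg _ _ _ _ _ _ _)
      (fun ρ => pnr e f g o _ _ _ _ ρ hF fun h => hd (by linear_combination h + 4 * d2 * e0))
      (fun h => ?_) ?_ ((dh B2).trans (by omega)) (by simp) fun x hx => ?_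
    · have h3 := hom_eval J h2 (hs p1 hp1).2.1
      rw [h.2.1, eval_zero] at h3
      exact mul_ne_zero (pow_ne_zero _ (hs p1 hp1).1) (hT p1 (mem_filter.1 hp1).1).2.1 h3.symm
    · have h3 := pn_deg d2
      have h4 := pc_deg c0 (d1 + 2 * d2 * b0) d2
      have h5 := dh B0
      have h6 := dh B1
      exact natDegree_add_le_of_degree_le (natDegree_mul_le.trans (by omega))
        (natDegree_mul_le.trans (by omega))
    · obtain ⟨p, hp, rfl⟩ := mem_image.1 hx
      obtain ⟨-, p2, p3⟩ := hs p hp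
      have hp' := (mem_filter.1 hp).1
      constructor
      · have h3 := hX.2 p hp'
        simp only [Fb, Pi.add_apply, Pi.smul_apply, smul_eq_mul] at h3
        simp only [Fb, pv, eval_add, eval_mul, eval_C, p2, p3]
        linear_combination (pn d2).eval (s p) ^ 3 * h3
      · simp only [eval_add, eval_mul, eval_zero, hom_eval J h0 p2, hom_eval J h1 p2,
          hom_eval J h2 p2, p3]
        linear_combination (pn d2).eval (s p) ^ (J + 1) * (hT p hp').2.2
  have := card_filter_add_card_filter_not (s := T) fun p => b p = b0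
  omega

end Pool.Agent.MP_47f5fb_nt.Ct
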