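import Pool.Agent.MP_47f5fb_nt.Ct.Spec

/-! Row PNR: the cubic over a parametrised conic has no polynomial root. -/

set_option autoImplicit false

namespace Pool.Agent.MP_47f5fb_nt.Ct

open Polynomial Finset

namespace PNRx

theorem evalFb (W : Fin 4 → ℚ[X]) (s : ℚ) : (Fb W).eval s = Fb fun i => (W i).eval s := by
  simp only [Fb, eval_add, eval_sub, eval_mul, eval_pow]

theorem degPv (f g o : Fin 4 → ℚ) (b0 c0 d1 d2 : ℚ) (i : Fin 4) :
    (pv f g o b0 c0 d1 d2 i).natDegree ≤ 2 := by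
  unfold pv pb pc pn
  compute_degree

theorem indep {e f g o : Fin 4 → ℚ} (h : LinearIndependent ℚ ![e, f, g, o])
    {b0 c0 d1 d2 : ℚ} (hd : d1 ^ 2 - 4 * c0 ^ 2 * d2 ≠ 0) (r0 r1 r2 : ℚ) :
    LinearIndependent ℚ ![r0 • e + (d1 - b0 * d2) • f - (c0 * d2) • g - d2 • o,
      r1 • e - (2 * c0) • f + d1 • g, r2 • e + b0 • f - c0 • g + o] := by
  rw [Fintype.linearIndependent_iff] at h ⊢
  intro c hc
  have k := h ![c 0 * r0 + c 1 * r1 + c 2 * r2, c 0 * (d1 - b0 * d2) - 2 * c0 * c 1 + b0 * c 2,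
    -(c0 * d2 * c 0) + d1 * c 1 - c0 * c 2, c 2 - d2 * c 0] (by
      funext i
      have := congrFun hc i
      simp only [Fin.sum_univ_three, Fin.sum_univ_four, Matrix.cons_val, Pi.add_apply,
        Pi.sub_apply, Pi.smul_apply, smul_eq_mul, Pi.zero_apply] at this ⊢
      linear_combination this)
  have k1 : c 0 * (d1 - b0 * d2) - 2 * c0 * c 1 + b0 * c 2 = 0 := k 1
  have k2 : -(c0 * d2 * c 0) + d1 * c 1 - c0 * c 2 = 0 := k 2
  have k3 : c 2 - d2 * c 0 = 0 := k 3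
  have a0 : c 0 = 0 := (mul_eq_zero.1 (show c 0 * (d1 ^ 2 - 4 * c0 ^ 2 * d2) = 0 by
    linear_combination d1 * k1 + 2 * c0 * k2 + (2 * c0 ^ 2 - d1 * b0) * k3)).resolve_right hd
  have a2 : c 2 = 0 := by linear_combination k3 + d2 * a0
  rw [a0, a2] at k1 k2
  have a1 : c 1 = 0 := (mul_eq_zero.1 (show c 1 * (d1 ^ 2 - 4 * c0 ^ 2 * d2) = 0 by
    linear_combination d1 * k2 + 2 * c0 * d2 * k1)).resolve_right hd
  intro i
  fin_cases i
  exacts [a0, a1, a2]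

end PNRx

theorem pnr (deg : S_DEG) (con : S_CON) : S_PNR := by
  intro e f g o b0 c0 d1 d2 ρ hF hd h
  have hρ : ρ.natDegree < 3 :=
    Nat.lt_succ_of_le (deg 2 e _ ρ hF.1 (PNRx.degPv f g o b0 c0 d1 d2) h)
  refine con _ _ _ (fun s => ?_) (PNRx.indep (b0 := b0) hF.2 hd (ρ.coeff 0) (ρ.coeff 1) (ρ.coeff 2))
  have k := congrArg (eval s) h
  rw [PNRx.evalFb, eval_zero] at k
  rw [← k]
  congr 1
  funext i
  simp only [pv, pb, pc, pn, eval_add, eval_sub, eval_mul, eval_pow, eval_C, eval_X,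
    eval_eq_sum_range' hρ, sum_range_succ, sum_range_zero, Pi.add_apply, Pi.sub_apply,
    Pi.smul_apply, smul_eq_mul]
  ring

end Pool.Agent.MP_47f5fb_nt.Ct
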