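import Pool.Agent.MP_47f5fb_nt.Ct.Spec

/-! Row RD2: vanishing determinants give an auxiliary surface. -/

set_option autoImplicit false

namespace Pool.Agent.MP_47f5fb_nt.Ct

open Polynomial Finset

namespace RD2x

abbrev Jx (D : ℕ) : Type := (n : Fin (D + 1)) × Fin (n + 1)

/-- the polynomial with coefficients `ψ` -/
noncomputable def gp {D : ℕ} (ψ : Jx D → ℚ) : ℚ[X][X] :=
  ∑ ν : Jx D, monomial ((ν.1 : ℕ) - ν.2) (monomial (ν.2 : ℕ) (ψ ν))

theorem gp_coeff {D : ℕ} (ψ : Jx D → ℚ) (m : ℕ) : (gp ψ).coeff m =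
    ∑ ν : Jx D, if (ν.1 : ℕ) - ν.2 = m then monomial (ν.2 : ℕ) (ψ ν) else 0 := by
  simp only [gp, finsetSum_coeff, coeff_monomial]

theorem gp_bd {D : ℕ} (ψ : Jx D → ℚ) : Bd D (gp ψ) := by
  refine ⟨natDegree_sum_le_of_forall_le _ _ fun ν _ => (natDegree_monomial_le _).trans ?_,
    fun m => ?_⟩
  · have := ν.1.2
    omega
  · rw [gp_coeff]
    refine natDegree_sum_le_of_forall_le _ _ fun ν _ => ?_
    split_ifs
    · have h1 := ν.1.2
      have h2 := ν.2.2
      exact (natDegree_monomial_le _).trans (by omega)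
    · simp

theorem gp_eq_zero {D : ℕ} {ψ : Jx D → ℚ} (h : gp ψ = 0) (ν : Jx D) : ψ ν = 0 := by
  have h1 : ((gp ψ).coeff ((ν.1 : ℕ) - ν.2)).coeff ν.2 = ψ ν := by
    rw [gp_coeff, finsetSum_coeff, sum_eq_single ν]
    · simp
    · rintro ⟨n, i⟩ - hne
      obtain ⟨m, j⟩ := ν
      split_ifs with h2
      · rw [coeff_monomial, if_neg]
        intro h3
        have h4 := i.2
        have h5 := j.2
        simp only at h2 h3
        have h6 : n = m := Fin.ext (by omega)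
        subst h6
        exact hne (by rw [Fin.ext h3])
      · simp
    · simp
  rw [← h1, h]
  simp

theorem gp_eval {D : ℕ} (ψ : Jx D → ℚ) (x y : ℚ) : (gp ψ).evalEval x y =
    ∑ ν : Jx D, ψ ν * (x ^ (ν.2 : ℕ) * y ^ ((ν.1 : ℕ) - ν.2)) := by
  simp only [gp, evalEval, eval_finsetSum, eval_monomial, eval_mul, eval_pow, eval_C, mul_assoc]

end RD2x

open RD2x in
theorem rd2 (lin : S_LIN) : S_RD2 := by
  intro D S h
  obtain ⟨φ, hφ, h0⟩ := lin (Ix D) S (fun s c => mon s.1 c) fun p =>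
    h (fun i => (p i).1) fun i => (p i).2
  refine ⟨gp fun ν => φ (ν, 0), gp fun ν => φ (ν, 1), gp fun ν => φ (ν, 2), ?_, gp_bd _, gp_bd _,
    gp_bd _, fun P hP => ?_⟩
  · rintro ⟨e0, e1, e2⟩
    refine hφ (funext ?_)
    rintro ⟨ν, k⟩
    fin_cases k
    exacts [gp_eq_zero e0 ν, gp_eq_zero e1 ν, gp_eq_zero e2 ν]
  · have := h0 ⟨P, hP⟩
    rw [Fintype.sum_prod_type] at this
    rw [gp_eval, gp_eval, gp_eval, sum_mul, sum_mul, ← sum_add_distrib, ← sum_add_distrib, ← this]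
    refine sum_congr rfl fun ν _ => ?_
    simp only [Fin.sum_univ_three, mon]
    push_cast
    simp
    ring

end Pool.Agent.MP_47f5fb_nt.Ct
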