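import Pool.Agent.MP_47f5fb_nt.Ct.Spec

/-! Row REL: the determinant method gives a linear relation with polynomial coefficients. -/

set_option autoImplicit false

namespace Pool.Agent.MP_47f5fb_nt.Ct

open Polynomial Finset

namespace RELx

theorem num {η W Z l : ℝ} {J : ℕ} (hη : 0 < η) (hJ : 2 / η + 1 ≤ J) (hW : 1 ≤ W) (hZ : 1 ≤ Z)
    (hl : W ^ (1 / 3 : ℝ) * (3 * J * Z) ^ η < l) :
    (3 * J).factorial * ((W ^ J.choose 2) ^ 3 * Z ^ (3 * J)) < l ^ (3 * J).choose 2 := by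
  have hJ1 : (1 : ℝ) ≤ J := le_trans (le_add_of_nonneg_left (by positivity)) hJ
  have hV : 1 ≤ 3 * J * Z := by nlinarith
  have e : (((3 * J).choose 2 : ℕ) : ℝ) = 3 * J * (3 * J - 1) / 2 := by
    rw [Nat.cast_choose_two]
    push_cast
    rfl
  refine lt_of_le_of_lt ?_ (pow_lt_pow_left₀ hl (by positivity) (by
    rw [← Nat.cast_ne_zero (R := ℝ), e]
    exact ne_of_gt (by nlinarith)))
  have h1 : ((3 * J).factorial : ℝ) ≤ (3 * J) ^ (3 * J) := by
    exact_mod_cast Nat.factorial_le_pow _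
  have h2 : (W ^ J.choose 2) ^ 3 ≤ (W ^ (1 / 3 : ℝ)) ^ (3 * J).choose 2 := by
    rw [← pow_mul, ← Real.rpow_natCast, ← Real.rpow_natCast, ← Real.rpow_mul (by positivity)]
    refine Real.rpow_le_rpow_of_exponent_le hW ?_
    rw [e, Nat.cast_mul, Nat.cast_choose_two]
    push_cast
    nlinarith
  have h3 : (3 * J * Z) ^ (3 * J) ≤ ((3 * J * Z) ^ η) ^ (3 * J).choose 2 := by
    rw [← Real.rpow_natCast, ← Real.rpow_natCast, ← Real.rpow_mul (by positivity)]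
    refine Real.rpow_le_rpow_of_exponent_le hV ?_
    rw [e]
    push_cast
    have : 2 ≤ (J - 1) * η := (div_le_iff₀ hη).1 (by linarith)
    nlinarith
  rw [mul_pow]
  rw [mul_pow] at h3
  calc _ ≤ (W ^ J.choose 2) ^ 3 * ((3 * J) ^ (3 * J) * Z ^ (3 * J)) := by
        rw [mul_left_comm]
        gcongr
    _ ≤ _ := by gcongr

theorem det_zero {J l : ℕ} {W Z : ℝ} (hZ : 1 ≤ Z) (t f g : Fin 3 × Fin J → ℤ) (ξ ζ : ℤ[X])
    (hb : ∀ p, |(t p : ℝ)| ≤ W ∧ |(f p : ℝ)| ≤ Z ∧ |(g p : ℝ)| ≤ Z)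
    (hc : ∀ p p', (l : ℤ) ∣ t p - t p')
    (h6 : ∀ p, (l : ℤ) ^ (3 * J).choose 2 ∣ f p - ξ.eval (t p) ∧
      (l : ℤ) ^ (3 * J).choose 2 ∣ g p - ζ.eval (t p))
    (hlt : (3 * J).factorial * ((W ^ J.choose 2) ^ 3 * Z ^ (3 * J)) <
      (l : ℝ) ^ (3 * J).choose 2) :
    (Matrix.of fun i (c : Fin 3 × Fin J) => t i ^ (c.2 : ℕ) * ![1, f i, g i] c.1).det = 0 := by
  set M := Matrix.of fun i (c : Fin 3 × Fin J) => t i ^ (c.2 : ℕ) * ![1, f i, g i] c.1 with hM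
  have hcard : Fintype.card (Fin 3 × Fin J) = 3 * J := by simp
  by_contra h5
  have h4 : ((M.det : ℤ) : ℝ) = (M.map (Int.cast : ℤ → ℝ)).det := Int.cast_det M
  have h7 := MP_abff10_nt.vand_dvd t (fun c : Fin 3 × Fin J => X ^ (c.2 : ℕ) * ![1, ξ, ζ] c.1)
    (l : ℤ) hc
  rw [hcard] at h7
  have h8 : (l : ℤ) ^ (3 * J).choose 2 ∣ M.det := by
    have h9 := fun z => ZMod.intCast_zmod_eq_zero_iff_dvd z (l ^ (3 * J).choose 2)
    simp only [Nat.cast_pow] at h9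
    rw [← h9] at h7 ⊢
    rw [← h7, Int.cast_det, Int.cast_det]
    congr 1
    ext i ⟨c, k⟩
    have h10 := h6 i
    simp only [← h9, Int.cast_sub, sub_eq_zero] at h10
    fin_cases c <;> simp [hM, h10.1, h10.2]
  have h9 := MP_abff10_nt.det_bound (M.map (Int.cast : ℤ → ℝ))
    (fun c => W ^ (c.2 : ℕ) * Z) fun i ⟨c, k⟩ => by
      obtain ⟨b1, b2, b3⟩ := hb i
      have := (abs_nonneg _).trans b1
      have b4 : |((![1, f i, g i] c : ℤ) : ℝ)| ≤ Z := by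
        fin_cases c
        · simpa using hZ
        · simpa using b2
        · simpa using b3
      simp only [hM, Matrix.map_apply, Matrix.of_apply, Int.cast_mul, Int.cast_pow, abs_mul,
        abs_pow]
      gcongr
  have h10 : ∏ c : Fin 3 × Fin J, W ^ (c.2 : ℕ) * Z = (W ^ J.choose 2) ^ 3 * Z ^ (3 * J) := by
    have : ∏ i : Fin J, W ^ (i : ℕ) = W ^ J.choose 2 := by
      rw [prod_pow_eq_pow_sum, Fin.sum_univ_eq_sum_range fun i => i, sum_range_id,
        Nat.choose_two_right]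
    simp only [Fintype.prod_prod_type, prod_mul_distrib, this, prod_const, card_univ,
      Fintype.card_fin, Fintype.card_prod]
  rw [hcard, h10, ← h4] at h9
  have h11 : (((l : ℤ) ^ (3 * J).choose 2 : ℤ) : ℝ) ≤ ((|M.det| : ℤ) : ℝ) :=
    Int.cast_le.2 (Int.le_of_dvd (abs_pos.2 h5) ((dvd_abs _ _).2 h8))
  rw [Int.cast_abs, Int.cast_pow, Int.cast_natCast] at h11
  exact (h11.trans h9).not_gt hlt

end RELx

theorem rel (lin : S_LIN) : S_REL := by
  intro η hη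
  obtain ⟨J, hJ⟩ := exists_nat_ge (2 / η + 1)
  have hJ1 : (1 : ℝ) ≤ J := le_trans (le_add_of_nonneg_left (by positivity)) hJ
  refine ⟨J, 3 * J, by exact_mod_cast hJ1, by linarith,
    fun ι T t f g l W Z hW hZ hl hb hc hK => ?_⟩
  obtain ⟨ξ, ζ, h6⟩ := hK ((3 * J).choose 2)
  obtain ⟨φ, h0, hφ⟩ := lin (Fin 3 × Fin J) T
    (fun s c => t s ^ (c.2 : ℕ) * ![1, f s, g s] c.1) fun p =>
      RELx.det_zero hZ (fun i => t (p i)) (fun i => f (p i)) (fun i => g (p i)) ξ ζ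
        (fun i => hb _ (p i).2) (fun i j => hc _ (p i).2 _ (p j).2) (fun i => h6 _ (p i).2)
        (RELx.num hη hJ hW hZ hl)
  let A : Fin 3 → ℚ[X] := fun c => ∑ i : Fin J, C (φ (c, i)) * X ^ (i : ℕ)
  have hd : ∀ c, (A c).natDegree ≤ J := fun c =>
    natDegree_sum_le_of_forall_le _ _ fun i _ => (natDegree_C_mul_X_pow_le _ _).trans i.2.le
  refine ⟨A 0, A 1, A 2, fun h => h0 (funext fun ⟨c, i⟩ => ?_), hd 0, hd 1, hd 2, fun p hp => ?_⟩
  · have h1 : A c = 0 := by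
      fin_cases c
      exacts [h.1, h.2.1, h.2.2]
    have := congrArg (fun p => coeff p i) h1
    simpa [A, coeff_C_mul, coeff_X_pow, Fin.val_inj] using this
  · rw [← hφ ⟨p, hp⟩]
    simp only [Fintype.sum_prod_type, Fin.sum_univ_three, A, eval_finsetSum, eval_mul, eval_C,
      eval_pow, eval_X, sum_mul, ← sum_add_distrib]
    refine sum_congr rfl fun i _ => ?_
    simp
    ring

end Pool.Agent.MP_47f5fb_nt.Ct
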