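import Pool.Agent.MP_47f5fb_nt.Ct.Spec

/-! Rational points of given denominator on the curve at infinity. -/

set_option autoImplicit false

namespace Pool.Agent.MP_47f5fb_nt.Ct

open Polynomial Finset

namespace RPTx

theorem key {x y z : ℤ} (h : x ^ 3 + y ^ 3 + z ^ 3 = x * y * z) :
    26 * x ^ 3 = (3 * (y + z) + x) *
      (27 * (y * z) - (3 * (y + z) + x) ^ 2 + 3 * (3 * (y + z) + x) * x - 3 * x ^ 2) := by
  linear_combination 27 * h

theorem inj {x y z y' z' : ℤ} (hx : x ≠ 0) (h : x ^ 3 + y ^ 3 + z ^ 3 = x * y * z)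
    (h' : x ^ 3 + y' ^ 3 + z' ^ 3 = x * y' * z') (hs : y + z = y' + z')
    (ho : y ≤ z ↔ y' ≤ z') : y = y' := by
  have hm : 3 * (y + z) + x ≠ 0 := by
    intro h0
    have := key h
    rw [h0, zero_mul] at this
    exact (mul_ne_zero (by norm_num) (pow_ne_zero 3 hx)) this
  have hz : z' = y + z - y' := by omega
  have h1 : (3 * (y + z) + x) * ((y - y') * (z - y')) = 0 := by
    subst hz
    linear_combination h' - h
  rcases mul_eq_zero.1 ((mul_eq_zero.1 h1).resolve_left hm) with h2 | h2 <;> omega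

theorem card_le (x : ℕ) (A : Finset ℤ) (hx : 1 ≤ x)
    (hA : ∀ y ∈ A, ∃ z : ℤ, (x : ℤ) ^ 3 + y ^ 3 + z ^ 3 = x * y * z) :
    A.card ≤ 4 * (26 * x ^ 3).divisors.card := by
  classical
  choose! z hz using hA
  have hx0 : (x : ℤ) ≠ 0 := by omega
  let f : ℤ → ℕ × Bool × Bool := fun y =>
    ((3 * (y + z y) + x).natAbs, decide (0 ≤ 3 * (y + z y) + (x : ℤ)), decide (y ≤ z y))
  have h1 : A.card ≤ ((26 * x ^ 3).divisors ×ˢ (univ : Finset (Bool × Bool))).card := by
    refine card_le_card_of_injOn f (fun y hy => ?_) (fun y hy y' hy' hf => ?_)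
    · refine mem_coe.2 (mem_product.2 ⟨Nat.mem_divisors.2 ⟨?_, by positivity⟩, mem_univ _⟩)
      have h2 : (3 * (y + z y) + x : ℤ) ∣ ((26 * x ^ 3 : ℕ) : ℤ) := by
        push_cast
        exact ⟨_, key (hz y hy)⟩
      exact Int.natCast_dvd_natCast.1 (Int.natAbs_dvd.2 h2)
    · simp only [f, Prod.mk.injEq, decide_eq_decide] at hf
      obtain ⟨h2, h3, h4⟩ := hf
      exact inj hx0 (hz y hy) (hz y' hy') (by omega) h4
  rw [card_product] at h1
  simpa [mul_comm] using h1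

end RPTx

theorem rpt : S_RPT := by
  intro η hη
  obtain ⟨C, hC1, hC⟩ := MP_abff10_nt.divisor_bound (η := η / 3) (by positivity)
  refine ⟨4 * C * (26 : ℝ) ^ (η / 3), by positivity, fun x A hx hA => ?_⟩
  have h1 : (A.card : ℝ) ≤ 4 * ((26 * x ^ 3).divisors.card : ℝ) := by
    exact_mod_cast RPTx.card_le x A hx hA
  have h2 := hC (26 * x ^ 3) (Nat.one_le_iff_ne_zero.2 (by positivity))
  have h3 : (((26 * x ^ 3 : ℕ) : ℝ)) ^ (η / 3) = (26 : ℝ) ^ (η / 3) * (x : ℝ) ^ η := by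
    push_cast
    rw [Real.mul_rpow (by norm_num) (by positivity), ← Real.rpow_natCast,
      ← Real.rpow_mul (by positivity)]
    congr 2
    push_cast
    ring
  rw [h3] at h2
  calc (A.card : ℝ) ≤ 4 * (C * ((26 : ℝ) ^ (η / 3) * (x : ℝ) ^ η)) := by linarith
    _ = _ := by ring

end Pool.Agent.MP_47f5fb_nt.Ct
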