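import Pool.Agent.MP_47f5fb_nt.Ct.Spec

/-! The number of good points in one sector. -/

set_option autoImplicit false

namespace Pool.Agent.MP_47f5fb_nt.Ct

open Polynomial Finset

namespace SCTx

theorem key {x y q p t B r Q : ℝ} (hx0 : x ≠ 0) (hx : |x| ≤ B) (h1 : 1 ≤ q) (hq : q ≤ Q)
    (hr : 0 < r) (hrQ : r ≤ Q) (hQ : Q ≤ 2 * r) (ht : |y / x - t| ≤ 40 * (1 / r ^ 2))
    (hd : |q * t - p| ≤ 1 / Q) : |q * y - p * x| ≤ 81 * (B / r) := by
  have e : q * y - p * x = x * (q * (y / x - t) + (q * t - p)) := by field_simp; ring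
  have a1 : |q * (y / x - t)| ≤ 2 * r * (40 * (1 / r ^ 2)) := by
    rw [abs_mul, abs_of_pos (by linarith : (0 : ℝ) < q)]
    exact mul_le_mul (hq.trans hQ) ht (abs_nonneg _) (by linarith)
  have a2 : 1 / Q ≤ 1 / r := one_div_le_one_div_of_le hr hrQ
  have a3 : 2 * r * (40 * (1 / r ^ 2)) = 80 * (1 / r) := by field_simp; ring
  have a4 : |q * (y / x - t) + (q * t - p)| ≤ 81 * (1 / r) :=
    (abs_add_le _ _).trans (by linarith)
  rw [e, abs_mul]
  calc |x| * |q * (y / x - t) + (q * t - p)| ≤ B * (81 * (1 / r)) :=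
        mul_le_mul hx a4 (abs_nonneg _) ((abs_nonneg _).trans hx)
    _ = 81 * (B / r) := by ring

theorem big {θ : ℝ} (h0 : 0 < θ) (h1 : θ < 1) (B1 : ℝ) : ∃ B0 : ℝ, ∀ B, B0 ≤ B →
    B1 ≤ B ∧ 20 ≤ B ∧ 4 / B ≤ B ^ (-θ) ∧ B ^ (-θ) ≤ 1 / 50 := by
  have e1 := (tendsto_rpow_atTop h0).eventually_ge_atTop 50
  have e2 := (tendsto_rpow_atTop (sub_pos.2 h1)).eventually_ge_atTop 4
  obtain ⟨B0, h⟩ := Filter.eventually_atTop.1 (e1.and (e2.and
    ((Filter.eventually_ge_atTop B1).and (Filter.eventually_ge_atTop (20 : ℝ)))))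
  refine ⟨B0, fun B hB => ?_⟩
  obtain ⟨a, b, c, d⟩ := h B hB
  have hp : 0 < B := by linarith
  refine ⟨c, d, ?_, ?_⟩
  · have e : B ^ (1 - θ) = B ^ (-θ) * B := by
      rw [show 1 - θ = -θ + 1 by ring, Real.rpow_add hp, Real.rpow_one]
    rw [div_le_iff₀ hp, ← e]
    exact b
  · rw [Real.rpow_neg hp.le, ← one_div]
    exact one_div_le_one_div_of_le (by norm_num) a

end SCTx

theorem sct (rd1 : S_RD1) (rd2 : S_RD2) (sec : S_SEC) (gd : S_GD) (dir : S_DIR) (cur : S_CUR) :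
    S_SCT := by
  intro θ η h0 h1 hη
  obtain ⟨D, B1, hD⟩ := rd1 θ h0 h1
  obtain ⟨K, hK, hc⟩ := cur D η hη
  obtain ⟨B0, hB0⟩ := SCTx.big (by linarith : 0 < θ) h1 B1
  have c1 : (1 : ℝ) ≤ 81 ^ (1 / 3 + η) := Real.one_le_rpow (by norm_num) (by linarith)
  refine ⟨81 ^ (1 / 3 + η) * K, B0, by positivity, fun B hB S P0 hP0 hS => ?_⟩
  obtain ⟨b1, b2, b3, b4⟩ := hB0 B hB
  have hp : 0 < B := by linarith
  have hδ : 0 < B ^ (-θ) := Real.rpow_pos_of_pos hp _
  have g0 := (hS P0 hP0).1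
  have hw : ∀ P ∈ S, |(pt P).w - (pt P0).w| ≤ 40 * B ^ (-θ) := fun P hP => by
    obtain ⟨g, t, w⟩ := hS P hP
    obtain ⟨s1, s2⟩ := gd B _ P0 P b2 hδ b4 g0 g
    exact sec _ _ _ s1 (s2.trans b3) t w (gd B _ P P b2 hδ b4 g g).1.2.2.2.2.2.2
  have hG : OnG D S := rd2 D S fun p hp' => hD B b1 P0 p g0 fun i =>
    ⟨(hS _ (hp' i)).1, (hS _ (hp' i)).2.1, hw _ (hp' i)⟩
  constructor
  · have h := hc S B B 0 1 0 1 (by linarith) le_rfl one_ne_zero one_ne_zero (by simp [Fb])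
      (fun P hP => by
        obtain ⟨s, -, x, y, z, -⟩ := (hS P hP).1
        have y' : |(P.2.1 : ℝ)| ≤ |(P.1 : ℝ)| := by exact_mod_cast y
        have z' : |(P.2.2 : ℝ)| ≤ |(P.1 : ℝ)| := by exact_mod_cast z
        exact ⟨s, x, by simpa using y'.trans x, by simpa using z'.trans x⟩) hG
    rw [mul_assoc, ← Real.rpow_add hp] at h
    refine h.trans (mul_le_mul_of_nonneg_right ?_ (Real.rpow_nonneg hp.le _))
    exact le_mul_of_one_le_left hK c1
  · obtain ⟨r, hr⟩ : ∃ r, r = B ^ (θ / 2) := ⟨_, rfl⟩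
    have r1 : 1 ≤ r := hr ▸ Real.one_le_rpow (by linarith) (by linarith)
    have r0 : 0 < r := by linarith
    have r2 : B ^ (-θ) = 1 / r ^ 2 := by
      rw [hr, ← Real.rpow_natCast, ← Real.rpow_mul hp.le, Real.rpow_neg hp.le, one_div]
      congr 2
      push_cast
      ring
    have r3 : B / r = B ^ (1 - θ / 2) := by rw [hr, Real.rpow_sub hp, Real.rpow_one]
    have r4 : 1 ≤ B / r := r3 ▸ Real.one_le_rpow (by linarith) (by linarith)
    have r5 : B / r ≤ B := div_le_self hp.le r1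
    rw [← hr]
    have q1 : r ≤ (⌈r⌉₊ : ℝ) := Nat.le_ceil r
    have q2 : (⌈r⌉₊ : ℝ) ≤ 2 * r := by linarith [Nat.ceil_lt_add_one r0.le]
    obtain ⟨p, q, p', q', a1, a2, a3, a4, a5, a6, a7⟩ :=
      dir ⌈r⌉₊ (pt P0).t (pt P0).w (Nat.one_le_iff_ne_zero.2 (Nat.ceil_pos.2 r0).ne')
    refine a7.imp (fun a7 => ?_) id
    have h := hc S (81 * (B / r)) (81 * B) p q p' q' (by linarith) (by linarith) (by omega)
      (by omega) a7 (fun P hP => by
        obtain ⟨s, x0, x, -⟩ := (hS P hP).1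
        have hx0 : (P.1 : ℝ) ≠ 0 := abs_pos.1 (by linarith)
        have t := (hS P hP).2.1
        have w := hw P hP
        rw [r2] at t w
        refine ⟨s, by linarith, ?_, ?_⟩
        · push_cast
          refine SCTx.key hx0 x (by exact_mod_cast a1) (by exact_mod_cast a2) r0 q1 q2
            (t.trans ?_) a5
          have : 0 ≤ 1 / r ^ 2 := by positivity
          linarith
        · push_cast
          exact SCTx.key hx0 x (by exact_mod_cast a3) (by exact_mod_cast a4) r0 q1 q2 w a6) hG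
    refine h.trans (le_of_eq ?_)
    rw [r3, Real.mul_rpow (by norm_num) (Real.rpow_nonneg hp.le _),
      Real.mul_rpow (by norm_num) hp.le, ← Real.rpow_mul hp.le, Real.rpow_add hp,
      Real.rpow_add (by norm_num : (0 : ℝ) < 81), mul_one_div]
    ring

end Pool.Agent.MP_47f5fb_nt.Ct
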