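import Pool.Agent.MP_47f5fb_nt.Ct.Spec

/-! The third coordinate moves at most forty times the sector width. -/

set_option autoImplicit false

namespace Pool.Agent.MP_47f5fb_nt.Ct

open Polynomial Finset

namespace SECx

theorem mb {a b A B : ℝ} (ha : |a| ≤ A) (hb : |b| ≤ B) : |a * b| ≤ A * B := by
  rw [abs_mul]
  exact mul_le_mul ha hb (abs_nonneg _) ((abs_nonneg _).trans ha)

theorem core (δ u0 t0 w0 up ta om : ℝ) (hδ : 0 < δ) (hδ1 : δ ≤ 1 / 50) (hu : |u0| ≤ 1 / 10)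
    (ht : |t0| ≤ 1) (hw : |w0| ≤ 1) (hl : 1 / 4 ≤ |3 * w0 ^ 2 - t0 + u0 ^ 2|)
    (hup : |up| ≤ δ) (hta : |ta| ≤ δ) (hom : |om| ≤ 1 / 100)
    (h : (3 * w0 ^ 2 - t0 + u0 ^ 2) * om =
      -((ta * (3 * (t0 * t0) + 3 * (t0 * ta) + ta * ta) - ta * w0
        + up * (2 * u0 + up) * (1 + t0 + ta + w0) + u0 * u0 * ta
        - up * (3 * (u0 * u0) + 3 * (u0 * up) + up * up))
        + om * (3 * (w0 * om) + om * om - ta + up * (2 * u0 + up)))) : |om| ≤ 40 * δ := by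
  have hup' : |up| ≤ 1 / 50 := hup.trans hδ1
  have hta' : |ta| ≤ 1 / 50 := hta.trans hδ1
  have a1 := abs_le.1 (mb ht ht)
  have a2 := abs_le.1 (mb ht hta')
  have a3 := abs_le.1 (mb hta' hta')
  have b1 : |3 * (t0 * t0) + 3 * (t0 * ta) + ta * ta| ≤ 31 / 10 := by
    rw [abs_le]; constructor <;> linarith [a1.1, a1.2, a2.1, a2.2, a3.1, a3.2]
  have c1 := abs_le.1 (mb hta b1)
  have c2 := abs_le.1 (mb hta hw)
  have hu2 := abs_le.1 hu
  have ht2 := abs_le.1 ht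
  have hw2 := abs_le.1 hw
  have hup2 := abs_le.1 hup'
  have hta2 := abs_le.1 hta'
  have b2 : |2 * u0 + up| ≤ 11 / 50 := by
    rw [abs_le]; constructor <;> linarith [hu2.1, hu2.2, hup2.1, hup2.2]
  have b3 : |1 + t0 + ta + w0| ≤ 31 / 10 := by
    rw [abs_le]; constructor <;> linarith [ht2.1, ht2.2, hw2.1, hw2.2, hta2.1, hta2.2]
  have c3 := abs_le.1 (mb (mb hup b2) b3)
  have c4 := abs_le.1 (mb (mb hu hu) hta)
  have a4 := abs_le.1 (mb hu hu)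
  have a5 := abs_le.1 (mb hu hup')
  have a6 := abs_le.1 (mb hup' hup')
  have b4 : |3 * (u0 * u0) + 3 * (u0 * up) + up * up| ≤ 1 / 25 := by
    rw [abs_le]; constructor <;> linarith [a4.1, a4.2, a5.1, a5.2, a6.1, a6.2]
  have c5 := abs_le.1 (mb hup b4)
  have a7 := abs_le.1 (mb hw hom)
  have a8 := abs_le.1 (mb hom hom)
  have a9 := abs_le.1 (mb hup' b2)
  have b5 : |3 * (w0 * om) + om * om - ta + up * (2 * u0 + up)| ≤ 3 / 50 := by
    rw [abs_le]; constructor <;> linarith [a7.1, a7.2, a8.1, a8.2, a9.1, a9.2, hta2.1, hta2.2]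
  have c6 := abs_le.1 (mb (le_refl |om|) b5)
  have e1 : |(3 * w0 ^ 2 - t0 + u0 ^ 2) * om| ≤ 5 * δ + |om| * (3 / 50) := by
    rw [h, abs_le]
    constructor <;>
      linarith [c1.1, c1.2, c2.1, c2.2, c3.1, c3.2, c4.1, c4.2, c5.1, c5.2, c6.1, c6.2]
  have e2 : 1 / 4 * |om| ≤ |(3 * w0 ^ 2 - t0 + u0 ^ 2) * om| := by
    rw [abs_mul]
    exact mul_le_mul_of_nonneg_right hl (abs_nonneg _)
  linarith

end SECx

theorem sec : S_SEC := by
  intro δ b v hb hu ht hw hv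
  obtain ⟨h0, h1, h2, h3, h4, h5, h6⟩ := hb
  refine SECx.core δ b.u b.t b.w (v.u - b.u) (v.t - b.t) (v.w - b.w) h0 h1 h2 h3 h4 h5 hu ht hw ?_
  unfold Phi at hv h6
  linear_combination hv - h6

end Pool.Agent.MP_47f5fb_nt.Ct
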