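import Pool.Agent.MP_47f5fb_nt.Ct.Spec

/-! Row SHL: the count in a dyadic shell from the count of good points, by symmetry. -/

namespace Pool.Agent.MP_47f5fb_nt.Ct

open Polynomial Finset

namespace SHLx

theorem key (u t w : ℝ) (hu : |u| ≤ 1 / 10) (ht : |t| ≤ 1) (hw : |w| ≤ 1)
    (h : 1 + t ^ 3 + w ^ 3 - t * w + u ^ 2 * (1 + t + w) - u ^ 3 = 0) :
    1 / 4 ≤ |3 * w ^ 2 - t + u ^ 2| ∨ 1 / 4 ≤ |3 * t ^ 2 - w + u ^ 2| := by
  by_contra c
  rw [not_or, not_le, not_le] at c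
  obtain ⟨c1, c2⟩ := c
  have e : 3 + 3 * (u ^ 2 * (1 + t + w)) - 3 * (u ^ 2 * u) - t * w - u ^ 2 * (t + w) +
      t * (3 * t ^ 2 - w + u ^ 2) + w * (3 * w ^ 2 - t + u ^ 2) = 0 := by
    linear_combination 3 * h
  have m : ∀ a b p q : ℝ, |a| ≤ p → |b| ≤ q → |a * b| ≤ p * q := fun a b p q ha hb => by
    rw [abs_mul]
    exact mul_le_mul ha hb (abs_nonneg _) ((abs_nonneg _).trans ha)
  have u2 : |u ^ 2| ≤ 1 / 10 * (1 / 10) := by
    rw [pow_two]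
    exact m _ _ _ _ hu hu
  have a1 := abs_le.1 ht
  have a2 := abs_le.1 hw
  have b1 := abs_le.1 (m _ (1 + t + w) _ 3 u2 (abs_le.2 ⟨by linarith, by linarith⟩))
  have b2 := abs_le.1 (m _ _ _ _ u2 hu)
  have b3 := abs_le.1 (m _ _ _ _ ht hw)
  have b4 := abs_le.1 (m _ (t + w) _ 2 u2 (abs_le.2 ⟨by linarith, by linarith⟩))
  have b5 := abs_le.1 (m _ _ _ _ ht c2.le)
  have b6 := abs_le.1 (m _ _ _ _ hw c1.le)
  linarith [b1.1, b2.2, b3.2, b4.2, b5.1, b6.1]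

theorem one {B : ℝ} (hB : 20 ≤ B) (x y z : ℤ) (h : Sol (x, y, z)) (h1 : B / 2 < |(x : ℝ)|)
    (h2 : |(x : ℝ)| ≤ B) (hy : |y| ≤ |x|) (hz : |z| ≤ |x|) :
    Gd B (x, y, z) ∨ Gd B (x, z, y) := by
  have x0 : (0 : ℝ) < |(x : ℝ)| := by linarith
  have xn : (x : ℝ) ≠ 0 := abs_pos.1 x0
  have hy' : |(y : ℝ)| ≤ |(x : ℝ)| := by exact_mod_cast hy
  have hz' : |(z : ℝ)| ≤ |(x : ℝ)| := by exact_mod_cast hz
  have hr : (x : ℝ) ^ 3 + x + (y : ℝ) ^ 3 + y + (z : ℝ) ^ 3 + z = x * y * z + 1 := by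
    have h' : x ^ 3 + x + y ^ 3 + y + z ^ 3 + z = x * y * z + 1 := h
    exact_mod_cast h'
  have hs : Sol (x, z, y) := by
    unfold Sol at h ⊢
    linear_combination h
  have k := key (1 / (x : ℝ)) ((y : ℝ) / x) ((z : ℝ) / x)
    (by rw [abs_div, abs_one, div_le_iff₀ x0]; linarith)
    (by rw [abs_div, div_le_one x0]; exact hy') (by rw [abs_div, div_le_one x0]; exact hz')
    (by field_simp; linear_combination hr)
  rcases k with k | k
  · exact Or.inl ⟨h, h1, h2, hy, hz, k⟩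
  · exact Or.inr ⟨hs, h1, h2, hz, hy, k⟩

theorem six {B : ℝ} (hB : 20 ≤ B) (x y z : ℤ) (h : Sol (x, y, z)) (bx : |(x : ℝ)| ≤ B)
    (by' : |(y : ℝ)| ≤ B) (bz : |(z : ℝ)| ≤ B)
    (o : B / 2 < |(x : ℝ)| ∨ B / 2 < |(y : ℝ)| ∨ B / 2 < |(z : ℝ)|) :
    (Gd B (x, y, z) ∨ Gd B (x, z, y)) ∨ (Gd B (y, x, z) ∨ Gd B (y, z, x)) ∨
      (Gd B (z, x, y) ∨ Gd B (z, y, x)) := by
  have c : ∀ a b : ℤ, |a| ≤ |b| → |(a : ℝ)| ≤ |(b : ℝ)| := fun a b e => by exact_mod_cast e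
  have s2 : Sol (y, x, z) := by
    unfold Sol at h ⊢
    linear_combination h
  have s3 : Sol (z, x, y) := by
    unfold Sol at h ⊢
    linear_combination h
  have tri : (|y| ≤ |x| ∧ |z| ≤ |x|) ∨ (|x| ≤ |y| ∧ |z| ≤ |y|) ∨ (|x| ≤ |z| ∧ |y| ≤ |z|) := by
    omega
  rcases tri with ⟨p, q⟩ | ⟨p, q⟩ | ⟨p, q⟩
  · refine Or.inl (one hB x y z h ?_ bx p q)
    have := c _ _ p
    have := c _ _ q
    rcases o with o | o | o <;> linarith
  · refine Or.inr (Or.inl (one hB y x z s2 ?_ by' p q))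
    have := c _ _ p
    have := c _ _ q
    rcases o with o | o | o <;> linarith
  · refine Or.inr (Or.inr (one hB z x y s3 ?_ bz p q))
    have := c _ _ p
    have := c _ _ q
    rcases o with o | o | o <;> linarith

end SHLx

open Classical in
theorem shl (dya : S_DYA) : S_SHL := by
  intro ε hε
  obtain ⟨K, B0, hK, h⟩ := dya ε hε
  refine ⟨6 * K, max B0 20, by positivity, fun B hB S hS => ?_⟩
  have f : ∀ σ : Z3 → Z3, Function.Injective σ →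
      ((S.filter fun P => Gd B (σ P)).card : ℝ) ≤ K * B ^ (23 / 24 + ε) := fun σ hσ => by
    rw [← card_image_of_injective _ hσ]
    refine h B ((le_max_left _ _).trans hB) _ fun Q hQ => ?_
    obtain ⟨P, hP, rfl⟩ := mem_image.1 hQ
    exact (mem_filter.1 hP).2
  have inj : ∀ σ τ : Z3 → Z3, (∀ P, τ (σ P) = P) → Function.Injective σ :=
    fun σ τ e => Function.LeftInverse.injective e
  have f1 := f (fun P => (P.1, P.2.1, P.2.2)) (inj _ (fun P => (P.1, P.2.1, P.2.2)) fun _ => rfl)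
  have f2 := f (fun P => (P.1, P.2.2, P.2.1)) (inj _ (fun P => (P.1, P.2.2, P.2.1)) fun _ => rfl)
  have f3 := f (fun P => (P.2.1, P.1, P.2.2)) (inj _ (fun P => (P.2.1, P.1, P.2.2)) fun _ => rfl)
  have f4 := f (fun P => (P.2.1, P.2.2, P.1)) (inj _ (fun P => (P.2.2, P.1, P.2.1)) fun _ => rfl)
  have f5 := f (fun P => (P.2.2, P.1, P.2.1)) (inj _ (fun P => (P.2.1, P.2.2, P.1)) fun _ => rfl)
  have f6 := f (fun P => (P.2.2, P.2.1, P.1)) (inj _ (fun P => (P.2.2, P.2.1, P.1)) fun _ => rfl)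
  have sub : S ⊆ ((S.filter fun P => Gd B (P.1, P.2.1, P.2.2)) ∪
      (S.filter fun P => Gd B (P.1, P.2.2, P.2.1))) ∪
      (((S.filter fun P => Gd B (P.2.1, P.1, P.2.2)) ∪
      (S.filter fun P => Gd B (P.2.1, P.2.2, P.1))) ∪
      ((S.filter fun P => Gd B (P.2.2, P.1, P.2.1)) ∪
      (S.filter fun P => Gd B (P.2.2, P.2.1, P.1)))) := by
    intro P hP
    obtain ⟨a, b, c, d, e⟩ := hS P hP
    simp only [mem_union, mem_filter, hP, true_and]
    exact SHLx.six ((le_max_right _ _).trans hB) P.1 P.2.1 P.2.2 a b c d e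
  have n := (card_le_card sub).trans ((card_union_le _ _).trans (Nat.add_le_add
    (card_union_le _ _) ((card_union_le _ _).trans
      (Nat.add_le_add (card_union_le _ _) (card_union_le _ _)))))
  have n' := (Nat.cast_le (α := ℝ)).2 n
  push_cast at n'
  linarith

end Pool.Agent.MP_47f5fb_nt.Ct
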