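import Pool.Agent.MP_47f5fb_nt.Ct.Spec

/-! Siegel step: a rational kernel vector gives a small integer kernel vector. -/

set_option autoImplicit false

namespace Pool.Agent.MP_47f5fb_nt.Ct

open Polynomial Finset

namespace SIEx

open scoped Matrix.Norms.Elementwise

/-- the functional `v ↦ ∑ φ c * v c` -/
noncomputable def fn {ι : Type} [Fintype ι] (φ : ι → ℚ) : (ι → ℚ) →ₗ[ℚ] ℚ where
  toFun v := ∑ c, φ c * v c
  map_add' v w := by simp [mul_add, Finset.sum_add_distrib]
  map_smul' a v := by simp [Finset.mul_sum, mul_left_comm]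

theorem fn_apply {ι : Type} [Fintype ι] (φ v : ι → ℚ) : fn φ v = ∑ c, φ c * v c := rfl

theorem small {ι : Type} [Fintype ι] (m : ℕ) (A : Matrix (Fin m) ι ℤ) (Y : ℝ) (hY : 1 ≤ Y)
    (hA : ∀ i c, |(A i c : ℝ)| ≤ Y) (hm : m < Fintype.card ι) :
    ∃ ψ : ι → ℤ, ψ ≠ 0 ∧ (∀ c, |(ψ c : ℝ)| ≤ (Fintype.card ι * Y) ^ Fintype.card ι) ∧
      ∀ i, ∑ c, ψ c * A i c = 0 := by
  classical
  have hn1 : 1 ≤ Fintype.card ι := by omega
  have hn1' : (1 : ℝ) ≤ Fintype.card ι := by exact_mod_cast hn1
  have hb : (1 : ℝ) ≤ Fintype.card ι * Y := by nlinarith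
  rcases Nat.eq_zero_or_pos m with h0 | h0
  · subst h0
    obtain ⟨c0⟩ : Nonempty ι := Fintype.card_pos_iff.mp (by omega)
    refine ⟨fun _ => 1, ?_, fun c => ?_, fun i => i.elim0⟩
    · intro h
      have := congrFun h c0
      simp at this
    · simpa using one_le_pow₀ hb
  · obtain ⟨t, ht0, hAt, htn⟩ := Int.Matrix.exists_ne_zero_int_vec_norm_le A
      (by simpa using hm) (by simpa using h0)
    refine ⟨t, ht0, fun c => ?_, fun i => ?_⟩
    · have h1 : |(t c : ℝ)| ≤ ‖t‖ := by
        have := norm_le_pi_norm t c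
        rwa [Int.norm_eq_abs] at this
      have hAn : ‖A‖ ≤ Y := by
        rw [Matrix.norm_le_iff (by linarith)]
        intro i j
        rw [Int.norm_eq_abs]
        exact hA i j
      have hmx : max 1 ‖A‖ ≤ Y := max_le hY hAn
      have hmx1 : (1 : ℝ) ≤ max 1 ‖A‖ := le_max_left _ _
      have hlt : (m : ℝ) + 1 ≤ Fintype.card ι := by exact_mod_cast hm
      have hm0 : (0 : ℝ) ≤ m := Nat.cast_nonneg m
      have he0 : (0 : ℝ) ≤ (Fintype.card (Fin m) : ℝ) /
          ((Fintype.card ι : ℝ) - (Fintype.card (Fin m) : ℝ)) := by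
        rw [Fintype.card_fin]
        exact div_nonneg hm0 (by linarith)
      have he1 : (Fintype.card (Fin m) : ℝ) /
          ((Fintype.card ι : ℝ) - (Fintype.card (Fin m) : ℝ)) ≤ (Fintype.card ι : ℝ) := by
        rw [Fintype.card_fin, div_le_iff₀ (by linarith)]
        nlinarith
      refine h1.trans (htn.trans ?_)
      rw [← Real.rpow_natCast]
      refine (Real.rpow_le_rpow (by positivity)
        (mul_le_mul_of_nonneg_left hmx (by positivity)) he0).trans ?_
      exact Real.rpow_le_rpow_of_exponent_le hb he1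
    · have := congrFun hAt i
      simp only [Matrix.mulVec, dotProduct, Pi.zero_apply] at this
      rw [← this]
      exact Finset.sum_congr rfl fun c _ => mul_comm _ _

end SIEx

open SIEx in
theorem sie : S_SIE := by
  classical
  intro ι S _ r Y hY hr ⟨φ, hφ0, hφ⟩
  set rows : Set (ι → ℚ) := Set.range fun s c => (r s c : ℚ) with hrows
  obtain ⟨f, hf, hspan, -⟩ := Submodule.exists_fun_fin_finrank_span_eq ℚ rows
  choose p hp using hf
  have hlt : Module.finrank ℚ (Submodule.span ℚ rows) < Fintype.card ι := by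
    have hne : Submodule.span ℚ rows ≠ ⊤ := by
      intro htop
      have hle : Submodule.span ℚ rows ≤ LinearMap.ker (fn φ) := by
        rw [Submodule.span_le]
        rintro _ ⟨s, rfl⟩
        exact hφ s
      apply hφ0
      funext c
      have : fn φ (Pi.single c 1) = 0 := hle (htop ▸ Submodule.mem_top)
      rw [fn_apply] at this
      simpa [Pi.single_apply] using this
    have := Submodule.finrank_lt hne
    simpa using this
  obtain ⟨ψ, h0, hb, hk⟩ := small _ (Matrix.of fun i c => r (p i) c) Y hY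
    (fun i c => hr _ _) hlt
  refine ⟨ψ, h0, hb, fun s => ?_⟩
  have hle : Submodule.span ℚ rows ≤ LinearMap.ker (fn fun c => (ψ c : ℚ)) := by
    rw [← hspan, Submodule.span_le]
    rintro _ ⟨i, rfl⟩
    rw [← hp i]
    have := hk i
    simp only [Matrix.of_apply] at this
    show ∑ c, (ψ c : ℚ) * (r (p i) c : ℚ) = 0
    exact_mod_cast this
  have : ∑ c, (ψ c : ℚ) * (r s c : ℚ) = 0 := hle (Submodule.subset_span ⟨s, rfl⟩)
  exact_mod_cast this

end Pool.Agent.MP_47f5fb_nt.Ct
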