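import Pool.Agent.MP_47f5fb_nt.Ct.Spec

/-! A small prime that does not divide a given integer. -/

set_option autoImplicit false

namespace Pool.Agent.MP_47f5fb_nt.Ct

open Polynomial Finset

namespace SMQx

theorem small {n : ℕ} (hn : n ≠ 0) :
    ∃ q : ℕ, q.Prime ∧ ¬ q ∣ n ∧ q ≤ 3 * n.divisors.card ^ 2 := by
  classical
  have hex : ∃ q : ℕ, q.Prime ∧ ¬ q ∣ n := by
    obtain ⟨q, h1, h2⟩ := Nat.exists_infinite_primes (n + 1)
    exact ⟨q, h2, fun h => by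
      have := Nat.le_of_dvd (Nat.pos_of_ne_zero hn) h
      omega⟩
  obtain ⟨h1, h2⟩ := Nat.find_spec hex
  have h3 : ∀ m < Nat.find hex, m.Prime → m ∣ n := fun m hm hp =>
    by_contra fun h => Nat.find_min hex hm ⟨hp, h⟩
  generalize Nat.find hex = q at h1 h2 h3
  refine ⟨q, h1, h2, ?_⟩
  have hsub : Icc 1 (q - 1) ⊆
      (n.divisors ×ˢ Icc 1 (Nat.sqrt q)).image fun p : ℕ × ℕ => p.2 ^ 2 * p.1 := by
    intro m hm
    rw [mem_Icc] at hm
    obtain ⟨a, b, hab, ha⟩ := Nat.sq_mul_squarefree m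
    have ha0 : 0 < a := Nat.pos_of_ne_zero ha.ne_zero
    have hb0 : 0 < b := Nat.pos_of_ne_zero fun h => by
      rw [h] at hab
      omega
    have a1 : a ≤ b ^ 2 * a := Nat.le_mul_of_pos_left _ (pow_pos hb0 2)
    have a2 : b ^ 2 ≤ b ^ 2 * a := Nat.le_mul_of_pos_right _ ha0
    refine mem_image.2 ⟨(a, b), mem_product.2 ⟨Nat.mem_divisors.2 ⟨?_, hn⟩,
      mem_Icc.2 ⟨hb0, Nat.le_sqrt'.2 (by show b ^ 2 ≤ q; omega)⟩⟩, hab⟩
    show a ∣ n
    rw [← Nat.prod_primeFactors_of_squarefree ha]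
    refine Finset.prod_primes_dvd n (fun p hp => (Nat.prime_of_mem_primeFactors hp).prime)
      fun p hp => h3 p ?_ (Nat.prime_of_mem_primeFactors hp)
    have := Nat.le_of_mem_primeFactors hp
    omega
  have h4 := (card_le_card hsub).trans card_image_le
  rw [card_product, Nat.card_Icc, Nat.card_Icc, Nat.add_sub_cancel, Nat.add_sub_cancel] at h4
  have h5 : 0 < n.divisors.card := card_pos.2 ⟨1, Nat.one_mem_divisors.2 hn⟩
  have h6 := Nat.sqrt_le q
  generalize n.divisors.card = t at h4 h5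
  generalize Nat.sqrt q = s at h4 h6
  have h7 : q ≤ t * s + 1 := by omega
  have h8 : s ≤ t + 1 := by
    by_contra h
    have a1 : t + 2 ≤ s := by omega
    nlinarith
  nlinarith

end SMQx

theorem smq : S_SMQ := by
  intro η hη
  obtain ⟨C, hC, h⟩ := MP_abff10_nt.divisor_bound (η := η / 2) (by positivity)
  refine ⟨3 * C ^ 2, by nlinarith, fun N hN => ?_⟩
  have hn : N.natAbs ≠ 0 := Int.natAbs_ne_zero.2 hN
  obtain ⟨q, h1, h2, h3⟩ := SMQx.small hn
  refine ⟨q, h1.two_le, ?_, ?_⟩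
  · rw [Int.isCoprime_iff_gcd_eq_one]
    exact ((Nat.Prime.coprime_iff_not_dvd h1).2 h2).symm
  · have a1 := pow_le_pow_left₀ (Nat.cast_nonneg _) (h _ (Nat.one_le_iff_ne_zero.2 hn)) 2
    have a2 : (q : ℝ) ≤ 3 * (N.natAbs.divisors.card : ℝ) ^ 2 := by exact_mod_cast h3
    rw [mul_pow, ← Real.rpow_natCast (_ ^ (η / 2)), ← Real.rpow_mul (Nat.cast_nonneg _),
      Nat.cast_natAbs, Int.cast_abs, Nat.cast_ofNat, div_mul_cancel₀ _ two_ne_zero] at a1
    linarith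

end Pool.Agent.MP_47f5fb_nt.Ct
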