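import Pool.Agent.MP_47f5fb_nt.Ct.Spec

/-! A monic factor of a polynomial of full total degree has full total degree. -/

set_option autoImplicit false

namespace Pool.Agent.MP_47f5fb_nt.Ct

open Polynomial Finset

namespace TDFx

/-- grading by the total degree -/
noncomputable def psi : ℚ[X][X] →+* ℚ[X][X][X] :=
  eval₂RingHom (S := ℚ[X][X][X]) (eval₂RingHom (S := ℚ[X][X][X])
    ((C : ℚ[X][X] →+* ℚ[X][X][X]).comp ((C : ℚ[X] →+* ℚ[X][X]).comp C)) (C (C X) * X)) (C X * X)

theorem psi_mon (n j : ℕ) (c : ℚ) :
    psi (monomial n (monomial j c)) = monomial (j + n) (monomial n (monomial j c)) := by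
  simp only [psi, coe_eval₂RingHom, eval₂_monomial, RingHom.comp_apply]
  simp only [← C_mul_X_pow_eq_monomial, map_mul, map_pow]
  ring

theorem psi_coeff (P : ℚ[X][X]) (m i k : ℕ) :
    (((psi P).coeff m).coeff i).coeff k = if k + i = m then (P.coeff i).coeff k else 0 := by
  induction P using Polynomial.induction_on' with
  | add p q hp hq =>
    simp only [map_add, coeff_add, hp, hq]
    split_ifs <;> simp
  | monomial n a =>
    induction a using Polynomial.induction_on' with
    | add p q hp hq =>
      simp only [map_add, coeff_add, hp, hq]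
      split_ifs <;> simp
    | monomial j c =>
      rw [psi_mon]
      by_cases h1 : n = i
      · subst h1
        by_cases h2 : j = k
        · subst h2
          by_cases h3 : j + n = m <;> simp [coeff_monomial, h3]
        · by_cases h3 : j + n = m <;> simp [coeff_monomial, h2, h3]
      · by_cases h3 : j + n = m <;> simp [coeff_monomial, h1, h3]

theorem le_deg {P : ℚ[X][X]} {i : ℕ} (h : P.coeff i ≠ 0) :
    (psi P).coeff ((P.coeff i).natDegree + i) ≠ 0 := fun e => by
  have k := psi_coeff P ((P.coeff i).natDegree + i) i (P.coeff i).natDegree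
  rw [e, if_pos rfl] at k
  exact h (leadingCoeff_eq_zero.1 (by simpa using k.symm))

theorem mon {P : ℚ[X][X]} (h : P.Monic) : psi P ≠ 0 ∧ P.natDegree ≤ (psi P).natDegree := by
  have k := le_deg (P := P) (i := P.natDegree) (by rw [h.coeff_natDegree]; exact one_ne_zero)
  exact ⟨fun e => k (by rw [e, coeff_zero]), le_add_self.trans (le_natDegree_of_ne_zero k)⟩

theorem deg_le {P : ℚ[X][X]} (h : TD P) : (psi P).natDegree ≤ P.natDegree := by
  refine natDegree_le_iff_coeff_eq_zero.2 fun m hm => ?_
  ext i k
  rw [psi_coeff, coeff_zero, coeff_zero]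
  split_ifs with e
  · by_cases hi : P.natDegree < i
    · rw [coeff_eq_zero_of_natDegree_lt hi, coeff_zero]
    · have := h.2 i
      exact coeff_eq_zero_of_natDegree_lt (by omega)
  · rfl

end TDFx

theorem tdf : S_TDF := by
  intro P Q hP hQ h
  have h1 := TDFx.deg_le h
  obtain ⟨p0, p1⟩ := TDFx.mon hP
  obtain ⟨q0, q1⟩ := TDFx.mon hQ
  rw [map_mul, natDegree_mul p0 q0, hP.natDegree_mul hQ] at h1
  refine ⟨hP, fun i => ?_⟩
  by_cases e : P.coeff i = 0
  · rw [e, natDegree_zero]
    exact Nat.zero_le _
  · have := le_natDegree_of_ne_zero (TDFx.le_deg e)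
    omega

end Pool.Agent.MP_47f5fb_nt.Ct
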