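import Pool.Agent.MP_47f5fb_nt.Ct.Spec

/-! A line in a direction off the surface meets the cubic in at most three points. -/

set_option autoImplicit false

namespace Pool.Agent.MP_47f5fb_nt.Ct

open Polynomial Finset

namespace TRIx

theorem expand (e V : Fin 4 → ℚ) : ∃ h1 h2 h3 : ℚ, ∀ a : ℚ,
    Fb (fun i => a * e i + V i) = Fb e * a ^ 3 + h1 * a ^ 2 + h2 * a + h3 := by
  refine ⟨3 * e 0 ^ 2 * V 0 + 3 * e 1 ^ 2 * V 1 + 3 * e 2 ^ 2 * V 2 -
      (e 0 * e 1 * V 2 + e 0 * V 1 * e 2 + V 0 * e 1 * e 2) +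
      ((V 0 + V 1 + V 2) * e 3 ^ 2 + 2 * (e 0 + e 1 + e 2) * e 3 * V 3) - 3 * e 3 ^ 2 * V 3,
    3 * e 0 * V 0 ^ 2 + 3 * e 1 * V 1 ^ 2 + 3 * e 2 * V 2 ^ 2 -
      (e 0 * V 1 * V 2 + V 0 * e 1 * V 2 + V 0 * V 1 * e 2) +
      ((e 0 + e 1 + e 2) * V 3 ^ 2 + 2 * (V 0 + V 1 + V 2) * e 3 * V 3) - 3 * e 3 * V 3 ^ 2,
    Fb V, fun a => ?_⟩
  simp only [Fb]
  ring

theorem card_roots (k h1 h2 h3 : ℚ) (hk : k ≠ 0) (A : Finset ℚ)
    (hA : ∀ a ∈ A, k * a ^ 3 + h1 * a ^ 2 + h2 * a + h3 = 0) : A.card ≤ 3 := by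
  let P : Cubic ℚ := ⟨k, h1, h2, h3⟩
  have hP : P.toPoly ≠ 0 := Cubic.ne_zero_of_a_ne_zero hk
  have hd : P.toPoly.natDegree = 3 := Cubic.natDegree_of_a_ne_zero hk
  rw [← hd]
  refine Polynomial.card_le_degree_of_subset_roots ?_
  intro a ha
  rw [Polynomial.mem_roots hP]
  have := hA a ha
  simp only [IsRoot.def, Cubic.toPoly, P, eval_add, eval_mul, eval_C, eval_pow, eval_X]
  exact this

end TRIx

theorem tri : S_TRI := by
  intro ι e f g o T b a c he hX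
  classical
  refine Finset.card_le_mul_card_image T 3 ?_
  intro y _
  obtain ⟨h1, h2, h3, hexp⟩ := TRIx.expand e (fun i => y.1 * f i + y.2 * g i + o i)
  have hinj : Set.InjOn a (T.filter fun p => (b p, c p) = y : Finset ι) := by
    intro p hp q hq hpq
    simp only [Finset.coe_filter, Set.mem_ofPred_eq] at hp hq
    have h := hp.2.trans hq.2.symm
    simp only [Prod.mk.injEq] at h
    exact hX.1 hp.1 hq.1 (by simp only [h.1, h.2, hpq])
  rw [← Finset.card_image_of_injOn hinj]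
  refine TRIx.card_roots (Fb e) h1 h2 h3 he _ ?_
  intro x hx
  obtain ⟨p, hp, rfl⟩ := Finset.mem_image.1 hx
  obtain ⟨hpT, hy⟩ := Finset.mem_filter.1 hp
  rw [← hexp, ← hX.2 p hpT, ← hy]
  congr 1
  funext i
  simp only [Pi.add_apply, Pi.smul_apply, smul_eq_mul]
  ring

end Pool.Agent.MP_47f5fb_nt.Ct
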