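import Pool.Agent.MP_47f5fb_nt.Ct.Asm
import Pool.Agent.MP_47f5fb_nt.Ct.AP1
import Pool.Agent.MP_47f5fb_nt.Ct.AP2
import Pool.Agent.MP_47f5fb_nt.Ct.AP3
import Pool.Agent.MP_47f5fb_nt.Ct.AP4
import Pool.Agent.MP_47f5fb_nt.Ct.BAD
import Pool.Agent.MP_47f5fb_nt.Ct.BEZ
import Pool.Agent.MP_47f5fb_nt.Ct.C1
import Pool.Agent.MP_47f5fb_nt.Ct.C2
import Pool.Agent.MP_47f5fb_nt.Ct.C3
import Pool.Agent.MP_47f5fb_nt.Ct.CL1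
import Pool.Agent.MP_47f5fb_nt.Ct.CLS
import Pool.Agent.MP_47f5fb_nt.Ct.CONIC
import Pool.Agent.MP_47f5fb_nt.Ct.CUR
import Pool.Agent.MP_47f5fb_nt.Ct.DEG
import Pool.Agent.MP_47f5fb_nt.Ct.DET
import Pool.Agent.MP_47f5fb_nt.Ct.DIR
import Pool.Agent.MP_47f5fb_nt.Ct.DYA
import Pool.Agent.MP_47f5fb_nt.Ct.FAC
import Pool.Agent.MP_47f5fb_nt.Ct.FIB
import Pool.Agent.MP_47f5fb_nt.Ct.GD
import Pool.Agent.MP_47f5fb_nt.Ct.HEN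
import Pool.Agent.MP_47f5fb_nt.Ct.HI1
import Pool.Agent.MP_47f5fb_nt.Ct.HIL
import Pool.Agent.MP_47f5fb_nt.Ct.HT
import Pool.Agent.MP_47f5fb_nt.Ct.LIN
import Pool.Agent.MP_47f5fb_nt.Ct.MAI
import Pool.Agent.MP_47f5fb_nt.Ct.MON
import Pool.Agent.MP_47f5fb_nt.Ct.NL
import Pool.Agent.MP_47f5fb_nt.Ct.NRM
import Pool.Agent.MP_47f5fb_nt.Ct.PAR
import Pool.Agent.MP_47f5fb_nt.Ct.PNR
import Pool.Agent.MP_47f5fb_nt.Ct.RD1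
import Pool.Agent.MP_47f5fb_nt.Ct.RD2
import Pool.Agent.MP_47f5fb_nt.Ct.REL
import Pool.Agent.MP_47f5fb_nt.Ct.RPT
import Pool.Agent.MP_47f5fb_nt.Ct.SCT
import Pool.Agent.MP_47f5fb_nt.Ct.SEC
import Pool.Agent.MP_47f5fb_nt.Ct.SHL
import Pool.Agent.MP_47f5fb_nt.Ct.SIE
import Pool.Agent.MP_47f5fb_nt.Ct.SMQ
import Pool.Agent.MP_47f5fb_nt.Ct.TDF
import Pool.Agent.MP_47f5fb_nt.Ct.TRI
import Pool.Agent.MP_47f5fb_nt.Ct.WT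

set_option autoImplicit false

namespace Pool.Agent.MP_47f5fb_nt.Ct

theorem main : S_MAIN :=
  asm lin sie ht hen rel smq cl1 cls bez nl con deg fib tri c1 pnr par c2 c3 mn tdf fac nrm hi1 hil
    cur wt det ap1 ap2 ap3 ap4 sec gd rd1 rd2 dir rpt bad sct dya shl mai

end Pool.Agent.MP_47f5fb_nt.Ct
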