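import Pool.Agent.MP_47f5fb_nt.Ct.Spec

/-! Row RD1: the determinant of the monomials at close good points vanishes. -/

set_option autoImplicit false

namespace Pool.Agent.MP_47f5fb_nt.Ct

open Polynomial Finset

namespace RD1x

theorem card_ix (D : ℕ) : 3 * (D + 1) * (D + 2) = 2 * Fintype.card (Ix D) := by
  have h : ∀ m : ℕ, 2 * ∑ n : Fin m, ((n : ℕ) + 1) = m * (m + 1) := fun m => by
    induction m with
    | zero => simp
    | succ m ih =>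
      rw [Fin.sum_univ_castSucc, mul_add]
      simp only [Fin.val_castSucc, Fin.val_last]
      rw [ih]
      ring
  simp only [Fintype.card_prod, Fintype.card_sigma, Fintype.card_fin]
  rw [← mul_assoc, h]
  ring

theorem mon_eq {D : ℕ} (P : Z3) (h : (P.1 : ℝ) ≠ 0) (μ : Ix D) :
    (mon P μ : ℝ) = (P.1 : ℝ) ^ (D + 2) * ((pt P).u ^ (D + 2 - μ.1.1 - μ.2) *
      (pt P).t ^ ((μ.1.1 : ℕ) - μ.1.2) * (pt P).w ^ (μ.2 : ℕ)) := by
  obtain ⟨⟨n, i⟩, k⟩ := μ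
  have h1 := n.2
  have h2 := i.2
  have h3 := k.2
  have e : D + 2 = (D + 2 - n - k) + i + ((n : ℕ) - i) + k := by omega
  simp only [mon, pt]
  generalize D + 2 - (n : ℕ) - (k : ℕ) = r at e ⊢
  generalize (n : ℕ) - (i : ℕ) = m at e ⊢
  rw [e]
  push_cast
  simp only [div_pow, one_pow, pow_add]
  field_simp

theorem prod_le {θ B : ℝ} {N E L : ℕ} (hB : 1 ≤ B) (T : Finset (ℕ × ℕ))
    (hT : T ⊆ range N ×ˢ range N) (hE : T.card = E) (hL : (L : ℝ) ≤ ∑ μ ∈ T, (θ * μ.1 + μ.2)) :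
    ∏ μ ∈ T, (B ^ (-θ)) ^ μ.1 * (4 / B) ^ μ.2 ≤ 4 ^ (N * E) / B ^ L := by
  have h0 : 0 < B := by linarith
  calc ∏ μ ∈ T, (B ^ (-θ)) ^ μ.1 * (4 / B) ^ μ.2
      ≤ ∏ μ ∈ T, (4 : ℝ) ^ N * B ^ (-(θ * μ.1 + μ.2)) := by
        refine prod_le_prod (fun μ _ => by positivity) fun μ hμ => ?_
        have h1 : μ.2 ≤ N := (mem_range.1 (mem_product.1 (hT hμ)).2).le
        have h2 : (B ^ (-θ)) ^ μ.1 * (4 / B) ^ μ.2 = 4 ^ μ.2 * B ^ (-(θ * μ.1 + μ.2)) := by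
          rw [neg_add, Real.rpow_add h0, ← neg_mul, Real.rpow_mul h0.le, Real.rpow_natCast,
            Real.rpow_neg h0.le (μ.2 : ℝ), Real.rpow_natCast, div_pow]
          ring
        rw [h2]
        gcongr
        norm_num
    _ = 4 ^ (N * E) * B ^ (-∑ μ ∈ T, (θ * μ.1 + μ.2)) := by
        rw [prod_mul_distrib, prod_const, hE, ← pow_mul, ← sum_neg_distrib,
          Real.rpow_sum_of_pos h0]
    _ ≤ 4 ^ (N * E) * B ^ (-(L : ℝ)) := by
        gcongr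
    _ = 4 ^ (N * E) / B ^ L := by
        rw [Real.rpow_neg h0.le, Real.rpow_natCast, div_eq_mul_inv]

end RD1x

open RD1x in
theorem rd1 (wt : S_WT) (det : S_DET) (ap4 : S_AP4) (gd : S_GD) : S_RD1 := by
  intro θ t1 t2
  obtain ⟨D, hD⟩ := wt θ t1 t2.le
  obtain ⟨E, hE⟩ : ∃ E, E = Fintype.card (Ix D) := ⟨_, rfl⟩
  obtain ⟨L, hL⟩ : ∃ L, L = (D + 2) * E + 1 := ⟨_, rfl⟩
  obtain ⟨N, M, hM, hA⟩ := ap4 (2 * L) (D + 2)
  obtain ⟨C, hC⟩ : ∃ C : ℝ, C = E.factorial * (((N : ℝ) ^ 2 + 1) * M) ^ E := ⟨_, rfl⟩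
  have ev : ∀ᶠ B : ℝ in Filter.atTop, 20 ≤ B ∧ 4 ≤ B ^ (1 - θ) ∧ B ^ (-θ) ≤ 1 / 50 ∧
      4 ^ (N * E) ≤ B ∧ C * 4 ^ (N * E) < B :=
    (Filter.eventually_ge_atTop _).and
      (((tendsto_rpow_atTop (by linarith)).eventually_ge_atTop _).and
        (((tendsto_rpow_neg_atTop (by linarith)).eventually (eventually_le_nhds (by norm_num))).and
          ((Filter.eventually_ge_atTop _).and (Filter.eventually_gt_atTop _))))
  obtain ⟨B0, hB0⟩ := Filter.eventually_atTop.1 ev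
  refine ⟨D, B0, fun B hB P0 p g0 hp => ?_⟩
  obtain ⟨b1, b2, b3, b4, b5⟩ := hB0 B hB
  have h0 : 0 < B := by linarith
  have h1 : 1 ≤ B := by linarith
  have d0 : 0 < B ^ (-θ) := Real.rpow_pos_of_pos h0 _
  have d1 : 4 / B ≤ B ^ (-θ) := by
    rw [div_le_iff₀ h0, ← Real.rpow_add_one h0.ne', neg_add_eq_sub]
    exact b2
  have d2 : (B ^ (-θ)) ^ (2 * L) ≤ 4 ^ (N * E) / B ^ L := by
    have : (B ^ (-θ)) ^ 2 ≤ 1 / B := by
      rw [← Real.rpow_natCast, ← Real.rpow_mul h0.le, one_div, ← Real.rpow_neg_one]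
      exact Real.rpow_le_rpow_of_exponent_le h1 (by push_cast; linarith)
    rw [pow_mul]
    refine (pow_le_pow_left₀ (by positivity) this L).trans ?_
    rw [div_pow, one_pow]
    gcongr
    exact one_le_pow₀ (by norm_num)
  have g1 : (4 : ℝ) ^ (N * E) / B ^ L ≤ 1 :=
    (div_le_one (by positivity)).2 (b4.trans (le_self_pow₀ h1 (by omega)))
  have bs := fun j => gd B _ P0 (p j) b1 d0 b3 g0 (hp j).1
  have b0 := (gd B _ P0 P0 b1 d0 b3 g0 g0).1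
  have nr : ∀ j, Nr (B ^ (-θ)) (pt P0) (pt (p j)) := fun j =>
    ⟨(bs j).2.trans d1, (hp j).2.1, (hp j).2.2,
      (gd B _ (p j) P0 b1 d0 b3 (hp j).1 g0).1.2.2.2.2.2.2⟩
  choose c c1 c2 using fun μ : Ix D => hA (D + 2 - μ.1.1 - μ.2) ((μ.1.1 : ℕ) - μ.1.2) μ.2
    (by omega) (by have := μ.1.1.2; omega) (by have := μ.2.2; omega) _ _ b0
  have key := det (Ix D) N (Matrix.of fun j μ => (pt (p j)).u ^ (D + 2 - μ.1.1 - μ.2) *
      (pt (p j)).t ^ ((μ.1.1 : ℕ) - μ.1.2) * (pt (p j)).w ^ (μ.2 : ℕ)) c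
    (fun j ν => ((pt (p j)).t - (pt P0).t) ^ ν.1 * ((pt (p j)).u - (pt P0).u) ^ ν.2)
    (fun ν => (B ^ (-θ)) ^ ν.1 * (4 / B) ^ ν.2) M (4 ^ (N * E) / B ^ L) hM (by positivity) g1 c1
    (fun j ν => by
      rw [abs_mul, abs_pow, abs_pow]
      exact mul_le_mul (pow_le_pow_left₀ (abs_nonneg _) (hp j).2.1 _)
        (pow_le_pow_left₀ (abs_nonneg _) (bs j).2 _) (by positivity) (by positivity))
    (fun ν => ⟨by positivity, mul_le_one₀ (pow_le_one₀ d0.le (by linarith)) (by positivity)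
      (pow_le_one₀ (by positivity) (by linarith))⟩)
    (fun j μ => (c2 μ _ (nr j)).trans (mul_le_mul_of_nonneg_left d2 (by linarith)))
    fun T hT hc => prod_le h1 T hT (hc.trans hE.symm) (by
      have := hD E T (hE ▸ card_ix D) (hc.trans hE.symm)
      rw [hL]
      push_cast
      exact this)
  rw [← hE, ← hC] at key
  have x0 : ∀ j, ((p j).1 : ℝ) ≠ 0 := fun j => abs_pos.1 (by linarith [(hp j).1.2.1])
  have e : (((Matrix.of fun i c => mon (p i) c).det : ℤ) : ℝ) =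
      (∏ j, ((p j).1 : ℝ) ^ (D + 2)) * (Matrix.of fun j (μ : Ix D) =>
        (pt (p j)).u ^ (D + 2 - μ.1.1 - μ.2) * (pt (p j)).t ^ ((μ.1.1 : ℕ) - μ.1.2) *
          (pt (p j)).w ^ (μ.2 : ℕ)).det := by
    rw [Int.cast_det, ← Matrix.det_mul_column]
    congr 1
    ext j μ
    exact mon_eq _ (x0 j) μ
  have f1 : |∏ j, ((p j).1 : ℝ) ^ (D + 2)| ≤ B ^ ((D + 2) * E) := by
    rw [abs_prod, pow_mul, hE, ← card_univ, ← prod_const]
    refine prod_le_prod (fun j _ => abs_nonneg _) fun j _ => ?_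
    rw [abs_pow]
    exact pow_le_pow_left₀ (abs_nonneg _) (hp j).1.2.2.1 _
  have f2 : |(((Matrix.of fun i c => mon (p i) c).det : ℤ) : ℝ)| < 1 := by
    rw [e, abs_mul]
    refine (mul_le_mul f1 key (abs_nonneg _) (by positivity)).trans_lt ?_
    rw [hL, pow_succ]
    have : B ^ ((D + 2) * E) * (C * (4 ^ (N * E) / (B ^ ((D + 2) * E) * B))) =
        C * 4 ^ (N * E) / B := by field_simp
    rw [this]
    exact (div_lt_one h0).2 b5
  exact Int.abs_lt_one_iff.1 (by exact_mod_cast f2)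

end Pool.Agent.MP_47f5fb_nt.Ct
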