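import Mathlib
import Pool.Agent.MP_abff10_nt.Det
import Pool.Agent.MP_abff10_nt.Rep

/-! Statements of the steps of the counting bound for the cubic surface. In `P.evalEval s a` the
inner variable is `s` and the outer variable is `a`. -/

set_option autoImplicit false

namespace Pool.Agent.MP_47f5fb_nt.Ct

open Polynomial Finset

/-- the homogeneous cubic form -/
def Fb {R : Type} [CommRing R] (v : Fin 4 → R) : R :=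
  v 0 ^ 3 + v 1 ^ 3 + v 2 ^ 3 - v 0 * v 1 * v 2 + (v 0 + v 1 + v 2) * v 3 ^ 2 - v 3 ^ 3

abbrev Z3 : Type := ℤ × ℤ × ℤ

def Sol (P : Z3) : Prop :=
  P.1 ^ 3 + P.1 + P.2.1 ^ 3 + P.2.1 + P.2.2 ^ 3 + P.2.2 = P.1 * P.2.1 * P.2.2 + 1

def Bd (d : ℕ) (P : ℚ[X][X]) : Prop := P.natDegree ≤ d ∧ ∀ i, (P.coeff i).natDegree ≤ d

/-- monic in the outer variable, with total degree equal to the degree -/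
def TD (P : ℚ[X][X]) : Prop := P.Monic ∧ ∀ i, (P.coeff i).natDegree ≤ P.natDegree - i

def Rl {ι : Type} (J : ℕ) (T : Finset ι) (t f g : ι → ℚ) : Prop :=
  ∃ A0 A1 A2 : ℚ[X], ¬ (A0 = 0 ∧ A1 = 0 ∧ A2 = 0) ∧ A0.natDegree ≤ J ∧ A1.natDegree ≤ J ∧
    A2.natDegree ≤ J ∧ ∀ p ∈ T, A0.eval (t p) + A1.eval (t p) * f p + A2.eval (t p) * g p = 0

def Rel3 {ι : Type} (J : ℕ) (T : Finset ι) (b a c : ι → ℚ) : Prop :=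
  Rl J T b c (fun p => c p ^ 2) ∧ Rl J T b c a ∧ Rl J T b a (fun p => a p ^ 2)

/-! ### linear algebra and the q-adic determinant -/

def S_LIN : Prop := ∀ (ι S : Type) [Fintype ι] [DecidableEq ι] (r : S → ι → ℤ),
  (∀ p : ι → S, (Matrix.of fun i c => r (p i) c).det = 0) →
  ∃ φ : ι → ℚ, φ ≠ 0 ∧ ∀ s, ∑ c, φ c * (r s c : ℚ) = 0

def S_SIE : Prop := ∀ (ι S : Type) [Fintype ι] (r : S → ι → ℤ) (Y : ℝ), 1 ≤ Y →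
  (∀ s c, |(r s c : ℝ)| ≤ Y) → (∃ φ : ι → ℚ, φ ≠ 0 ∧ ∀ s, ∑ c, φ c * (r s c : ℚ) = 0) →
  ∃ ψ : ι → ℤ, ψ ≠ 0 ∧ (∀ c, |(ψ c : ℝ)| ≤ (Fintype.card ι * Y) ^ Fintype.card ι) ∧
    ∀ s, ∑ c, ψ c * r s c = 0

def S_HT : Prop := ∀ d : ℕ, ∃ K : ℕ, 1 ≤ K ∧ ∀ (ι : Type) (T : Finset ι) (b a : ι → ℤ) (Y : ℝ)
  (R : ℚ[X][X]), 1 ≤ Y → (∀ p ∈ T, |(b p : ℝ)| ≤ Y ∧ |(a p : ℝ)| ≤ Y) → R ≠ 0 → Bd d R →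
  (∀ p ∈ T, R.evalEval (b p : ℚ) (a p : ℚ) = 0) →
  ∃ (R' : ℤ[X][X]) (Z : Finset ℤ), Z.card ≤ d ∧ ∀ p ∈ T, b p ∈ Z ∨ ∃ k : ℕ, k ≤ d ∧
    (derivative^[k] R').evalEval (b p) (a p) = 0 ∧
    (derivative (derivative^[k] R')).evalEval (b p) (a p) ≠ 0 ∧
    |(((derivative (derivative^[k] R')).evalEval (b p) (a p) : ℤ) : ℝ)| ≤ K * Y ^ K

def S_HEN : Prop := ∀ (R : ℤ[X][X]) (q b0 a0 : ℤ),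
  IsCoprime ((derivative R).evalEval b0 a0) q → ∀ K : ℕ, ∃ ξ : ℤ[X], ∀ b a : ℤ,
    q ∣ b - b0 → q ∣ a - a0 → R.evalEval b a = 0 → q ^ K ∣ a - ξ.eval b

def S_REL : Prop := ∀ η : ℝ, 0 < η → ∃ (J : ℕ) (c : ℝ), 1 ≤ J ∧ 1 ≤ c ∧
  ∀ (ι : Type) (T : Finset ι) (t f g : ι → ℤ) (l : ℕ) (W Z : ℝ), 1 ≤ W → 1 ≤ Z →
    W ^ (1 / 3 : ℝ) * (c * Z) ^ η < l →
    (∀ p ∈ T, |(t p : ℝ)| ≤ W ∧ |(f p : ℝ)| ≤ Z ∧ |(g p : ℝ)| ≤ Z) →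
    (∀ p ∈ T, ∀ p' ∈ T, (l : ℤ) ∣ t p - t p') →
    (∀ K : ℕ, ∃ ξ ζ : ℤ[X], ∀ p ∈ T,
      (l : ℤ) ^ K ∣ f p - ξ.eval (t p) ∧ (l : ℤ) ^ K ∣ g p - ζ.eval (t p)) →
    Rl J T (fun p => (t p : ℚ)) (fun p => (f p : ℚ)) (fun p => (g p : ℚ))

def S_SMQ : Prop := ∀ η : ℝ, 0 < η → ∃ K : ℝ, 1 ≤ K ∧ ∀ N : ℤ, N ≠ 0 →
  ∃ q : ℕ, 2 ≤ q ∧ IsCoprime N (q : ℤ) ∧ (q : ℝ) ≤ K * |(N : ℝ)| ^ η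

def S_CL1 : Prop := ∀ η : ℝ, 0 < η → ∃ (J : ℕ) (κ : ℝ), 1 ≤ J ∧ 1 ≤ κ ∧
  ∀ (ι : Type) (U : Finset ι) (b a c : ι → ℤ) (P0 P1 : ℤ[X][X]) (q r : ℕ) (W Y : ℝ),
    1 ≤ W → 1 ≤ Y → 1 ≤ r → W ^ (1 / 3 : ℝ) * (κ * Y) ^ η < (q : ℝ) ^ r →
    (∀ p ∈ U, |(b p : ℝ)| ≤ W ∧ |(a p : ℝ)| ≤ Y ∧ |(c p : ℝ)| ≤ Y) →
    (∀ p ∈ U, P0.evalEval (b p) (c p) = 0 ∧ P1.evalEval (b p) (a p) = 0 ∧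
      IsCoprime ((derivative P0).evalEval (b p) (c p)) (q : ℤ) ∧
      IsCoprime ((derivative P1).evalEval (b p) (a p)) (q : ℤ)) →
    (∀ p ∈ U, ∀ p' ∈ U, (q : ℤ) ^ r ∣ b p - b p' ∧ (q : ℤ) ∣ a p - a p' ∧ (q : ℤ) ∣ c p - c p') →
    Rel3 J U (fun p => (b p : ℚ)) (fun p => (a p : ℚ)) (fun p => (c p : ℚ))

def S_CLS : Prop := ∀ (d : ℕ) (η : ℝ), 0 < η → ∃ (J : ℕ) (K : ℝ), 0 ≤ K ∧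
  ∀ (ι : Type) (T : Finset ι) (b a c : ι → ℤ) (W Y K1 : ℝ) (R0 R1 : ℚ[X][X]),
    1 ≤ W → W ≤ Y → 0 ≤ K1 →
    (∀ p ∈ T, |(b p : ℝ)| ≤ W ∧ |(a p : ℝ)| ≤ Y ∧ |(c p : ℝ)| ≤ Y) →
    R0 ≠ 0 → R1 ≠ 0 → Bd d R0 → Bd d R1 →
    (∀ p ∈ T, R0.evalEval (b p : ℚ) (c p : ℚ) = 0 ∧ R1.evalEval (b p : ℚ) (a p : ℚ) = 0) →
    (∀ U : Finset ι, U ⊆ T →
      Rel3 J U (fun p => (b p : ℚ)) (fun p => (a p : ℚ)) (fun p => (c p : ℚ)) →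
      (U.card : ℝ) ≤ K1) →
    (T.card : ℝ) ≤ K * K1 * W ^ (1 / 3 : ℝ) * Y ^ η

/-! ### curves on the surface -/

def S_BEZ : Prop := ∀ d : ℕ, ∃ K : ℕ, ∀ P G : ℚ[X][X], P.Monic → Irreducible P → ¬ P ∣ G →
  Bd d P → Bd d G → ∀ T : Finset (ℚ × ℚ),
    (∀ p ∈ T, P.evalEval p.1 p.2 = 0 ∧ G.evalEval p.1 p.2 = 0) → T.card ≤ K

def S_NL : Prop := ∀ u v : Fin 4 → ℚ, (∀ s : ℚ, Fb (s • u + v) = 0) →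
  ¬ LinearIndependent ℚ ![u, v]

def S_CON : Prop := ∀ u v w : Fin 4 → ℚ, (∀ s : ℚ, Fb (u + s • v + s ^ 2 • w) = 0) →
  ¬ LinearIndependent ℚ ![u, v, w]

def S_DEG : Prop := ∀ (k : ℕ) (e : Fin 4 → ℚ) (V : Fin 4 → ℚ[X]) (ρ : ℚ[X]), Fb e ≠ 0 →
  (∀ i, (V i).natDegree ≤ k) → Fb (fun i => C (e i) * ρ + V i) = 0 → ρ.natDegree ≤ k

def S_FIB : Prop := ∀ J : ℕ, ∃ K : ℕ, ∀ (e : Fin 4 → ℚ) (V : Fin 4 → ℚ[X]) (G0 G1 G2 : ℚ[X])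
  (T : Finset (ℚ × ℚ)), Fb e ≠ 0 → (∀ i, (V i).natDegree ≤ 2) →
    (∀ ρ : ℚ[X], Fb (fun i => C (e i) * ρ + V i) ≠ 0) → ¬ (G0 = 0 ∧ G1 = 0 ∧ G2 = 0) →
    G0.natDegree ≤ J → G1.natDegree ≤ J → G2.natDegree ≤ J →
    (∀ p ∈ T, Fb (fun i => e i * p.2 + (V i).eval p.1) = 0 ∧
      G0.eval p.1 + G1.eval p.1 * p.2 + G2.eval p.1 * p.2 ^ 2 = 0) → T.card ≤ K

/-- a frame of rational four-space whose first vector is off the surface -/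
def Fr (e f g o : Fin 4 → ℚ) : Prop := Fb e ≠ 0 ∧ LinearIndependent ℚ ![e, f, g, o]

/-- distinct points of the surface, in the coordinates of a frame -/
def OnX {ι : Type} (e f g o : Fin 4 → ℚ) (T : Finset ι) (b a c : ι → ℚ) : Prop :=
  Set.InjOn (fun p => (b p, a p, c p)) T ∧ ∀ p ∈ T, Fb (a p • e + b p • f + c p • g + o) = 0

def S_TRI : Prop := ∀ (ι : Type) (e f g o : Fin 4 → ℚ) (T : Finset ι) (b a c : ι → ℚ),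
  Fb e ≠ 0 → OnX e f g o T b a c → T.card ≤ 3 * (T.image fun p => (b p, c p)).card

def Case (cond : ℕ → Prop) : Prop := ∀ d J : ℕ, ∃ K : ℕ, ∀ (ι : Type) (e f g o : Fin 4 → ℚ)
  (P : ℚ[X][X]) (T : Finset ι) (b a c : ι → ℚ), Fr e f g o → OnX e f g o T b a c → TD P →
    Irreducible P → P.natDegree ≤ d → cond P.natDegree →
    (∀ p ∈ T, P.evalEval (b p) (c p) = 0) → Rel3 J T b a c → T.card ≤ K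

def S_C1 : Prop := Case fun n => n = 1
def S_C2 : Prop := Case fun n => n = 2
def S_C3 : Prop := Case fun n => 3 ≤ n

/-- the parametrisation of a conic through a rational point: denominator and numerators -/
noncomputable def pn (d2 : ℚ) : ℚ[X] := X ^ 2 - C d2
noncomputable def pb (b0 c0 d1 d2 : ℚ) : ℚ[X] := C b0 * pn d2 + (C d1 - C (2 * c0) * X)
noncomputable def pc (c0 d1 d2 : ℚ) : ℚ[X] := C c0 * pn d2 + X * (C d1 - C (2 * c0) * X)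
noncomputable def pv (f g o : Fin 4 → ℚ) (b0 c0 d1 d2 : ℚ) (i : Fin 4) : ℚ[X] :=
  C (f i) * pb b0 c0 d1 d2 + C (g i) * pc c0 d1 d2 + C (o i) * pn d2

def S_PNR : Prop := ∀ (e f g o : Fin 4 → ℚ) (b0 c0 d1 d2 : ℚ) (ρ : ℚ[X]), Fr e f g o →
  d1 ^ 2 - 4 * c0 ^ 2 * d2 ≠ 0 → Fb (fun i => C (e i) * ρ + pv f g o b0 c0 d1 d2 i) ≠ 0

def S_PAR : Prop := ∀ J : ℕ, ∃ K : ℕ, ∀ (ι : Type) (e f g o : Fin 4 → ℚ) (d0 d1 d2 : ℚ)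
  (B0 B1 B2 : ℚ[X]) (T : Finset ι) (b a c : ι → ℚ), Fr e f g o → OnX e f g o T b a c →
    d1 ^ 2 - 4 * d0 * d2 ≠ 0 → B0.natDegree ≤ J → B1.natDegree ≤ J → B2.natDegree ≤ J →
    (∀ p ∈ T, c p ^ 2 = d0 + d1 * b p + d2 * b p ^ 2 ∧ B2.eval (b p) ≠ 0 ∧
      B0.eval (b p) + B1.eval (b p) * c p + B2.eval (b p) * a p = 0) → T.card ≤ K

def S_MON : Prop := ∀ (d : ℕ) (R : ℚ[X][X]), R ≠ 0 → Bd d R → ∃ (j : ℕ) (P : ℚ[X][X]),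
  j ≤ 2 * d ∧ TD P ∧ P.natDegree ≤ 2 * d ∧
    ∀ b c : ℚ, R.evalEval b c = 0 → P.evalEval (b - j * c) c = 0

def S_TDF : Prop := ∀ P Q : ℚ[X][X], P.Monic → Q.Monic → TD (P * Q) → TD P

def S_FAC : Prop := ∀ P : ℚ[X][X], TD P → ∃ L : Finset ℚ[X][X], L.card ≤ P.natDegree ∧
  (∀ Q ∈ L, TD Q ∧ Irreducible Q ∧ 1 ≤ Q.natDegree ∧ Q.natDegree ≤ P.natDegree) ∧
  ∀ s a : ℚ, P.evalEval s a = 0 → ∃ Q ∈ L, Q.evalEval s a = 0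

/-- the points lie on an auxiliary surface of degree at most two in `z` -/
def OnG (D : ℕ) (S : Finset Z3) : Prop := ∃ g0 g1 g2 : ℚ[X][X], ¬ (g0 = 0 ∧ g1 = 0 ∧ g2 = 0) ∧
  Bd D g0 ∧ Bd D g1 ∧ Bd D g2 ∧ ∀ P ∈ S, g0.evalEval (P.1 : ℚ) (P.2.1 : ℚ) +
    g1.evalEval (P.1 : ℚ) (P.2.1 : ℚ) * (P.2.2 : ℚ) +
    g2.evalEval (P.1 : ℚ) (P.2.1 : ℚ) * (P.2.2 : ℚ) ^ 2 = 0

def S_NRM : Prop := ∀ D : ℕ, ∃ d : ℕ, ∀ S : Finset Z3, (∀ P ∈ S, Sol P) → OnG D S →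
  ∃ R : ℚ[X][X], R ≠ 0 ∧ Bd d R ∧ ∀ P ∈ S, R.evalEval (P.1 : ℚ) (P.2.1 : ℚ) = 0

def S_HI1 : Prop := ∀ (ι : Type) [Fintype ι] (s y z : ι → ℚ) (P : ℚ[X][X]) (j : ℚ), TD P →
  (∀ i, P.evalEval (s i) (y i) = 0) → (∀ i, Fb ![s i + j * y i, y i, z i, 1] = 0) →
  ∃ V : ℕ → Submodule ℚ (ι → ℚ), (∀ M, Module.finrank ℚ (V M) ≤ 3 * P.natDegree * (M + 1)) ∧
    1 ∈ V 0 ∧ ∀ M, ∀ v ∈ V M, v ∈ V (M + 1) ∧ s * v ∈ V (M + 1) ∧ y * v ∈ V (M + 1) ∧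
      z * v ∈ V (M + 1)

/-- a linear form -/
def lf (l : Fin 3 → ℚ) (P : Z3) : ℚ := l 0 * P.1 + l 1 * P.2.1 + l 2 * P.2.2

def S_HIL : Prop := ∀ d : ℕ, ∃ M : ℕ, ∀ (S : Finset Z3) (R : ℚ[X][X]), (∀ P ∈ S, Sol P) →
  R ≠ 0 → Bd d R → (∀ P ∈ S, R.evalEval (P.1 : ℚ) (P.2.1 : ℚ) = 0) → ∀ l m : Fin 3 → ℚ,
    ∃ R' : ℚ[X][X], R' ≠ 0 ∧ Bd M R' ∧ ∀ P ∈ S, R'.evalEval (lf l P) (lf m P) = 0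

def S_CUR : Prop := ∀ (D : ℕ) (η : ℝ), 0 < η → ∃ K : ℝ, 0 ≤ K ∧ ∀ (S : Finset Z3) (W Y : ℝ)
  (p q p' q' : ℤ), 1 ≤ W → W ≤ Y → q ≠ 0 → q' ≠ 0 →
    Fb ![1, (p : ℚ) / q, (p' : ℚ) / q', 0] ≠ 0 →
    (∀ P ∈ S, Sol P ∧ |(P.1 : ℝ)| ≤ Y ∧ |((q * P.2.1 - p * P.1 : ℤ) : ℝ)| ≤ W ∧
      |((q' * P.2.2 - p' * P.1 : ℤ) : ℝ)| ≤ W) →
    OnG D S → (S.card : ℝ) ≤ K * W ^ (1 / 3 : ℝ) * Y ^ η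

/-! ### the real determinant -/

def S_WT : Prop := ∀ θ : ℝ, 3 / 4 < θ → θ ≤ 1 → ∃ D : ℕ, ∀ (E : ℕ) (T : Finset (ℕ × ℕ)),
  3 * (D + 1) * (D + 2) = 2 * E → T.card = E →
  ((D : ℝ) + 2) * E + 1 ≤ ∑ μ ∈ T, (θ * μ.1 + μ.2)

def S_DET : Prop := ∀ (ι : Type) [Fintype ι] [DecidableEq ι] (N : ℕ) (A : Matrix ι ι ℝ)
  (c e : ι → ℕ × ℕ → ℝ) (s : ℕ × ℕ → ℝ) (M γ : ℝ), 1 ≤ M → 0 ≤ γ → γ ≤ 1 →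
    (∀ i μ, |c i μ| ≤ M) → (∀ j μ, |e j μ| ≤ s μ) → (∀ μ, 0 ≤ s μ ∧ s μ ≤ 1) →
    (∀ j i, |A j i - ∑ μ ∈ range N ×ˢ range N, c i μ * e j μ| ≤ M * γ) →
    (∀ T : Finset (ℕ × ℕ), T ⊆ range N ×ˢ range N → T.card = Fintype.card ι →
      ∏ μ ∈ T, s μ ≤ γ) →
    |A.det| ≤ (Fintype.card ι).factorial * (((N : ℝ) ^ 2 + 1) * M) ^ Fintype.card ι * γ

structure Pt where
  u : ℝ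
  t : ℝ
  w : ℝ

def Phi (v : Pt) : ℝ :=
  1 + v.t ^ 3 + v.w ^ 3 - v.t * v.w + v.u ^ 2 * (1 + v.t + v.w) - v.u ^ 3

/-- a base point of a sector of width `δ` -/
def Bs (δ : ℝ) (b : Pt) : Prop := 0 < δ ∧ δ ≤ 1 / 50 ∧ |b.u| ≤ 1 / 10 ∧ |b.t| ≤ 1 ∧ |b.w| ≤ 1 ∧
  1 / 4 ≤ |3 * b.w ^ 2 - b.t + b.u ^ 2| ∧ Phi b = 0

def Nr (δ : ℝ) (b v : Pt) : Prop :=
  |v.u - b.u| ≤ δ ∧ |v.t - b.t| ≤ δ ∧ |v.w - b.w| ≤ 40 * δ ∧ Phi v = 0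

def AppN (N : ℕ) (M : ℝ) (K : ℕ) (g : Pt → Pt → ℝ) : Prop := ∀ (δ : ℝ) (b : Pt), Bs δ b →
  ∃ c : ℕ × ℕ → ℝ, (∀ μ, |c μ| ≤ M) ∧ ∀ v, Nr δ b v →
    |g b v - ∑ μ ∈ range N ×ˢ range N, c μ * ((v.t - b.t) ^ μ.1 * (v.u - b.u) ^ μ.2)| ≤ M * δ ^ K

def App (K : ℕ) (g : Pt → Pt → ℝ) : Prop := ∃ (N : ℕ) (M : ℝ), 1 ≤ M ∧ AppN N M K g

def Small (g : Pt → Pt → ℝ) : Prop :=
  ∃ M : ℝ, ∀ (δ : ℝ) (b v : Pt), Bs δ b → Nr δ b v → |g b v| ≤ M * δ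

def S_AP1 : Prop :=
  (∀ (N N' : ℕ) (M M' : ℝ) (K : ℕ) (g : Pt → Pt → ℝ), N ≤ N' → M ≤ M' → 0 ≤ M → AppN N M K g →
    AppN N' M' K g) ∧
  (∀ (K : ℕ) (h : Pt → ℝ) (M : ℝ), (∀ δ b, Bs δ b → |h b| ≤ M) → App K fun b _ => h b) ∧
  (∀ K : ℕ, App K fun b v => v.t - b.t) ∧ (∀ K : ℕ, App K fun b v => v.u - b.u) ∧
  (∀ (K : ℕ) (g h : Pt → Pt → ℝ), App K g → App K h → App K fun b v => g b v + h b v) ∧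
  (∀ (K : ℕ) (g h : Pt → Pt → ℝ), (∀ δ b v, Bs δ b → Nr δ b v → g b v = h b v) → App K g →
    App K h) ∧
  (∀ g : Pt → Pt → ℝ, Small g → App 1 g) ∧
  ∀ (K K' : ℕ) (g : Pt → Pt → ℝ), K ≤ K' → App K' g → App K g

def S_AP2 : Prop :=
  (∀ (K : ℕ) (g h : Pt → Pt → ℝ), App K g → App K h → App K fun b v => g b v * h b v) ∧
  ∀ (K : ℕ) (g h : Pt → Pt → ℝ), 1 ≤ K → Small g → Small h → App K g → App K h →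
    App (K + 1) fun b v => g b v * h b v

def S_AP3 : Prop := ∀ K : ℕ, App K fun b v => v.w - b.w

def S_AP4 : Prop := ∀ K D : ℕ, ∃ (N : ℕ) (M : ℝ), 1 ≤ M ∧ ∀ n j k : ℕ, n ≤ D → j ≤ D → k ≤ D →
  AppN N M K fun _ v => v.u ^ n * v.t ^ j * v.w ^ k

def S_SEC : Prop := ∀ (δ : ℝ) (b v : Pt), Bs δ b → |v.u - b.u| ≤ δ → |v.t - b.t| ≤ δ →
  |v.w - b.w| ≤ 1 / 100 → Phi v = 0 → |v.w - b.w| ≤ 40 * δ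

/-- the point at infinity coordinates of an integer point -/
noncomputable def pt (P : Z3) : Pt := ⟨1 / (P.1 : ℝ), (P.2.1 : ℝ) / P.1, (P.2.2 : ℝ) / P.1⟩

def Gd (B : ℝ) (P : Z3) : Prop := Sol P ∧ B / 2 < |(P.1 : ℝ)| ∧ |(P.1 : ℝ)| ≤ B ∧
  |P.2.1| ≤ |P.1| ∧ |P.2.2| ≤ |P.1| ∧ 1 / 4 ≤ |3 * (pt P).w ^ 2 - (pt P).t + (pt P).u ^ 2|

/-- elementary facts on good points -/
def S_GD : Prop := ∀ (B δ : ℝ) (P P' : Z3), 20 ≤ B → 0 < δ → δ ≤ 1 / 50 → Gd B P → Gd B P' →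
  Bs δ (pt P) ∧ |(pt P').u - (pt P).u| ≤ 4 / B

abbrev Ix (D : ℕ) : Type := ((n : Fin (D + 1)) × Fin (n + 1)) × Fin 3

def mon {D : ℕ} (P : Z3) (μ : Ix D) : ℤ :=
  P.1 ^ (μ.1.2 : ℕ) * P.2.1 ^ ((μ.1.1 : ℕ) - μ.1.2) * P.2.2 ^ (μ.2 : ℕ)

def S_RD1 : Prop := ∀ θ : ℝ, 3 / 4 < θ → θ < 1 → ∃ (D : ℕ) (B0 : ℝ), ∀ B : ℝ, B0 ≤ B →
  ∀ (P0 : Z3) (p : Ix D → Z3), Gd B P0 → (∀ i, Gd B (p i) ∧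
    |(pt (p i)).t - (pt P0).t| ≤ B ^ (-θ) ∧ |(pt (p i)).w - (pt P0).w| ≤ 40 * B ^ (-θ)) →
    (Matrix.of fun i c => mon (p i) c).det = 0

def S_RD2 : Prop := ∀ (D : ℕ) (S : Finset Z3),
  (∀ p : Ix D → Z3, (∀ i, p i ∈ S) → (Matrix.of fun i c => mon (p i) c).det = 0) → OnG D S

/-! ### sectors -/

def BadT (Q : ℕ) (t : ℝ) : Prop := ∃ x y z : ℤ, 1 ≤ x ∧ x ≤ Q ∧
  x ^ 3 + y ^ 3 + z ^ 3 = x * y * z ∧ |t - (y : ℝ) / x| ≤ 1 / ((x : ℝ) * Q)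

def S_DIR : Prop := ∀ (Q : ℕ) (t w : ℝ), 1 ≤ Q → ∃ p q p' q' : ℤ, 1 ≤ q ∧ q ≤ Q ∧ 1 ≤ q' ∧
  q' ≤ Q ∧ |q * t - p| ≤ 1 / (Q : ℝ) ∧ |q' * w - p'| ≤ 1 / (Q : ℝ) ∧
    (Fb ![1, (p : ℚ) / q, (p' : ℚ) / q', 0] ≠ 0 ∨ BadT Q t)

def S_RPT : Prop := ∀ η : ℝ, 0 < η → ∃ K : ℝ, 0 ≤ K ∧ ∀ (x : ℕ) (A : Finset ℤ), 1 ≤ x →
  (∀ y ∈ A, ∃ z : ℤ, (x : ℤ) ^ 3 + y ^ 3 + z ^ 3 = x * y * z) → (A.card : ℝ) ≤ K * (x : ℝ) ^ η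

def S_BAD : Prop := ∀ η : ℝ, 0 < η → ∃ K : ℝ, 0 ≤ K ∧ ∀ (δ : ℝ) (Q : ℕ) (I : Finset ℤ), 0 < δ →
  1 ≤ Q → 1 ≤ δ * (Q : ℝ) ^ 2 → (∀ i ∈ I, ∃ t : ℝ, ⌊t / δ⌋ = i ∧ BadT Q t) →
  (I.card : ℝ) ≤ K * (Q : ℝ) ^ (1 + η)

def S_SCT : Prop := ∀ θ η : ℝ, 3 / 4 < θ → θ < 1 → 0 < η → ∃ K B0 : ℝ, 0 ≤ K ∧ ∀ B : ℝ, B0 ≤ B →
  ∀ (S : Finset Z3) (P0 : Z3), P0 ∈ S → (∀ P ∈ S, Gd B P ∧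
    |(pt P).t - (pt P0).t| ≤ B ^ (-θ) ∧ |(pt P).w - (pt P0).w| ≤ 1 / 100) →
    (S.card : ℝ) ≤ K * B ^ (1 / 3 + η) ∧
      ((S.card : ℝ) ≤ K * B ^ ((1 - θ / 2) / 3 + η) ∨ BadT ⌈B ^ (θ / 2)⌉₊ (pt P0).t)

def S_DYA : Prop := ∀ ε : ℝ, 0 < ε → ∃ K B0 : ℝ, 0 ≤ K ∧ ∀ B : ℝ, B0 ≤ B → ∀ S : Finset Z3,
  (∀ P ∈ S, Gd B P) → (S.card : ℝ) ≤ K * B ^ (23 / 24 + ε)

def S_SHL : Prop := ∀ ε : ℝ, 0 < ε → ∃ K B0 : ℝ, 0 ≤ K ∧ ∀ B : ℝ, B0 ≤ B → ∀ S : Finset Z3,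
  (∀ P ∈ S, Sol P ∧ |(P.1 : ℝ)| ≤ B ∧ |(P.2.1 : ℝ)| ≤ B ∧ |(P.2.2 : ℝ)| ≤ B ∧
    (B / 2 < |(P.1 : ℝ)| ∨ B / 2 < |(P.2.1 : ℝ)| ∨ B / 2 < |(P.2.2 : ℝ)|)) →
  (S.card : ℝ) ≤ K * B ^ (23 / 24 + ε)

def S_MAIN : Prop := ∀ ε : ℝ, 0 < ε → ∃ K : ℝ, ∀ (B : ℕ) (S : Finset Z3),
  (∀ P ∈ S, Sol P ∧ |P.1| ≤ B ∧ |P.2.1| ≤ B ∧ |P.2.2| ≤ B) →
  (S.card : ℝ) ≤ K * (B : ℝ) ^ (23 / 24 + ε)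

end Pool.Agent.MP_47f5fb_nt.Ct
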