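import Pool.Agent.MP_47f5fb_nt.Ct.Spec

/-! The weight inequality: a set of `E` lattice points has total weight above `(D+2) E`. -/

set_option autoImplicit false

namespace Pool.Agent.MP_47f5fb_nt.Ct

open Polynomial Finset

namespace WTx

theorem inner_le (s : ℝ) (N : ℕ) :
    ∑ b ∈ range N, max 0 (s - (b : ℝ)) ≤
      (max 0 (s + 1)) ^ 2 / 2 - (max 0 (s + 1 - N)) ^ 2 / 2 := by
  induction N with
  | zero => simp
  | succ n ih =>
    rw [sum_range_succ]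
    have key : ∀ x : ℝ, max 0 x ≤ (max 0 (x + 1)) ^ 2 / 2 - (max 0 x) ^ 2 / 2 := by
      intro x
      rcases le_total 0 x with h | h
      · rw [max_eq_right h, max_eq_right (by linarith)]
        nlinarith
      · rw [max_eq_left h]
        have : 0 ≤ (max 0 (x + 1)) ^ 2 := sq_nonneg _
        nlinarith
    have h1 := key (s - n)
    have e1 : s - (n : ℝ) + 1 = s + 1 - n := by ring
    have e2 : s + 1 - ((n + 1 : ℕ) : ℝ) = s - n := by push_cast; ring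
    rw [e1] at h1
    rw [e2]
    linarith

theorem outer_le (θ s : ℝ) (hθ : 0 ≤ θ) (N : ℕ) :
    ∑ a ∈ range N, 3 * θ * (max 0 (s - θ * (a : ℝ))) ^ 2 ≤
      (max 0 (s + θ)) ^ 3 - (max 0 (s + θ - θ * N)) ^ 3 := by
  induction N with
  | zero => simp
  | succ n ih =>
    rw [sum_range_succ]
    have key : ∀ x : ℝ, 3 * θ * (max 0 x) ^ 2 ≤ (max 0 (x + θ)) ^ 3 - (max 0 x) ^ 3 := by
      intro x
      rcases le_total 0 x with h | h
      · rw [max_eq_right h, max_eq_right (by linarith)]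
        have h1 : 0 ≤ x * θ ^ 2 := by positivity
        have h2 : 0 ≤ θ ^ 3 := by positivity
        nlinarith
      · rw [max_eq_left h]
        have : 0 ≤ (max 0 (x + θ)) ^ 3 := pow_nonneg (le_max_left _ _) _
        nlinarith
    have h1 := key (s - θ * n)
    have e1 : s - θ * (n : ℝ) + θ = s + θ - θ * n := by ring
    have e2 : s + θ - θ * ((n + 1 : ℕ) : ℝ) = s - θ * n := by push_cast; ring
    rw [e1] at h1
    rw [e2]
    linarith

theorem total_le (θ W : ℝ) (hθ : 0 < θ) (hθ1 : θ ≤ 1) (hW : 0 ≤ W) (T : Finset (ℕ × ℕ)) :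
    ∑ μ ∈ T, max 0 (W - θ * (μ.1 : ℝ) - (μ.2 : ℝ)) ≤ (W + 2) ^ 3 / (6 * θ) := by
  obtain ⟨N, hN⟩ : ∃ N : ℕ, T ⊆ range N ×ˢ range N := by
    refine ⟨T.sup (fun μ => μ.1 + μ.2) + 1, fun μ hμ => ?_⟩
    have : μ.1 + μ.2 ≤ T.sup (fun μ => μ.1 + μ.2) :=
      Finset.le_sup (f := fun μ : ℕ × ℕ => μ.1 + μ.2) hμ
    simp only [mem_product, mem_range]
    omega
  have h1 : ∑ μ ∈ T, max 0 (W - θ * (μ.1 : ℝ) - (μ.2 : ℝ)) ≤
      ∑ μ ∈ range N ×ˢ range N, max 0 (W - θ * (μ.1 : ℝ) - (μ.2 : ℝ)) :=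
    sum_le_sum_of_subset_of_nonneg hN (fun _ _ _ => le_max_left _ _)
  rw [sum_product] at h1
  have h2 : ∑ a ∈ range N, ∑ b ∈ range N, max 0 (W - θ * (a : ℝ) - (b : ℝ)) ≤
      ∑ a ∈ range N, (max 0 (W + 1 - θ * (a : ℝ))) ^ 2 / 2 := by
    refine sum_le_sum fun a _ => ?_
    have h := inner_le (W - θ * a) N
    have e : W - θ * (a : ℝ) + 1 = W + 1 - θ * a := by ring
    rw [e] at h
    have : 0 ≤ (max 0 (W + 1 - θ * (a : ℝ) - N)) ^ 2 := sq_nonneg _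
    linarith
  have h3 := outer_le θ (W + 1) hθ.le N
  have h4 : 0 ≤ (max 0 (W + 1 + θ - θ * (N : ℝ))) ^ 3 := pow_nonneg (le_max_left _ _) _
  have h5 : (max 0 (W + 1 + θ)) ^ 3 ≤ (W + 2) ^ 3 := by
    rw [max_eq_right (by linarith)]
    exact pow_le_pow_left₀ (by linarith) (by linarith) 3
  have h6 : ∑ a ∈ range N, 3 * θ * (max 0 (W + 1 - θ * (a : ℝ))) ^ 2 =
      6 * θ * ∑ a ∈ range N, (max 0 (W + 1 - θ * (a : ℝ))) ^ 2 / 2 := by
    rw [mul_sum]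
    exact sum_congr rfl fun a _ => by ring
  rw [le_div_iff₀ (by positivity)]
  have h7 := mul_le_mul_of_nonneg_left (h1.trans h2) (show (0 : ℝ) ≤ 6 * θ by positivity)
  linarith

end WTx

theorem wt : S_WT := by
  intro θ h34 h1
  have hθ : 0 < θ := by linarith
  set u : ℝ := 1 / θ with hu
  have hu0 : 0 < u := by positivity
  have hu1 : u < 4 / 3 := by
    rw [hu, div_lt_iff₀ hθ]
    linarith
  set κ : ℝ := 3 / 4 - 9 * u / 16 with hκ
  have hκ0 : 0 < κ := by rw [hκ]; linarith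
  obtain ⟨D, hD⟩ := exists_nat_ge (100 / κ + 1)
  have hq : 0 < 100 / κ := by positivity
  have hD1 : (1 : ℝ) ≤ D := by linarith
  have hDκ : 100 ≤ κ * D := by
    have : 100 / κ ≤ D := by linarith
    rw [div_le_iff₀ hκ0] at this
    linarith
  refine ⟨D, fun E T hE hT => ?_⟩
  have hER : (E : ℝ) = 3 * ((D : ℝ) + 1) * (D + 2) / 2 := by
    have : (3 : ℝ) * ((D : ℝ) + 1) * (D + 2) = 2 * E := by exact_mod_cast hE
    linarith
  have ht := WTx.total_le θ (3 * D / 2) hθ h1 (by positivity) T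
  have hs : ∑ μ ∈ T, ((3 * (D : ℝ) / 2) - max 0 (3 * (D : ℝ) / 2 - θ * (μ.1 : ℝ) - (μ.2 : ℝ))) ≤
      ∑ μ ∈ T, (θ * μ.1 + μ.2) := by
    refine sum_le_sum fun μ _ => ?_
    have := le_max_right 0 (3 * (D : ℝ) / 2 - θ * (μ.1 : ℝ) - (μ.2 : ℝ))
    linarith
  rw [sum_sub_distrib, sum_const, hT, nsmul_eq_mul] at hs
  have e : (3 * (D : ℝ) / 2 + 2) ^ 3 / (6 * θ) = u * ((3 * (D : ℝ) / 2 + 2) ^ 3 / 6) := by
    rw [hu]
    field_simp
  rw [e] at ht
  have hfin : ((D : ℝ) + 2) * E + 1 ≤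
      E * (3 * (D : ℝ) / 2) - u * ((3 * (D : ℝ) / 2 + 2) ^ 3 / 6) := by
    rw [hER]
    have hD0 : (0 : ℝ) ≤ D := by linarith
    have a1 : 100 * (D : ℝ) ^ 2 ≤ κ * D * D ^ 2 :=
      mul_le_mul_of_nonneg_right hDκ (by positivity)
    have a2 : u * (9 * (D : ℝ) ^ 2 / 4 + 3 * D + 4 / 3) ≤
        4 / 3 * (9 * (D : ℝ) ^ 2 / 4 + 3 * D + 4 / 3) :=
      mul_le_mul_of_nonneg_right hu1.le (by positivity)
    have a3 : (D : ℝ) ≤ D ^ 2 := by nlinarith
    rw [hκ] at a1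
    nlinarith
  linarith

end Pool.Agent.MP_47f5fb_nt.Ct
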